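import Pool.Agent.Work.MP_7453a1_an.Interface

set_option autoImplicit false

/-!
Blocks IDX, BOX1, BOX2 (helper63).
-/

namespace Pool.Agent.Work.MP_7453a1_an

open Pool.Agent.Work.MP_7453a1_nt_norm Pool.Agent.Work.MP_7453a1_nt_h45
open Pool.Agent.Work.MP_7453a1_nt_sym (IsFrame2)

theorem box_d (h : Stmt_MINK) {N : Seminorm ℝ V} {Θ : V} {z : ℕ → Pt 2} (hF : IsFrame2 N Θ z)
    {i j : ℕ} (hij : i < j) :
    |det (ev Θ (z i)) (ev Θ (z j))| * ((z (i + 1)).1 : ℝ) ≤ 2 :=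
  h N Θ z hF i (z i) (z j) le_rfl (hF.anti i j hij).le

theorem box_d' (h : Stmt_MINK) {N : Seminorm ℝ V} {Θ : V} {z : ℕ → Pt 2} (hF : IsFrame2 N Θ z)
    {i j : ℕ} (hij : i < j) :
    |det (ev Θ (z j)) (ev Θ (z i))| * ((z (i + 1)).1 : ℝ) ≤ 2 := by
  rw [det_anti, abs_neg]
  exact box_d h hF hij

theorem box_tri (hd : Stmt_DET) (Θ : V) (u v w : Pt 2) (hu : 0 < u.1) (hv : 0 < v.1)
    (hw : 0 < w.1) :
    |((D3 u v w : ℤ) : ℝ)| ≤ (u.1 : ℝ) * |det (ev Θ v) (ev Θ w)| +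
      (v.1 : ℝ) * |det (ev Θ w) (ev Θ u)| + (w.1 : ℝ) * |det (ev Θ u) (ev Θ v)| := by
  rw [← hd Θ u v w]
  have h1 : (0 : ℝ) < u.1 := by exact_mod_cast hu
  have h2 : (0 : ℝ) < v.1 := by exact_mod_cast hv
  have h3 : (0 : ℝ) < w.1 := by exact_mod_cast hw
  refine (abs_add_three _ _ _).trans (le_of_eq ?_)
  rw [abs_mul, abs_mul, abs_mul, abs_of_pos h1, abs_of_pos h2, abs_of_pos h3]

theorem box_le {x : ℤ} {n : ℤ} (h : |(x : ℝ)| < n + 1) : |x| ≤ n := by
  have : ((|x| : ℤ) : ℝ) < ((n + 1 : ℤ) : ℝ) := by push_cast; exact h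
  have := Int.cast_lt.1 this
  omega

theorem D3_1 (v : V3) (a b c : Pt 2) : D3 (cb v a b c) b c = v.1 * D3 a b c := by
  simp only [D3, cb, Prod.fst_add, Prod.snd_add, Prod.smul_fst, Prod.smul_snd, Pi.add_apply,
    Pi.smul_apply, smul_eq_mul]
  ring

theorem D3_2 (v : V3) (a b c : Pt 2) : D3 a (cb v a b c) c = v.2.1 * D3 a b c := by
  simp only [D3, cb, Prod.fst_add, Prod.snd_add, Prod.smul_fst, Prod.smul_snd, Pi.add_apply,
    Pi.smul_apply, smul_eq_mul]
  ring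

theorem D3_3 (v : V3) (a b c : Pt 2) : D3 a b (cb v a b c) = v.2.2 * D3 a b c := by
  simp only [D3, cb, Prod.fst_add, Prod.snd_add, Prod.smul_fst, Prod.smul_snd, Pi.add_apply,
    Pi.smul_apply, smul_eq_mul]
  ring

theorem box_abs {t D : ℤ} (hD : |D| = 1) : |((t * D : ℤ) : ℝ)| = |(t : ℝ)| := by
  rw [Int.cast_mul, abs_mul]
  have : |(D : ℝ)| = 1 := by rw [← Int.cast_abs, hD]; simp
  rw [this, mul_one]

/-- From the bounds of the determinants to the bound of the sum. -/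
theorem box_fin {a b c x y w p q r K : ℝ} (ha : 0 < a) (hb : 0 < b) (hc : 0 < c)
    (hp : 0 < p) (hq : 0 < q) (hr : 0 < r) (hx : x * p ≤ 2) (hy : y * q ≤ 2) (hw : w * r ≤ 2)
    (h : 2 * a / p + 2 * b / q + 2 * c / r < K) : a * x + b * y + c * w < K := by
  have h1 : a * x ≤ 2 * a / p := by rw [le_div_iff₀ hp]; nlinarith
  have h2 : b * y ≤ 2 * b / q := by rw [le_div_iff₀ hq]; nlinarith
  have h3 : c * w ≤ 2 * c / r := by rw [le_div_iff₀ hr]; nlinarith
  linarith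

section

variable {N : Seminorm ℝ V} {Θ : V} {z : ℕ → Pt 2}

theorem box_pos (hF : IsFrame2 N Θ z) (i : ℕ) : (0 : ℝ) < ((z i).1 : ℝ) := by
  exact_mod_cast hF.pos i

theorem box_lt (hF : IsFrame2 N Θ z) {i j : ℕ} (h : i < j) : ((z i).1 : ℝ) < ((z j).1 : ℝ) := by
  exact_mod_cast hF.mono i j h

theorem box_slow {p : ℕ} (h : Slow z p) :
    ((z (p + 2)).1 : ℝ) < ((z p).1 : ℝ) + ((z (p + 1)).1 : ℝ) := by
  have : (z (p + 2)).1 < (z p).1 + (z (p + 1)).1 := h
  exact_mod_cast this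

theorem IDX (h : Stmt_MINK) (hd : Stmt_DET) : Stmt_IDX := by
  intro N Θ z hF p hs
  refine box_le ?_
  refine (box_tri hd Θ _ _ _ (hF.pos _) (hF.pos _) (hF.pos _)).trans_lt ?_
  have p0 := box_pos hF p
  have p1 := box_pos hF (p + 1)
  have p2 := box_pos hF (p + 2)
  have l01 := box_lt hF (show p < p + 1 by omega)
  have l12 := box_lt hF (show p + 1 < p + 2 by omega)
  have sl := box_slow hs
  refine box_fin p0 p1 p2 p2 p1 p1 (box_d h hF (show p + 1 < p + 2 by omega))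
    (box_d' h hF (show p < p + 2 by omega)) (box_d h hF (show p < p + 1 by omega)) ?_
  generalize ((z p).1 : ℝ) = a at *
  generalize ((z (p + 1)).1 : ℝ) = b at *
  generalize ((z (p + 2)).1 : ℝ) = c at *
  have e : 2 * a / c + 2 * b / b + 2 * c / b = (2 * a * b + 2 * b * c + 2 * c * c) / (b * c) := by
    field_simp
  rw [e, div_lt_iff₀ (by positivity)]
  push_cast
  nlinarith [mul_pos (sub_pos.2 l12) (sub_pos.2 sl), mul_pos p0 p1, mul_pos p1 p2,
    mul_pos (sub_pos.2 l01) p2, mul_pos (sub_pos.2 l01) p1]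

theorem BOX1 (h : Stmt_MINK) (hd : Stmt_DET) : Stmt_BOX1 := by
  intro N Θ z hF p hs hD h3 v hv
  have p0 := box_pos hF p
  have p1 := box_pos hF (p + 1)
  have p2 := box_pos hF (p + 2)
  have p3 := box_pos hF (p + 3)
  have l01 := box_lt hF (show p < p + 1 by omega)
  have l12 := box_lt hF (show p + 1 < p + 2 by omega)
  have l23 := box_lt hF (show p + 2 < p + 3 by omega)
  have sl := box_slow hs
  have h3' : ((z (p + 3)).1 : ℝ) < ((z p).1 : ℝ) + ((z (p + 1)).1 : ℝ) + ((z (p + 2)).1 : ℝ) := by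
    exact_mod_cast h3
  refine ⟨box_le ?_, box_le ?_, box_le ?_⟩
  · rw [← box_abs hD, ← D3_1, ← hv]
    refine (box_tri hd Θ _ _ _ (hF.pos _) (hF.pos _) (hF.pos _)).trans_lt ?_
    refine box_fin p3 p1 p2 p2 p3 p2 (box_d h hF (show p + 1 < p + 2 by omega))
      (box_d h hF (show p + 2 < p + 3 by omega)) (box_d' h hF (show p + 1 < p + 3 by omega)) ?_
    generalize ((z p).1 : ℝ) = a at *
    generalize ((z (p + 1)).1 : ℝ) = b at *
    generalize ((z (p + 2)).1 : ℝ) = c at *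
    generalize ((z (p + 3)).1 : ℝ) = d at *
    have e : 2 * d / c + 2 * b / d + 2 * c / c = (2 * d * d + 2 * b * c + 2 * c * d) / (c * d) := by
      field_simp
    rw [e, div_lt_iff₀ (by positivity)]
    push_cast
    nlinarith [mul_pos (sub_pos.2 l23) (sub_pos.2 h3'), mul_pos p0 p1, mul_pos p1 p2,
      mul_pos (sub_pos.2 l01) p2, mul_pos (sub_pos.2 l12) p2, mul_pos (sub_pos.2 l12) p3,
      mul_pos (sub_pos.2 l01) p3, mul_pos p2 p2]
  · rw [← box_abs hD, ← D3_2, ← hv]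
    refine (box_tri hd Θ _ _ _ (hF.pos _) (hF.pos _) (hF.pos _)).trans_lt ?_
    refine box_fin p0 p3 p2 p3 p1 p1 (box_d' h hF (show p + 2 < p + 3 by omega))
      (box_d' h hF (show p < p + 2 by omega)) (box_d h hF (show p < p + 3 by omega)) ?_
    generalize ((z p).1 : ℝ) = a at *
    generalize ((z (p + 1)).1 : ℝ) = b at *
    generalize ((z (p + 2)).1 : ℝ) = c at *
    generalize ((z (p + 3)).1 : ℝ) = d at *
    have e : 2 * a / d + 2 * d / b + 2 * c / b = (2 * a * b + 2 * d * d + 2 * c * d) / (b * d) := by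
      field_simp
    rw [e, div_lt_iff₀ (by positivity)]
    push_cast
    nlinarith [mul_pos (sub_pos.2 l23) (sub_pos.2 h3'), mul_pos p0 p1, mul_pos p1 p2,
      mul_pos (sub_pos.2 l01) p3, mul_pos (sub_pos.2 sl) p3, mul_pos (sub_pos.2 sl) p2,
      mul_pos (sub_pos.2 l01) p1, mul_pos (sub_pos.2 l01) p2, mul_pos (sub_pos.2 l12) p1,
      mul_pos (sub_pos.2 sl) p1, mul_pos (sub_pos.2 h3') p1, mul_pos (sub_pos.2 h3') p3]
  · rw [← box_abs hD, ← D3_3, ← hv]
    refine (box_tri hd Θ _ _ _ (hF.pos _) (hF.pos _) (hF.pos _)).trans_lt ?_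
    refine box_fin p0 p1 p3 p2 p1 p1 (box_d h hF (show p + 1 < p + 3 by omega))
      (box_d' h hF (show p < p + 3 by omega)) (box_d h hF (show p < p + 1 by omega)) ?_
    generalize ((z p).1 : ℝ) = a at *
    generalize ((z (p + 1)).1 : ℝ) = b at *
    generalize ((z (p + 2)).1 : ℝ) = c at *
    generalize ((z (p + 3)).1 : ℝ) = d at *
    have e : 2 * a / c + 2 * b / b + 2 * d / b = (2 * a * b + 2 * b * c + 2 * d * c) / (b * c) := by
      field_simp
    rw [e, div_lt_iff₀ (by positivity)]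
    push_cast
    nlinarith [mul_pos (sub_pos.2 l12) (sub_pos.2 sl), mul_pos p0 p1, mul_pos p1 p2,
      mul_pos (sub_pos.2 h3') p2, mul_pos (sub_pos.2 l01) p1, mul_pos (sub_pos.2 l01) p2,
      mul_pos (sub_pos.2 l12) p1, mul_pos (sub_pos.2 sl) p2]

theorem BOX2 (h : Stmt_MINK) (hd : Stmt_DET) : Stmt_BOX2 := by
  intro N Θ z hF p hs hD h3 h4 v hv
  have p0 := box_pos hF p
  have p1 := box_pos hF (p + 1)
  have p2 := box_pos hF (p + 2)
  have p3 := box_pos hF (p + 3)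
  have p4 := box_pos hF (p + 4)
  have l01 := box_lt hF (show p < p + 1 by omega)
  have l12 := box_lt hF (show p + 1 < p + 2 by omega)
  have l34 := box_lt hF (show p + 3 < p + 4 by omega)
  have sl := box_slow hs
  have h4' : ((z (p + 4)).1 : ℝ) < ((z (p + 1)).1 : ℝ) + 2 * ((z (p + 2)).1 : ℝ) := by
    exact_mod_cast h4
  have e3 : ((z (p + 3)).1 : ℝ) = ((z (p + 1)).1 : ℝ) + ((z (p + 2)).1 : ℝ) := by
    rw [h3]; simp
  have k12 : |det (ev Θ (z (p + 1))) (ev Θ (z (p + 2)))| * ((z (p + 3)).1 : ℝ) ≤ 2 := by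
    have h5 := box_d' h hF (show p + 2 < p + 3 by omega)
    have h6 : ev Θ (z (p + 1)) = ev Θ (z (p + 3)) - ev Θ (z (p + 2)) := by
      rw [h3, map_add]; abel
    have h7 : det (ev Θ (z (p + 1))) (ev Θ (z (p + 2))) =
        det (ev Θ (z (p + 3))) (ev Θ (z (p + 2))) := by
      rw [h6]
      simp only [det, Pi.sub_apply]
      ring
    rw [h7]
    exact h5
  refine ⟨box_le ?_, box_le ?_, box_le ?_⟩
  · rw [← box_abs hD, ← D3_1, ← hv]
    refine (box_tri hd Θ _ _ _ (hF.pos _) (hF.pos _) (hF.pos _)).trans_lt ?_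
    refine box_fin p4 p1 p2 p3 p3 p2 k12
      (box_d h hF (show p + 2 < p + 4 by omega)) (box_d' h hF (show p + 1 < p + 4 by omega)) ?_
    generalize ((z p).1 : ℝ) = a at *
    generalize ((z (p + 1)).1 : ℝ) = b at *
    generalize ((z (p + 2)).1 : ℝ) = c at *
    generalize ((z (p + 3)).1 : ℝ) = d at *
    generalize ((z (p + 4)).1 : ℝ) = g at *
    have e : 2 * g / d + 2 * b / d + 2 * c / c = (2 * g * c + 2 * b * c + 2 * c * d) / (c * d) := by
      field_simp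
    rw [e, div_lt_iff₀ (by positivity)]
    push_cast
    nlinarith [mul_pos (sub_pos.2 h4') p2, mul_pos p1 p2, mul_pos p2 p2]
  · rw [← box_abs hD, ← D3_2, ← hv]
    refine (box_tri hd Θ _ _ _ (hF.pos _) (hF.pos _) (hF.pos _)).trans_lt ?_
    refine box_fin p0 p4 p2 p3 p1 p1 (box_d' h hF (show p + 2 < p + 4 by omega))
      (box_d' h hF (show p < p + 2 by omega)) (box_d h hF (show p < p + 4 by omega)) ?_
    generalize ((z p).1 : ℝ) = a at *
    generalize ((z (p + 1)).1 : ℝ) = b at *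
    generalize ((z (p + 2)).1 : ℝ) = c at *
    generalize ((z (p + 3)).1 : ℝ) = d at *
    generalize ((z (p + 4)).1 : ℝ) = g at *
    have e : 2 * a / d + 2 * g / b + 2 * c / b = (2 * a * b + 2 * g * d + 2 * c * d) / (b * d) := by
      field_simp
    rw [e, div_lt_iff₀ (by positivity)]
    push_cast
    subst e3
    nlinarith [mul_pos (sub_pos.2 h4') p3, mul_pos p0 p1, mul_pos p1 p2,
      mul_pos (sub_pos.2 l01) p1, mul_pos (sub_pos.2 l01) p2, mul_pos (sub_pos.2 l12) p1,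
      mul_pos (sub_pos.2 l12) p2, mul_pos (sub_pos.2 sl) p1, mul_pos (sub_pos.2 sl) p2]
  · rw [← box_abs hD, ← D3_3, ← hv]
    refine (box_tri hd Θ _ _ _ (hF.pos _) (hF.pos _) (hF.pos _)).trans_lt ?_
    refine box_fin p0 p1 p4 p2 p1 p1 (box_d h hF (show p + 1 < p + 4 by omega))
      (box_d' h hF (show p < p + 4 by omega)) (box_d h hF (show p < p + 1 by omega)) ?_
    generalize ((z p).1 : ℝ) = a at *
    generalize ((z (p + 1)).1 : ℝ) = b at *
    generalize ((z (p + 2)).1 : ℝ) = c at *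
    generalize ((z (p + 3)).1 : ℝ) = d at *
    generalize ((z (p + 4)).1 : ℝ) = g at *
    have e : 2 * a / c + 2 * b / b + 2 * g / b = (2 * a * b + 2 * b * c + 2 * g * c) / (b * c) := by
      field_simp
    rw [e, div_lt_iff₀ (by positivity)]
    push_cast
    nlinarith [mul_pos (sub_pos.2 l12) (sub_pos.2 sl), mul_pos p0 p1, mul_pos p1 p2,
      mul_pos (sub_pos.2 h4') p2, mul_pos (sub_pos.2 l01) p1, mul_pos (sub_pos.2 l01) p2,
      mul_pos (sub_pos.2 l12) p1, mul_pos (sub_pos.2 sl) p2]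

end

end Pool.Agent.Work.MP_7453a1_an
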