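import Pool.Agent.Work.MP_7453a1_an.Interface

set_option autoImplicit false

/-!
Blocks BUILD1 and BUILDP (helper83).
-/

namespace Pool.Agent.Work.MP_7453a1_an

open Pool.Agent.Work.MP_7453a1_nt_norm Pool.Agent.Work.MP_7453a1_nt_h45
open Pool.Agent.Work.MP_7453a1_nt_sym (IsFrame2)

namespace Build

theorem cb_fst (v : V3) (a b c : Pt 2) :
    (cb v a b c).1 = v.1 * a.1 + (v.2.1 * b.1 + v.2.2 * c.1) := by
  simp only [cb, Prod.fst_add, Prod.smul_fst, smul_eq_mul]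

theorem cb_snd (v : V3) (a b c : Pt 2) (i : Fin 2) :
    (cb v a b c).2 i = v.1 * a.2 i + (v.2.1 * b.2 i + v.2.2 * c.2 i) := by
  simp only [cb, Prod.snd_add, Prod.smul_snd, Pi.add_apply, Pi.smul_apply, smul_eq_mul]

theorem cb_smul (n : ℤ) (v : V3) (a b c : Pt 2) : cb (n • v) a b c = n • cb v a b c := by
  simp only [cb, Prod.smul_fst, Prod.smul_snd, smul_eq_mul, mul_smul, smul_add]

theorem cb_add (v w : V3) (a b c : Pt 2) : cb (v + w) a b c = cb v a b c + cb w a b c := by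
  simp only [cb, Prod.fst_add, Prod.snd_add, add_smul]
  abel

theorem cb_neg (v : V3) (a b c : Pt 2) : cb (-v) a b c = -cb v a b c := by
  simp only [cb, Prod.fst_neg, Prod.snd_neg, neg_smul]
  abel

theorem cb_sub (v w : V3) (a b c : Pt 2) : cb (v - w) a b c = cb v a b c - cb w a b c := by
  rw [sub_eq_add_neg, cb_add, cb_neg, ← sub_eq_add_neg]

theorem cb_zero {v : V3} {a b c : Pt 2} (hD : D3 a b c ≠ 0) (h : cb v a b c = 0) : v = 0 := by
  have e1 := cb_fst v a b c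
  have e2 := cb_snd v a b c 0
  have e3 := cb_snd v a b c 1
  rw [h] at e1 e2 e3
  simp only [Prod.fst_zero, Prod.snd_zero, Pi.zero_apply] at e1 e2 e3
  have h1 : v.1 * D3 a b c = 0 := by
    simp only [D3]
    linear_combination (-(b.2 0 * c.2 1 - b.2 1 * c.2 0)) * e1 -
      (b.2 1 * c.1 - b.1 * c.2 1) * e2 - (b.1 * c.2 0 - b.2 0 * c.1) * e3
  have h2 : v.2.1 * D3 a b c = 0 := by
    simp only [D3]
    linear_combination (-(c.2 0 * a.2 1 - c.2 1 * a.2 0)) * e1 -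
      (c.2 1 * a.1 - c.1 * a.2 1) * e2 - (c.1 * a.2 0 - c.2 0 * a.1) * e3
  have h3 : v.2.2 * D3 a b c = 0 := by
    simp only [D3]
    linear_combination (-(a.2 0 * b.2 1 - a.2 1 * b.2 0)) * e1 -
      (a.2 1 * b.1 - a.1 * b.2 1) * e2 - (a.1 * b.2 0 - a.2 0 * b.1) * e3
  refine Prod.ext ?_ (Prod.ext ?_ ?_)
  · exact (mul_eq_zero.1 h1).resolve_right hD
  · exact (mul_eq_zero.1 h2).resolve_right hD
  · exact (mul_eq_zero.1 h3).resolve_right hD

theorem cb_inj {v w : V3} {a b c : Pt 2} (hD : D3 a b c ≠ 0) (h : cb v a b c = cb w a b c) :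
    v = w := by
  have h1 : cb (v - w) a b c = 0 := by rw [cb_sub, h, sub_self]
  exact sub_eq_zero.1 (cb_zero hD h1)

theorem ev_zsmul' (Θ : V) (n : ℤ) (x : Pt 2) : ev Θ (n • x) = (n : ℝ) • ev Θ x := by
  rw [map_zsmul, ← Int.cast_smul_eq_zsmul ℝ]

theorem vec_cb (Θ : V) (v : V3) (a b c : Pt 2) :
    vec (ev Θ a, ev Θ b, ev Θ c) v = ev Θ (cb v a b c) := by
  simp only [vec, cb, map_add, ev_zsmul']

theorem lin_cb (v : V3) (a b c : Pt 2) :
    lin v ((a.1 : ℝ), (b.1 : ℝ), (c.1 : ℝ)) = ((cb v a b c).1 : ℝ) := by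
  rw [cb_fst]
  simp only [lin]
  push_cast
  ring

/-- The general form. -/
theorem gen (hw : Stmt_WEX) (hd : Stmt_DET) (N : Seminorm ℝ V) (Θ : V) (z : ℕ → Pt 2)
    (hz : IsFrame2 N Θ z) (p : ℕ) (hs : Slow z p)
    (hD : D3 (z p) (z (p + 1)) (z (p + 2)) ≠ 0) (m : ℕ) (G : V3) (W QC : List V3)
    (hm : ∀ (mu : ℕ) (P : V3), mb m G mu P = true →
      0 < mu ∧ ∃ w : Pt 2, (mu : ℤ) • w = cb P (z p) (z (p + 1)) (z (p + 2)))
    (hW : ∀ j a, W[j]? = some a → z (p + j) = cb a (z p) (z (p + 1)) (z (p + 2)))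
    (hQ : ∀ h ∈ QC, 0 < lin h (((z p).1 : ℝ), ((z (p + 1)).1 : ℝ), ((z (p + 2)).1 : ℝ))) :
    Geo m G W QC N (ev Θ (z p), ev Θ (z (p + 1)), ev Θ (z (p + 2)))
      (((z p).1 : ℝ), ((z (p + 1)).1 : ℝ), ((z (p + 2)).1 : ℝ)) (fun j => er N Θ (z (p + j))) where
  q0 := by
    have h : (0 : ℝ) < ((z p).1 : ℝ) := by exact_mod_cast hz.pos p
    exact h.le
  q1 := by
    have h : ((z p).1 : ℝ) < ((z (p + 1)).1 : ℝ) := by
      exact_mod_cast hz.mono p (p + 1) (by omega)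
    exact h.le
  q2 := by
    have h : ((z (p + 1)).1 : ℝ) < ((z (p + 2)).1 : ℝ) := by
      exact_mod_cast hz.mono (p + 1) (p + 2) (by omega)
    exact h.le
  qs := by
    have h1 : (z (p + 2)).1 < (z p).1 + (z (p + 1)).1 := hs
    have h : ((z (p + 2)).1 : ℝ) < ((z p).1 : ℝ) + ((z (p + 1)).1 : ℝ) := by exact_mod_cast h1
    exact h.le
  qc := hQ
  pos := by
    intro j
    exact lt_of_le_of_lt (er_nonneg _) (hz.anti (p + j) (p + j + 1) (by omega))
  dec := by
    intro j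
    exact hz.anti (p + j) (p + (j + 1)) (by omega)
  lev := by
    intro j a ha
    rw [vec_cb, ← hW j a ha]
    rfl
  leg := by
    intro j mu b P hb hmb hP0 hP1 hP2 hlin
    obtain ⟨hmu, w, hw'⟩ := hm mu P hmb
    have hmuZ : (mu : ℤ) ≠ 0 := by exact_mod_cast hmu.ne'
    have hmuR : (0 : ℝ) < (mu : ℝ) := by exact_mod_cast hmu
    have hzb : z (p + (j + 1)) = cb b (z p) (z (p + 1)) (z (p + 2)) := hW (j + 1) b hb
    have hw0 : w ≠ 0 := by
      intro h
      rw [h, smul_zero] at hw'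
      exact hP0 (cb_zero hD hw'.symm)
    have hw1 : w ≠ z (p + j + 1) := by
      intro h
      have h1 : w = cb b (z p) (z (p + 1)) (z (p + 2)) := by rw [h]; exact hzb
      rw [h1, ← cb_smul] at hw'
      exact hP1 (cb_inj hD hw').symm
    have hw2 : w ≠ -z (p + j + 1) := by
      intro h
      have h1 : w = -cb b (z p) (z (p + 1)) (z (p + 2)) := by rw [h]; exact congrArg _ hzb
      rw [h1, smul_neg, ← cb_smul, ← cb_neg] at hw'
      exact hP2 (cb_inj hD hw').symm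
    have hle : |w.1| ≤ (z (p + j + 1)).1 := by
      rw [lin_cb, lin_cb, ← hw', ← hzb] at hlin
      have h1 : ((((mu : ℤ) • w).1 : ℤ) : ℝ) = (mu : ℝ) * (w.1 : ℝ) := by
        rw [Prod.smul_fst, smul_eq_mul]
        push_cast
        ring
      rw [h1, abs_mul, abs_of_pos hmuR] at hlin
      have h2 := le_of_mul_le_mul_left hlin hmuR
      have h3 : (z (p + (j + 1))).1 = (z (p + j + 1)).1 := rfl
      rw [h3] at h2
      exact_mod_cast h2
    have h := hw N Θ z hz (p + j) w hw0 hle hw1 hw2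
    rw [vec_cb, ← hw', ev_zsmul', map_smul_eq_mul, Real.norm_eq_abs]
    have h4 : |(((mu : ℤ) : ℝ))| = (mu : ℝ) := by
      rw [Int.cast_natCast]
      exact abs_of_pos hmuR
    rw [h4]
    exact mul_le_mul_of_nonneg_left h hmuR.le
  nz := by
    intro h
    apply hD
    have h1 := hd Θ (z p) (z (p + 1)) (z (p + 2))
    have e1 : det (ev Θ (z (p + 1))) (ev Θ (z (p + 2))) = 0 := congrArg (fun t => t.1) h
    have e2 : det (ev Θ (z (p + 2))) (ev Θ (z p)) = 0 := congrArg (fun t => t.2.1) h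
    have e3 : det (ev Θ (z p)) (ev Θ (z (p + 1))) = 0 := congrArg (fun t => t.2.2) h
    rw [e1, e2, e3] at h1
    have h2 : ((D3 (z p) (z (p + 1)) (z (p + 2)) : ℤ) : ℝ) = 0 := by rw [← h1]; ring
    exact_mod_cast h2

/-- Division by a prime. -/
theorem divp {m : ℕ} (hm : m.Prime) {G P : V3}
    (hG : ¬ ((m : ℤ) ∣ G.1 ∧ (m : ℤ) ∣ G.2.1 ∧ (m : ℤ) ∣ G.2.2))
    (h1 : (m : ℤ) ∣ (cr P G).1) (h2 : (m : ℤ) ∣ (cr P G).2.1) (h3 : (m : ℤ) ∣ (cr P G).2.2) :
    ∃ (l : ℤ) (R : V3), P = l • G + (m : ℤ) • R := by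
  have hmp : Prime (m : ℤ) := Nat.prime_iff_prime_int.1 hm
  have key : ∀ g : ℤ, ¬ (m : ℤ) ∣ g → ∃ t s : ℤ, t * g + s * m = 1 := by
    intro g hg
    have h : IsCoprime g (m : ℤ) := by
      rw [isCoprime_comm]
      exact (Prime.coprime_iff_not_dvd hmp).2 hg
    obtain ⟨t, s, hts⟩ := h
    exact ⟨t, s, hts⟩
  obtain ⟨c1, hc1⟩ := h1
  obtain ⟨c2, hc2⟩ := h2
  obtain ⟨c3, hc3⟩ := h3
  simp only [cr] at hc1 hc2 hc3
  by_cases g1 : (m : ℤ) ∣ G.1
  · by_cases g2 : (m : ℤ) ∣ G.2.1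
    · have g3 : ¬ (m : ℤ) ∣ G.2.2 := fun g3 => hG ⟨g1, g2, g3⟩
      obtain ⟨t, s, hts⟩ := key _ g3
      refine ⟨t * P.2.2, (P.1 * s - c2 * t, P.2.1 * s + c1 * t, P.2.2 * s), ?_⟩
      refine Prod.ext ?_ (Prod.ext ?_ ?_)
      · simp only [Prod.fst_add, Prod.smul_fst, smul_eq_mul]
        linear_combination (-P.1) * hts - t * hc2
      · simp only [Prod.snd_add, Prod.smul_snd, Prod.fst_add, Prod.smul_fst, smul_eq_mul]
        linear_combination (-P.2.1) * hts + t * hc1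
      · simp only [Prod.snd_add, Prod.smul_snd, smul_eq_mul]
        linear_combination (-P.2.2) * hts
    · obtain ⟨t, s, hts⟩ := key _ g2
      refine ⟨t * P.2.1, (P.1 * s + c3 * t, P.2.1 * s, P.2.2 * s - c1 * t), ?_⟩
      refine Prod.ext ?_ (Prod.ext ?_ ?_)
      · simp only [Prod.fst_add, Prod.smul_fst, smul_eq_mul]
        linear_combination (-P.1) * hts + t * hc3
      · simp only [Prod.snd_add, Prod.smul_snd, Prod.fst_add, Prod.smul_fst, smul_eq_mul]
        linear_combination (-P.2.1) * hts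
      · simp only [Prod.snd_add, Prod.smul_snd, smul_eq_mul]
        linear_combination (-P.2.2) * hts - t * hc1
  · obtain ⟨t, s, hts⟩ := key _ g1
    refine ⟨t * P.1, (P.1 * s, P.2.1 * s - c3 * t, P.2.2 * s + c2 * t), ?_⟩
    refine Prod.ext ?_ (Prod.ext ?_ ?_)
    · simp only [Prod.fst_add, Prod.smul_fst, smul_eq_mul]
      linear_combination (-P.1) * hts
    · simp only [Prod.snd_add, Prod.smul_snd, Prod.fst_add, Prod.smul_fst, smul_eq_mul]
      linear_combination (-P.2.1) * hts - t * hc3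
    · simp only [Prod.snd_add, Prod.smul_snd, smul_eq_mul]
      linear_combination (-P.2.2) * hts + t * hc2

end Build

open Build in
theorem BUILD1 (hw : Stmt_WEX) (hd : Stmt_DET) : Stmt_BUILD1 := by
  intro N Θ z hz p hs hD W QC hW hQ
  refine gen hw hd N Θ z hz p hs hD 1 0 W QC ?_ hW hQ
  intro mu P h
  have h1 : mu = 1 := by
    simp only [mb, Bool.or_eq_true, Bool.and_eq_true, beq_iff_eq] at h
    rcases h with h | h
    · exact h
    · exact h.1.1.1
  subst h1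
  exact ⟨by norm_num, cb P (z p) (z (p + 1)) (z (p + 2)), by simp⟩

open Build in
theorem BUILDP (hw : Stmt_WEX) (hd : Stmt_DET) : Stmt_BUILDP := by
  intro N Θ z hz p hs hD m G hm hG hsG
  obtain ⟨s, hs'⟩ := hsG
  have hs1 : (z (p + 2)).1 < (z p).1 + (z (p + 1)).1 := hs
  have m0 := hz.pos p
  have m1 := hz.mono p (p + 1) (by omega)
  have m2 := hz.mono (p + 1) (p + 2) (by omega)
  refine gen hw hd N Θ z hz p hs hD m G _ _ ?_ ?_ ?_
  · intro mu P h
    simp only [mb, Bool.or_eq_true, Bool.and_eq_true, beq_iff_eq] at h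
    rcases h with h | ⟨⟨⟨h, h1⟩, h2⟩, h3⟩
    · subst h
      exact ⟨by norm_num, cb P (z p) (z (p + 1)) (z (p + 2)), by simp⟩
    · subst h
      refine ⟨hm.pos, ?_⟩
      obtain ⟨l, R, hP⟩ := divp hm hG (Int.dvd_of_emod_eq_zero h1) (Int.dvd_of_emod_eq_zero h2)
        (Int.dvd_of_emod_eq_zero h3)
      refine ⟨l • s + cb R (z p) (z (p + 1)) (z (p + 2)), ?_⟩
      rw [hP, cb_add, cb_smul, cb_smul, ← hs', smul_add, smul_comm]
  · intro j a h
    match j, h with
    | 0, h =>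
      have h1 : a = (1, 0, 0) := by simpa using h.symm
      rw [h1]
      simp [cb]
    | 1, h =>
      have h1 : a = (0, 1, 0) := by simpa using h.symm
      rw [h1]
      simp [cb]
    | 2, h =>
      have h1 : a = (0, 0, 1) := by simpa using h.symm
      rw [h1]
      simp [cb]
    | (j + 3), h => simp at h
  · intro h hh
    rw [lin_cb, cb_fst]
    simp only [List.mem_cons, List.not_mem_nil, or_false] at hh
    rcases hh with rfl | rfl | rfl | rfl
    · exact_mod_cast (by linarith :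
        (0 : ℤ) < 1 * (z p).1 + (1 * (z (p + 1)).1 + (-1) * (z (p + 2)).1))
    · exact_mod_cast (by linarith :
        (0 : ℤ) < 1 * (z p).1 + (0 * (z (p + 1)).1 + 0 * (z (p + 2)).1))
    · exact_mod_cast (by linarith :
        (0 : ℤ) < (-1) * (z p).1 + (1 * (z (p + 1)).1 + 0 * (z (p + 2)).1))
    · exact_mod_cast (by linarith :
        (0 : ℤ) < 0 * (z p).1 + ((-1) * (z (p + 1)).1 + 1 * (z (p + 2)).1))

end Pool.Agent.Work.MP_7453a1_an
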