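import Pool.Agent.Work.MP_7453a1_an.Oct

set_option autoImplicit false

/-!
Soundness of the checker (helper21).
-/

namespace Pool.Agent.Work.MP_7453a1_an

open Pool.Agent.Work.MP_7453a1_nt_norm Pool.Agent.Work.MP_7453a1_nt_h45

lemma cut_left {u v M p q g a b : ℝ} (hq : 0 < q) (h : p * u + q * v = g * M) :
    a * u + b * v = (a - b * p / q) * u + (b * g / q) * M := by
  have h1 : (b * g / q) * M = b / q * (g * M) := by ring
  rw [h1, ← h]
  field_simp
  ring

lemma cut_right {u v M p q g a b : ℝ} (hp : 0 < p) (h : p * u + q * v = g * M) :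
    a * u + b * v = (a * g / p) * M + (b - a * q / p) * v := by
  have h1 : (a * g / p) * M = a / p * (g * M) := by ring
  rw [h1, ← h]
  field_simp
  ring

lemma cut_coords {u v M : V3} {p q g : ℕ} (h : (p : ℤ) • u + (q : ℤ) • v = (g : ℤ) • M) :
    (p : ℝ) * u.1 + q * v.1 = g * M.1 ∧ (p : ℝ) * u.2.1 + q * v.2.1 = g * M.2.1 ∧
      (p : ℝ) * u.2.2 + q * v.2.2 = g * M.2.2 := by
  have h1 := congrArg Prod.fst h
  have h2 := congrArg (fun x => x.2.1) h
  have h3 := congrArg (fun x => x.2.2) h
  simp only [Prod.fst_add, Prod.snd_add, Prod.smul_fst, Prod.smul_snd, smul_eq_mul] at h1 h2 h3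
  exact ⟨by exact_mod_cast h1, by exact_mod_cast h2, by exact_mod_cast h3⟩

lemma cut_sign {p q g a b : ℝ} (hp : 0 < p) (hq : 0 < q) (hg : 0 < g) (ha : 0 ≤ a) (hb : 0 ≤ b) :
    (0 ≤ a - b * p / q ∧ 0 ≤ b * g / q) ∨ (0 ≤ a * g / p ∧ 0 ≤ b - a * q / p) := by
  rcases le_total (b * p) (a * q) with h | h
  · left
    refine ⟨?_, by positivity⟩
    rw [sub_nonneg, div_le_iff₀ hq]
    exact h
  · right
    refine ⟨by positivity, ?_⟩
    rw [sub_nonneg, div_le_iff₀ hp]
    exact h

lemma cut_sound {w w1 w2 : Cell} {t p q g : ℕ} {M : V3} (h : cut w t p q g M = some (w1, w2))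
    {y : ℝ × ℝ × ℝ} (hy : InC w y) : InC w1 y ∨ InC w2 y := by
  unfold cut at h
  split at h
  · next hpos =>
    obtain ⟨hp, hq, hg⟩ := hpos
    have hp : (0 : ℝ) < p := by exact_mod_cast hp
    have hq : (0 : ℝ) < q := by exact_mod_cast hq
    have hg : (0 : ℝ) < g := by exact_mod_cast hg
    obtain ⟨a, b, d, ha, hb, hd, e1, e2, e3⟩ := hy
    split at h
    · split_ifs at h with hM
      simp only [Option.some.injEq, Prod.mk.injEq] at h
      obtain ⟨rfl, rfl⟩ := h
      obtain ⟨g1, g2, g3⟩ := cut_coords hM
      rcases cut_sign hp hq hg ha hb with ⟨s1, s2⟩ | ⟨s1, s2⟩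
      · left
        refine ⟨a - b * p / q, b * g / q, d, s1, s2, hd, ?_, ?_, ?_⟩
        · rw [e1, cut_left hq g1]
        · rw [e2, cut_left hq g2]
        · rw [e3, cut_left hq g3]
      · right
        refine ⟨a * g / p, b - a * q / p, d, s1, s2, hd, ?_, ?_, ?_⟩
        · rw [e1, cut_right hp g1]
        · rw [e2, cut_right hp g2]
        · rw [e3, cut_right hp g3]
    · split_ifs at h with hM
      simp only [Option.some.injEq, Prod.mk.injEq] at h
      obtain ⟨rfl, rfl⟩ := h
      obtain ⟨g1, g2, g3⟩ := cut_coords hM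
      rcases cut_sign hp hq hg ha hd with ⟨s1, s2⟩ | ⟨s1, s2⟩
      · left
        refine ⟨a - d * p / q, b, d * g / q, s1, hb, s2, ?_, ?_, ?_⟩
        · have := cut_left (a := a) (b := d) hq g1
          rw [e1]; linarith
        · have := cut_left (a := a) (b := d) hq g2
          rw [e2]; linarith
        · have := cut_left (a := a) (b := d) hq g3
          rw [e3]; linarith
      · right
        refine ⟨a * g / p, b, d - a * q / p, s1, hb, s2, ?_, ?_, ?_⟩
        · have := cut_right (a := a) (b := d) hp g1
          rw [e1]; linarith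
        · have := cut_right (a := a) (b := d) hp g2
          rw [e2]; linarith
        · have := cut_right (a := a) (b := d) hp g3
          rw [e3]; linarith
    · split_ifs at h with hM
      simp only [Option.some.injEq, Prod.mk.injEq] at h
      obtain ⟨rfl, rfl⟩ := h
      obtain ⟨g1, g2, g3⟩ := cut_coords hM
      rcases cut_sign hp hq hg hb hd with ⟨s1, s2⟩ | ⟨s1, s2⟩
      · left
        refine ⟨a, b - d * p / q, d * g / q, ha, s1, s2, ?_, ?_, ?_⟩
        · have := cut_left (a := b) (b := d) hq g1
          rw [e1]; linarith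
        · have := cut_left (a := b) (b := d) hq g2
          rw [e2]; linarith
        · have := cut_left (a := b) (b := d) hq g3
          rw [e3]; linarith
      · right
        refine ⟨a, b * g / p, d - b * q / p, ha, s1, s2, ?_, ?_, ?_⟩
        · have := cut_right (a := b) (b := d) hp g1
          rw [e1]; linarith
        · have := cut_right (a := b) (b := d) hp g2
          rw [e2]; linarith
        · have := cut_right (a := b) (b := d) hp g3
          rw [e3]; linarith
  · simp at h

section
variable {m : ℕ} {G : V3} {W QC : List V3} {N : Seminorm ℝ V} {e : V × V × V}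
  {q : ℝ × ℝ × ℝ} {L : ℕ → ℝ}

lemma npos_sound {w : Cell} (hw : InC w q) {h : V3} (hn : npos h w = true) : lin h q ≤ 0 := by
  obtain ⟨a, b, d, ha, hb, hd, e1, e2, e3⟩ := hw
  rw [lin_cone e1 e2 e3]
  unfold npos at hn
  simp only [Bool.and_eq_true, decide_eq_true_eq] at hn
  obtain ⟨⟨g1, g2⟩, g3⟩ := hn
  have g1 : ((dot3 h w.1 : ℤ) : ℝ) ≤ 0 := by exact_mod_cast g1
  have g2 : ((dot3 h w.2.1 : ℤ) : ℝ) ≤ 0 := by exact_mod_cast g2
  have g3 : ((dot3 h w.2.2 : ℤ) : ℝ) ≤ 0 := by exact_mod_cast g3
  have t1 := mul_nonpos_of_nonneg_of_nonpos ha g1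
  have t2 := mul_nonpos_of_nonneg_of_nonpos hb g2
  have t3 := mul_nonpos_of_nonneg_of_nonpos hd g3
  linarith

theorem chk_sound (hG : Geo m G W QC N e q L) (n : ℕ) : ∀ (c : ℕ) (w x : Cell) {c' : ℕ},
    chk m G W QC n c w x = some c' → InC w q → InC x (xi e) → False := by
  induction n with
  | zero => intro c w x c' h; simp [chk] at h
  | succ n ih =>
    intro c w x c' h hw hx
    simp only [chk, rd1_eq, rd3_eq] at h
    split at h
    · split at h
      · next f hf =>
        split at h
        · next hn =>
          exact absurd (hG.qc f (List.mem_of_getElem? hf)) (not_lt.mpr (npos_sound hw hn))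
        · simp at h
      · simp at h
    · exact leaf_sound hG hw hx h
    · split at h
      · split at h
        · next w1 w2 hc =>
          split at h
          · next c1 h1 =>
            rcases cut_sound hc hw with g | g
            · exact ih _ _ _ h1 g hx
            · exact ih _ _ _ h g hx
          · simp at h
        · simp at h
      · split at h
        · next x1 x2 hc =>
          split at h
          · next c1 h1 =>
            rcases cut_sound hc hx with g | g
            · exact ih _ _ _ h1 hw g
            · exact ih _ _ _ h hw g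
          · simp at h
        · simp at h

lemma root_sound (hG : Geo m G W QC N e q L) : InC root q := by
  have h0 := hG.q0
  have h1 := hG.q1
  have h2 := hG.q2
  have h3 := hG.qs
  refine ⟨q.2.1 - q.1, q.1 + q.2.1 - q.2.2, q.2.2 - q.2.1, by linarith, by linarith,
    by linarith, ?_, ?_, ?_⟩
  · simp only [root]; push_cast; ring
  · simp only [root]; push_cast; ring
  · simp only [root]; push_cast; ring

lemma chks_sound {l : List Cell} : ∀ {c : ℕ}, chks m G W QC l c = true →
    ∀ x ∈ l, ∃ c1 c2, chk m G W QC 200 c1 root x = some c2 := by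
  induction l with
  | nil => intro c _ x hx; simp at hx
  | cons y l ih =>
    intro c h x hx
    simp only [chks] at h
    split at h
    · next c1 h1 =>
      rcases List.mem_cons.mp hx with rfl | hx
      · exact ⟨c, c1, h1⟩
      · exact ih h x hx
    · simp at h

end

theorem SOUND : Stmt_SOUND := by
  intro m G W QC c _ hc N e q L hG
  obtain ⟨N', e', hG', x, hx, hxe⟩ := exists_oct hG
  obtain ⟨c1, c2, h⟩ := chks_sound hc x hx
  exact chk_sound hG' 200 _ _ _ h (root_sound hG') hxe

/-- The block under the name of the table. -/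
theorem sound : Stmt_SOUND := SOUND

end Pool.Agent.Work.MP_7453a1_an

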