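import Pool.Agent.Work.MP_7453a1_an.Slice
import Pool.Agent.Work.MP_7453a1_an.Sound

set_option autoImplicit false

/-!
Block CASM: the two classifications from the certificates of the candidates (helper70).
-/

namespace Pool.Agent.Work.MP_7453a1_an

open Pool.Agent.Work.MP_7453a1_nt_norm Pool.Agent.Work.MP_7453a1_nt_h45
open Pool.Agent.Work.MP_7453a1_nt_sym (IsFrame2)

lemma slice_mem {f g : V3 → List V3} {T : List V3} : ∀ {ys : List V3} {l : List ℕ},
    slice f g T ys l = true →
      ∀ y ∈ ys, skip T (g y) y = true ∨ ∃ c, wcheck 1 0 (f y) (g y) c = true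
  | [], _, _, y, hy => by simp at hy
  | x :: ys, l, h, y, hy => by
    unfold slice at h
    split at h
    · next hs =>
      rcases List.mem_cons.1 hy with rfl | hy
      · exact Or.inl hs
      · exact slice_mem h y hy
    · next hs =>
      split at h
      · exact absurd h (by simp)
      · next c l' =>
        rw [Bool.and_eq_true] at h
        rcases List.mem_cons.1 hy with rfl | hy
        · exact Or.inr ⟨c, h.1⟩
        · exact slice_mem h.2 y hy

lemma row_mem {v : V3} {b c : ℕ} (hb : |v.2.1| ≤ b) (hc : |v.2.2| ≤ c) : v ∈ row v.1 b c := by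
  rw [abs_le] at hb hc
  have e1 : (v.2.1 + b).toNat < 2 * b + 1 := by omega
  have e2 : (v.2.2 + c).toNat < 2 * c + 1 := by omega
  have e3 : (((v.2.1 + b).toNat : ℕ) : ℤ) = v.2.1 + b := by omega
  have e4 : (((v.2.2 + c).toNat : ℕ) : ℤ) = v.2.2 + c := by omega
  unfold row
  simp only [List.mem_flatMap, List.mem_map, List.bind_eq_flatMap, List.pure_def, List.mem_range,
    List.mem_singleton]
  refine ⟨_, ⟨_, e1, rfl⟩, _, ⟨_, e2, rfl⟩, ?_⟩
  rw [e3, e4]
  refine Prod.ext rfl (Prod.ext ?_ ?_)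
  · show v.2.1 + b - b = v.2.1
    omega
  · show v.2.2 + c - c = v.2.2
    omega

lemma cb_den (v : V3) (a b c : Pt 2) :
    (((cb v a b c).1 : ℤ) : ℝ) = lin v ((a.1 : ℝ), (b.1 : ℝ), (c.1 : ℝ)) := by
  unfold cb lin
  simp only [Prod.fst_add, Prod.smul_fst, smul_eq_mul]
  push_cast
  ring

lemma cases_lin_smul (t : ℤ) (v : V3) (q : ℝ × ℝ × ℝ) : lin (t • v) q = t * lin v q := by
  unfold lin
  simp only [Prod.smul_fst, Prod.smul_snd, smul_eq_mul]
  push_cast
  ring

/-- A vector that is not primitive is a multiple. -/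
lemma not_prim {y : V3} (hy : y ≠ 0)
    (hg : ¬ Nat.gcd y.1.natAbs (Nat.gcd y.2.1.natAbs y.2.2.natAbs) = 1) :
    ∃ (g : ℕ) (w : V3), 2 ≤ g ∧ w ≠ 0 ∧ y = (g : ℤ) • w := by
  set g := Nat.gcd y.1.natAbs (Nat.gcd y.2.1.natAbs y.2.2.natAbs) with hgd
  have d1 : (g : ℤ) ∣ y.1 := Int.natCast_dvd.2 (Nat.gcd_dvd_left _ _)
  have d2 : (g : ℤ) ∣ y.2.1 := Int.natCast_dvd.2
    ((Nat.gcd_dvd_right _ _).trans (Nat.gcd_dvd_left _ _))
  have d3 : (g : ℤ) ∣ y.2.2 := Int.natCast_dvd.2
    ((Nat.gcd_dvd_right _ _).trans (Nat.gcd_dvd_right _ _))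
  obtain ⟨w1, e1⟩ := d1
  obtain ⟨w2, e2⟩ := d2
  obtain ⟨w3, e3⟩ := d3
  have e : y = (g : ℤ) • ((w1, w2, w3) : V3) :=
    Prod.ext e1 (Prod.ext e2 e3)
  have hg0 : g ≠ 0 := by
    intro h0
    apply hy
    rw [e, h0]
    simp
  refine ⟨g, (w1, w2, w3), by omega, ?_, e⟩
  intro h0
  apply hy
  rw [e, h0, smul_zero]

/-- The candidates that are excluded at once. -/
lemma skip_sound {W Q T : List V3} {N : Seminorm ℝ V} {e : V × V × V} {q : ℝ × ℝ × ℝ}
    {L : ℕ → ℝ} (hG : Geo 1 0 W Q N e q L) {j : ℕ} {y : V3} (hj : W[j + 1]? = some y)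
    (hy : 0 < lin y q) (h : skip T Q y = true) : y ∈ T := by
  unfold skip at h
  rw [Bool.or_eq_true, Bool.or_eq_true] at h
  rcases h with (h | h) | h
  · simpa using h
  · exfalso
    have hy0 : y ≠ 0 := by
      rintro rfl
      simp [lin] at hy
    have hg : ¬ Nat.gcd y.1.natAbs (Nat.gcd y.2.1.natAbs y.2.2.natAbs) = 1 := by
      intro h1
      rw [h1] at h
      simp at h
    obtain ⟨g, w, h2, hw, e1⟩ := not_prim hy0 hg
    have hg2 : (2 : ℝ) ≤ (g : ℝ) := by exact_mod_cast h2
    have l1 : lin y q = (g : ℝ) * lin w q := by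
      rw [e1, cases_lin_smul]
      push_cast
      ring
    have lw : 0 < lin w q := by
      rw [l1] at hy
      exact pos_of_mul_pos_right hy (by positivity)
    have n1 : N (vec e y) = (g : ℝ) * N (vec e w) := by
      rw [e1, vec_smul, map_smul_eq_mul]
      simp
    have k1 : ∀ t : ℤ, t ≠ 0 → t • w ≠ 0 := fun t ht => smul_ne_zero ht hw
    have h3 := hG.leg j 1 y w hj (by simp [mb]) hw (by
        intro h4
        rw [e1] at h4
        have h5 : ((g : ℤ) - 1) • w = 0 := by
          rw [sub_smul, one_smul]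
          rw [Nat.cast_one, one_smul] at h4
          rw [← h4, sub_self]
        exact k1 _ (by omega) h5) (by
        intro h4
        rw [e1] at h4
        have h5 : ((g : ℤ) + 1) • w = 0 := by
          rw [add_smul, one_smul]
          rw [Nat.cast_one, one_smul] at h4
          nth_rewrite 2 [h4]
          rw [add_neg_cancel]
        exact k1 _ (by omega) h5) (by
        rw [abs_of_pos lw, l1]
        push_cast
        nlinarith)
    have h4 := hG.lev (j + 1) y hj
    have h5 := hG.dec j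
    have h6 := hG.pos j
    rw [n1] at h4
    push_cast at h3
    nlinarith
  · exfalso
    rw [List.any_eq_true] at h
    obtain ⟨f, hf, hn⟩ := h
    exact absurd (hG.qc f hf) (not_lt.mpr (npos_sound (root_sound hG) hn))

theorem C1 (hB : Stmt_BAS) (hC : Stmt_CRAMER) (h1 : Stmt_BOX1) (hb : Stmt_BUILD1)
    (hs : Stmt_SOUND) (hS : ∀ a : ℤ, |a| ≤ 8 → ∃ l : List ℕ, S1 a l = true) : Stmt_C1 := by
  intro N Θ z hz p hsl hlt
  have hD := hB N Θ z hz p hsl
  obtain ⟨v, hv⟩ := hC (z p) (z (p + 1)) (z (p + 2)) hD (z (p + 3))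
  obtain ⟨b1, b2, b3⟩ := h1 N Θ z hz p hsl hD hlt v hv
  obtain ⟨l, hl⟩ := hS v.1 b1
  have hm := slice_mem hl v (row_mem (by exact_mod_cast b2) (by exact_mod_cast b3))
  have hD0 : D3 (z p) (z (p + 1)) (z (p + 2)) ≠ 0 := by
    intro h0
    rw [h0] at hD
    simp at hD
  have hv1 := cb_den v (z p) (z (p + 1)) (z (p + 2))
  rw [← hv] at hv1
  have m0 : (0 : ℝ) < ((z p).1 : ℝ) := by exact_mod_cast hz.pos p
  have m1 : ((z p).1 : ℝ) < ((z (p + 1)).1 : ℝ) := by exact_mod_cast hz.mono p (p + 1) (by omega)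
  have m2 : ((z (p + 1)).1 : ℝ) < ((z (p + 2)).1 : ℝ) := by
    exact_mod_cast hz.mono (p + 1) (p + 2) (by omega)
  have m3 : ((z (p + 2)).1 : ℝ) < ((z (p + 3)).1 : ℝ) := by
    exact_mod_cast hz.mono (p + 2) (p + 3) (by omega)
  have m4 : ((z (p + 2)).1 : ℝ) < ((z p).1 : ℝ) + ((z (p + 1)).1 : ℝ) := by
    unfold Slow at hsl
    exact_mod_cast hsl
  have m5 : ((z (p + 3)).1 : ℝ) < ((z p).1 : ℝ) + ((z (p + 1)).1 : ℝ) + ((z (p + 2)).1 : ℝ) := by
    exact_mod_cast hlt
  have hG := hb N Θ z hz p hsl hD0 (f1 v) (g1 v) (by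
      intro j a ha
      match j, ha with
      | 0, ha =>
        simp only [f1, List.getElem?_cons_zero, Option.some.injEq] at ha
        subst ha
        simp [cb]
      | 1, ha =>
        simp only [f1, List.getElem?_cons_succ, List.getElem?_cons_zero, Option.some.injEq] at ha
        subst ha
        simp [cb]
      | 2, ha =>
        simp only [f1, List.getElem?_cons_succ, List.getElem?_cons_zero, Option.some.injEq] at ha
        subst ha
        simp [cb]
      | 3, ha =>
        simp only [f1, List.getElem?_cons_succ, List.getElem?_cons_zero, Option.some.injEq] at ha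
        subst ha
        exact hv
      | j + 4, ha =>
        simp [f1] at ha) (by
      intro h hh
      simp only [g1, List.mem_cons, List.not_mem_nil, or_false] at hh
      unfold lin at hv1
      rcases hh with rfl | rfl | rfl | rfl | rfl | rfl
      all_goals
        simp only [lin, Prod.fst_add, Prod.snd_add, Prod.fst_neg, Prod.snd_neg] at hv1 ⊢
        push_cast
        linarith)
  rcases hm with hm | ⟨c, hc⟩
  · refine ⟨v, skip_sound hG (j := 2) rfl ?_ hm, hv⟩
    rw [← hv1]
    linarith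
  · exact absurd hG (hs 1 0 _ _ c one_pos hc _ _ _ _)

theorem C2 (hB : Stmt_BAS) (hC : Stmt_CRAMER) (h2 : Stmt_BOX2) (hb : Stmt_BUILD1)
    (hs : Stmt_SOUND) (hS : ∀ a : ℤ, |a| ≤ 6 → ∃ l : List ℕ, S2 a l = true) : Stmt_C2 := by
  intro N Θ z hz p hsl hI hlt
  have hD := hB N Θ z hz p hsl
  obtain ⟨v, hv⟩ := hC (z p) (z (p + 1)) (z (p + 2)) hD (z (p + 4))
  have hI' : z (p + 3) = z (p + 1) + z (p + 2) := by
    have h3 : z (p + 3) = cb (0, 1, 1) (z p) (z (p + 1)) (z (p + 2)) := hI
    rw [h3]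
    simp [cb]
  obtain ⟨b1, b2, b3⟩ := h2 N Θ z hz p hsl hD hI' hlt v hv
  obtain ⟨l, hl⟩ := hS v.1 b1
  have hm := slice_mem hl v (row_mem (by exact_mod_cast b2) (by exact_mod_cast b3))
  have hD0 : D3 (z p) (z (p + 1)) (z (p + 2)) ≠ 0 := by
    intro h0
    rw [h0] at hD
    simp at hD
  have hv1 := cb_den v (z p) (z (p + 1)) (z (p + 2))
  rw [← hv] at hv1
  have m0 : (0 : ℝ) < ((z p).1 : ℝ) := by exact_mod_cast hz.pos p
  have m1 : ((z p).1 : ℝ) < ((z (p + 1)).1 : ℝ) := by exact_mod_cast hz.mono p (p + 1) (by omega)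
  have m2 : ((z (p + 1)).1 : ℝ) < ((z (p + 2)).1 : ℝ) := by
    exact_mod_cast hz.mono (p + 1) (p + 2) (by omega)
  have m3 : ((z (p + 1)).1 : ℝ) + ((z (p + 2)).1 : ℝ) < ((z (p + 4)).1 : ℝ) := by
    have h4 := hz.mono (p + 3) (p + 4) (by omega)
    rw [hI', Prod.fst_add] at h4
    exact_mod_cast h4
  have m4 : ((z (p + 2)).1 : ℝ) < ((z p).1 : ℝ) + ((z (p + 1)).1 : ℝ) := by
    unfold Slow at hsl
    exact_mod_cast hsl
  have m5 : ((z (p + 4)).1 : ℝ) < ((z (p + 1)).1 : ℝ) + 2 * ((z (p + 2)).1 : ℝ) := by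
    exact_mod_cast hlt
  have hG := hb N Θ z hz p hsl hD0 (f2 v) (g2 v) (by
      intro j a ha
      match j, ha with
      | 0, ha =>
        simp only [f2, List.getElem?_cons_zero, Option.some.injEq] at ha
        subst ha
        simp [cb]
      | 1, ha =>
        simp only [f2, List.getElem?_cons_succ, List.getElem?_cons_zero, Option.some.injEq] at ha
        subst ha
        simp [cb]
      | 2, ha =>
        simp only [f2, List.getElem?_cons_succ, List.getElem?_cons_zero, Option.some.injEq] at ha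
        subst ha
        simp [cb]
      | 3, ha =>
        simp only [f2, List.getElem?_cons_succ, List.getElem?_cons_zero, Option.some.injEq] at ha
        subst ha
        exact hI
      | 4, ha =>
        simp only [f2, List.getElem?_cons_succ, List.getElem?_cons_zero, Option.some.injEq] at ha
        subst ha
        exact hv
      | j + 5, ha =>
        simp [f2] at ha) (by
      intro h hh
      simp only [g2, List.mem_cons, List.not_mem_nil, or_false] at hh
      unfold lin at hv1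
      rcases hh with rfl | rfl | rfl | rfl | rfl | rfl
      all_goals
        simp only [lin, Prod.fst_add, Prod.snd_add, Prod.fst_neg, Prod.snd_neg] at hv1 ⊢
        push_cast
        linarith)
  rcases hm with hm | ⟨c, hc⟩
  · refine ⟨v, skip_sound hG (j := 3) rfl ?_ hm, hv⟩
    rw [← hv1]
    linarith
  · exact absurd hG (hs 1 0 _ _ c one_pos hc _ _ _ _)

end Pool.Agent.Work.MP_7453a1_an
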