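import Pool.Agent.Work.MP_7453a1_an.CertA1
import Pool.Agent.Work.MP_7453a1_an.CertA2
import Pool.Agent.Work.MP_7453a1_an.CertA3
import Pool.Agent.Work.MP_7453a1_an.CertA4
import Pool.Agent.Work.MP_7453a1_an.CertA5

set_option autoImplicit false

/-! All certificates of classification 1. -/

namespace Pool.Agent.Work.MP_7453a1_an

theorem slices1 : ∀ a : ℤ, |a| ≤ 8 → ∃ l, S1 a l = true := by
  intro a ha
  rw [abs_le] at ha
  obtain ⟨h1, h2⟩ := ha
  interval_cases a
  · exact s1_n8
  · exact s1_n7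
  · exact s1_n6
  · exact s1_n5
  · exact s1_n4
  · exact s1_n3
  · exact s1_n2
  · exact s1_n1
  · exact s1_p0
  · exact s1_p1
  · exact s1_p2
  · exact s1_p3
  · exact s1_p4
  · exact s1_p5
  · exact s1_p6
  · exact s1_p7
  · exact s1_p8

end Pool.Agent.Work.MP_7453a1_an
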