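import Pool.Agent.Work.MP_7453a1_an.CertB1
import Pool.Agent.Work.MP_7453a1_an.CertB2
import Pool.Agent.Work.MP_7453a1_an.CertB3
import Pool.Agent.Work.MP_7453a1_an.CertB4

set_option autoImplicit false

/-! All certificates of classification 2. -/

namespace Pool.Agent.Work.MP_7453a1_an

theorem slices2 : ∀ a : ℤ, |a| ≤ 6 → ∃ l, S2 a l = true := by
  intro a ha
  rw [abs_le] at ha
  obtain ⟨h1, h2⟩ := ha
  interval_cases a
  · exact s2_n6
  · exact s2_n5
  · exact s2_n4
  · exact s2_n3
  · exact s2_n2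
  · exact s2_n1
  · exact s2_p0
  · exact s2_p1
  · exact s2_p2
  · exact s2_p3
  · exact s2_p4
  · exact s2_p5
  · exact s2_p6

end Pool.Agent.Work.MP_7453a1_an
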