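import Pool.Agent.Work.MP_7453a1_an.CertW1
import Pool.Agent.Work.MP_7453a1_an.CertW2
import Pool.Agent.Work.MP_7453a1_an.CertW3

set_option autoImplicit false

/-! All certificates of the words. -/

namespace Pool.Agent.Work.MP_7453a1_an

theorem forb_eq : forb = wl1.map Prod.fst ++ (wl2.map Prod.fst ++ (wl3.map Prod.fst ++ (wl4.map Prod.fst ++ (wl5.map Prod.fst ++ (wl6.map Prod.fst ++ (wl7.map Prod.fst ++ (wl8.map Prod.fst ++ (wl9.map Prod.fst ++ (wl10.map Prod.fst ++ (wl11.map Prod.fst ++ (wl12.map Prod.fst ++ (wl13.map Prod.fst)))))))))))) := by rfl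

/-- Every word of the list passes the check. -/
theorem words_chk : ∀ w ∈ forb, ∃ c, wchk w c = true := by
  intro w hw
  rw [forb_eq] at hw
  simp only [List.mem_append, List.mem_map] at hw
  rcases hw with ⟨x, hx, rfl⟩ | ⟨x, hx, rfl⟩ | ⟨x, hx, rfl⟩ | ⟨x, hx, rfl⟩ | ⟨x, hx, rfl⟩ | ⟨x, hx, rfl⟩ | ⟨x, hx, rfl⟩ | ⟨x, hx, rfl⟩ | ⟨x, hx, rfl⟩ | ⟨x, hx, rfl⟩ | ⟨x, hx, rfl⟩ | ⟨x, hx, rfl⟩ | ⟨x, hx, rfl⟩
  · exact ⟨x.2, List.all_eq_true.mp wl1_chk x hx⟩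
  · exact ⟨x.2, List.all_eq_true.mp wl2_chk x hx⟩
  · exact ⟨x.2, List.all_eq_true.mp wl3_chk x hx⟩
  · exact ⟨x.2, List.all_eq_true.mp wl4_chk x hx⟩
  · exact ⟨x.2, List.all_eq_true.mp wl5_chk x hx⟩
  · exact ⟨x.2, List.all_eq_true.mp wl6_chk x hx⟩
  · exact ⟨x.2, List.all_eq_true.mp wl7_chk x hx⟩
  · exact ⟨x.2, List.all_eq_true.mp wl8_chk x hx⟩
  · exact ⟨x.2, List.all_eq_true.mp wl9_chk x hx⟩
  · exact ⟨x.2, List.all_eq_true.mp wl10_chk x hx⟩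
  · exact ⟨x.2, List.all_eq_true.mp wl11_chk x hx⟩
  · exact ⟨x.2, List.all_eq_true.mp wl12_chk x hx⟩
  · exact ⟨x.2, List.all_eq_true.mp wl13_chk x hx⟩

end Pool.Agent.Work.MP_7453a1_an
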