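import Pool.Agent.Work.MP_7453a1_an.Interface

set_option autoImplicit false

/-!
The checker: branch and bound over the cone of the denominators and the cone of the determinants.
-/

namespace Pool.Agent.Work.MP_7453a1_an

/-- A simplicial cone, by its three vertices. -/
abbrev Cell : Type := V3 × V3 × V3

/-- Read a natural number: eight bits of length, then the number. -/
def rdv (c : ℕ) : ℕ := c / 256 % 2 ^ (c % 256)

/-- The rest of the code. -/
def rdr (c : ℕ) : ℕ := c / 256 / 2 ^ (c % 256)

/-- Signed number. -/
def sg (n : ℕ) : ℤ := cond (Nat.beq (n % 2) 0) (Int.ofNat (n / 2)) (Int.negSucc (n / 2))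

/-- Forced evaluation of a natural number. -/
def frc {α : Type} (n : ℕ) (f : ℕ → α) : α :=
  match n with
  | 0 => f 0
  | n + 1 => f (n + 1)

/-- Read one number. -/
def rd1 {α : Type} (c : ℕ) (f : ℕ → ℕ → α) : α := frc (rdr c) fun c' => frc (rdv c) fun v => f c' v

/-- Read a vector. -/
def rd3 {α : Type} (c : ℕ) (f : ℕ → V3 → α) : α :=
  rd1 c fun c a => rd1 c fun c b => rd1 c fun c d => f c (sg a, sg b, sg d)

/-- Add to an entry. -/
def addAt : List ℤ → ℕ → ℤ → List ℤ
  | [], 0, x => [x]
  | [], i + 1, x => 0 :: addAt [] i x
  | a :: l, 0, x => (a + x) :: l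
  | a :: l, i + 1, x => a :: addAt l i x

/-- The coefficient vectors at the three vertices. -/
abbrev Acc : Type := List ℤ × List ℤ × List ℤ

/-- All partial sums are nonpositive and one of them is negative. -/
def negs : List ℤ → ℤ → Bool → Bool
  | [], _, b => b
  | a :: l, s, b => decide (s + a ≤ 0) && negs l (s + a) (b || decide (s + a < 0))

/-- The form is nonpositive at the three vertices. -/
def npos (h : V3) (w : Cell) : Bool :=
  decide (dot3 h w.1 ≤ 0) && decide (dot3 h w.2.1 ≤ 0) && decide (dot3 h w.2.2 ≤ 0)

/-- The form has one sign at the three vertices. -/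
def osgn (h : V3) (w : Cell) : Bool :=
  (decide (dot3 h w.1 ≤ 0) && decide (dot3 h w.2.1 ≤ 0) && decide (dot3 h w.2.2 ≤ 0)) ||
    (decide (0 ≤ dot3 h w.1) && decide (0 ≤ dot3 h w.2.1) && decide (0 ≤ dot3 h w.2.2))

/-- `|P| ≤ mu * b` at the three vertices. -/
def dom (mu : ℕ) (P b : V3) (w : Cell) : Bool :=
  decide ((dot3 P w.1).natAbs ≤ mu * dot3 b w.1) &&
    decide ((dot3 P w.2.1).natAbs ≤ mu * dot3 b w.2.1) &&
    decide ((dot3 P w.2.2).natAbs ≤ mu * dot3 b w.2.2)

/-- The inequality `mu * L j ≤ N P` holds on the cell. -/
def legal (m : ℕ) (G : V3) (W : List V3) (w : Cell) (mu : ℕ) (P : V3) (j : ℕ) : Bool :=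
  match W[j + 1]? with
  | some b => mb m G mu P && decide (P ≠ 0) && decide (P ≠ (mu : ℤ) • b) &&
      decide (P ≠ -((mu : ℤ) • b)) && dom mu P b w
  | none => false

/-- The contribution of a column at one vertex. -/
def cvert (l : List ℤ) (k mu a b j : ℕ) (A B P x : V3) : List ℤ :=
  addAt (addAt (addAt l a (k * (dot3 (cr P B) x).natAbs : ℕ)) b (k * (dot3 (cr A P) x).natAbs : ℕ))
    j (-((k * mu * (dot3 (cr A B) x).natAbs : ℕ) : ℤ))

/-- A planar column: `k * |[a, b]| * mu * L j ≤ k * (|[P, b]| * L a + |[a, P]| * L b)`. -/
def planar (x : Cell) (k mu a b j : ℕ) (A B P : V3) (acc : Acc) : Option Acc :=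
  if osgn (cr A B) x = true then
    some (cvert acc.1 k mu a b j A B P x.1, cvert acc.2.1 k mu a b j A B P x.2.1,
      cvert acc.2.2 k mu a b j A B P x.2.2)
  else none

/-- The terms of a representation. -/
def terms (W : List V3) : ℕ → ℕ → V3 → List ℤ → ℕ → Option (ℕ × V3 × List ℤ)
  | 0, c, s, l, _ => some (c, s, l)
  | n + 1, c, s, l, k =>
    rd1 c fun c i => rd1 c fun c t =>
      match W[i]? with
      | some a => terms W n c (s + sg t • a) (addAt l i (k * (sg t).natAbs : ℕ)) k
      | none => none

/-- Read a column. -/
def col (m : ℕ) (G : V3) (W : List V3) (w x : Cell) (c : ℕ) (acc : Acc) : Option (ℕ × Acc) :=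
  rd1 c fun c t => rd1 c fun c k => rd1 c fun c j =>
    match t with
    | 0 => rd1 c fun c a => rd1 c fun c b => rd1 c fun c u => rd3 c fun c P =>
      match W[a]?, W[b]? with
      | some A, some B =>
        let mu := if u = 0 then 1 else m
        if legal m G W w mu P j = true then (planar x k mu a b j A B P acc).map fun r => (c, r)
        else none
      | _, _ => none
    | 1 => rd1 c fun c a => rd1 c fun c b =>
      match W[a]?, W[b]?, W[j]? with
      | some A, some B, some P => (planar x k 1 a b j A B P acc).map fun r => (c, r)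
      | _, _, _ => none
    | v + 2 => rd1 c fun c u => rd1 c fun c g => rd3 c fun c P => rd1 c fun c n =>
      let mu := if u = 0 then 1 else m
      if legal m G W w mu P j = true then
        let l := match v with
          | 0 => acc.1
          | 1 => acc.2.1
          | _ => acc.2.2
        match terms W n c 0 (addAt l j (-((k * g * mu : ℕ) : ℤ))) k with
        | some (c, s, l) =>
          if s = (g : ℤ) • P then
            some (c, match v with
              | 0 => (l, acc.2.1, acc.2.2)
              | 1 => (acc.1, l, acc.2.2)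
              | _ => (acc.1, acc.2.1, l))
          else none
        | none => none
      else none

/-- Read the columns of a leaf. -/
def cols (m : ℕ) (G : V3) (W : List V3) (w x : Cell) : ℕ → ℕ → Acc → Option ℕ
  | 0, c, acc =>
    if (negs acc.1 0 false && negs acc.2.1 0 false && negs acc.2.2 0 false) = true then some c
    else none
  | n + 1, c, acc =>
    match col m G W w x c acc with
    | some (c, acc) => cols m G W w x n c acc
    | none => none

/-- The two halves of a cell. -/
def cut (w : Cell) (t : ℕ) (p q g : ℕ) (M : V3) : Option (Cell × Cell) :=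
  if 0 < p ∧ 0 < q ∧ 0 < g then
    match t with
    | 0 => if (p : ℤ) • w.1 + (q : ℤ) • w.2.1 = (g : ℤ) • M then
        some ((w.1, M, w.2.2), (M, w.2.1, w.2.2)) else none
    | 1 => if (p : ℤ) • w.1 + (q : ℤ) • w.2.2 = (g : ℤ) • M then
        some ((w.1, w.2.1, M), (M, w.2.1, w.2.2)) else none
    | _ => if (p : ℤ) • w.2.1 + (q : ℤ) • w.2.2 = (g : ℤ) • M then
        some ((w.1, w.2.1, M), (w.1, M, w.2.2)) else none
  else none

/-- The checker for a pair of cells: tags 0 contradiction in `QC`, 1 leaf, 2 3 4 cut the cell of
denominators, 5 6 7 cut the cell of determinants. -/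
def chk (m : ℕ) (G : V3) (W QC : List V3) : ℕ → ℕ → Cell → Cell → Option ℕ
  | 0, _, _, _ => none
  | n + 1, c, w, x =>
    rd1 c fun c t =>
      match t with
      | 0 => rd1 c fun c k =>
        match QC[k]? with
        | some h => if npos h w = true then some c else none
        | none => none
      | 1 => rd1 c fun c k => cols m G W w x k c ([], [], [])
      | t + 2 => rd1 c fun c p => rd1 c fun c q => rd1 c fun c g => rd3 c fun c M =>
        if t < 3 then
          match cut w t p q g M with
          | some (w1, w2) =>
            match chk m G W QC n c w1 x with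
            | some c => chk m G W QC n c w2 x
            | none => none
          | none => none
        else
          match cut x (t - 3) p q g M with
          | some (x1, x2) =>
            match chk m G W QC n c w x1 with
            | some c => chk m G W QC n c w x2
            | none => none
          | none => none

/-- The root cell of the denominators: the cone of the slow triples. -/
def root : Cell := ((0, 1, 1), (1, 1, 1), (1, 1, 2))

/-- The four root cells of the determinants. -/
def octs : List Cell :=
  [((1, 0, 0), (0, 1, 0), (0, 0, 1)), ((1, 0, 0), (0, 1, 0), (0, 0, -1)),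
    ((1, 0, 0), (0, -1, 0), (0, 0, 1)), ((-1, 0, 0), (0, 1, 0), (0, 0, 1))]

/-- The checker for a list of root cells. -/
def chks (m : ℕ) (G : V3) (W QC : List V3) : List Cell → ℕ → Bool
  | [], _ => true
  | x :: l, c =>
    match chk m G W QC 200 c root x with
    | some c => chks m G W QC l c
    | none => false

/-- The checker. -/
def wcheck (m : ℕ) (G : V3) (W QC : List V3) (c : ℕ) : Bool := chks m G W QC octs c

/-- Block SOUND. -/
def Stmt_SOUND : Prop := ∀ (m : ℕ) (G : V3) (W QC : List V3) (c : ℕ), 0 < m →
  wcheck m G W QC c = true → ∀ (N : Seminorm ℝ V) (e : V × V × V) (q : ℝ × ℝ × ℝ) (L : ℕ → ℝ),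
    ¬ Geo m G W QC N e q L

end Pool.Agent.Work.MP_7453a1_an
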