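import Pool.Agent.Work.MP_7453a1_an.Check

set_option autoImplicit false

/-!
Block CLSX: classes modulo 2, 3, 5 from certificates for the normalised classes (helper21).
-/

namespace Pool.Agent.Work.MP_7453a1_an

open Pool.Agent.Work.MP_7453a1_nt_norm Pool.Agent.Work.MP_7453a1_nt_h45
open Pool.Agent.Work.MP_7453a1_nt_sym (IsFrame2)

/-- The normalised classes modulo `m`. -/
def norms (m : ℕ) : List V3 :=
  ((List.range m).flatMap fun a : ℕ => (List.range m).map fun b : ℕ =>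
    (((1 : ℤ), (a : ℤ), (b : ℤ)) : V3)) ++
    ((List.range m).map fun a : ℕ => (((0 : ℤ), (1 : ℤ), (a : ℤ)) : V3)) ++
    [((0 : ℤ), (0 : ℤ), (1 : ℤ))]

/-- The vectors of the basis. -/
def W0 : List V3 := [(1, 0, 0), (0, 1, 0), (0, 0, 1)]

/-- The conditions of a slow triple. -/
def Q0 : List V3 := [(1, 1, -1), (1, 0, 0), (-1, 1, 0), (0, -1, 1)]

lemma cls_cb_add (v w : V3) (a b c : Pt 2) : cb (v + w) a b c = cb v a b c + cb w a b c := by
  simp only [cb, Prod.fst_add, Prod.snd_add, add_smul]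
  abel

lemma cls_cb_smul (t : ℤ) (v : V3) (a b c : Pt 2) : cb (t • v) a b c = t • cb v a b c := by
  simp only [cb, Prod.smul_fst, Prod.smul_snd, smul_add, smul_smul, smul_eq_mul]

lemma mem_range_cast {m : ℕ} {x : ℤ} (h0 : 0 ≤ x) (h1 : x < m) : ∃ a ∈ List.range m, (a : ℤ) = x :=
  ⟨x.toNat, List.mem_range.mpr (by omega), by omega⟩

/-- Every class has a normalised representative. -/
lemma norm_class {m : ℕ} (hm : m.Prime) {G : V3}
    (hG : ¬ ((m : ℤ) ∣ G.1 ∧ (m : ℤ) ∣ G.2.1 ∧ (m : ℤ) ∣ G.2.2)) :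
    ∃ (k : ℤ) (H : V3), k • G + (m : ℤ) • H ∈ norms m := by
  have hm0 : (0 : ℤ) < (m : ℤ) := by exact_mod_cast hm.pos
  have hp : Prime (m : ℤ) := Nat.prime_iff_prime_int.mp hm
  have inv : ∀ g : ℤ, ¬ (m : ℤ) ∣ g → ∃ k b : ℤ, k * g + b * m = 1 := by
    intro g hg
    have h1 : IsCoprime (m : ℤ) g := (hp.coprime_iff_not_dvd).mpr hg
    obtain ⟨a, b, hab⟩ := h1
    exact ⟨b, a, by linarith⟩
  have md : ∀ x : ℤ, ∃ h : ℤ, ∃ a ∈ List.range m, x + m * h = (a : ℤ) := by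
    intro x
    obtain ⟨a, ha, hx⟩ := mem_range_cast (Int.emod_nonneg x hm0.ne') (Int.emod_lt_of_pos x hm0)
    refine ⟨-(x / m), a, ha, ?_⟩
    rw [hx]
    have := Int.emod_add_mul_ediv x m
    linarith
  by_cases h1 : (m : ℤ) ∣ G.1
  · by_cases h2 : (m : ℤ) ∣ G.2.1
    · have h3 : ¬ (m : ℤ) ∣ G.2.2 := fun h3 => hG ⟨h1, h2, h3⟩
      obtain ⟨k, b, hk⟩ := inv _ h3
      obtain ⟨c1, hc1⟩ := h1
      obtain ⟨c2, hc2⟩ := h2
      refine ⟨k, (-(k * c1), -(k * c2), b), ?_⟩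
      have e : k • G + (m : ℤ) • ((-(k * c1), -(k * c2), b) : V3) = ((0 : ℤ), (0 : ℤ), (1 : ℤ)) := by
        refine Prod.ext ?_ (Prod.ext ?_ ?_)
        · simp only [Prod.fst_add, Prod.smul_fst, smul_eq_mul]; rw [hc1]; ring
        · simp only [Prod.fst_add, Prod.snd_add, Prod.smul_fst, Prod.smul_snd, smul_eq_mul]
          rw [hc2]; ring
        · simp only [Prod.snd_add, Prod.smul_snd, smul_eq_mul]; linarith
      rw [e]
      unfold norms
      exact List.mem_append_right _ List.mem_cons_self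
    · obtain ⟨k, b, hk⟩ := inv _ h2
      obtain ⟨c1, hc1⟩ := h1
      obtain ⟨h, a, ha, hx⟩ := md (k * G.2.2)
      refine ⟨k, (-(k * c1), b, h), ?_⟩
      have e : k • G + (m : ℤ) • ((-(k * c1), b, h) : V3) = ((0 : ℤ), (1 : ℤ), (a : ℤ)) := by
        refine Prod.ext ?_ (Prod.ext ?_ ?_)
        · simp only [Prod.fst_add, Prod.smul_fst, smul_eq_mul]; rw [hc1]; ring
        · simp only [Prod.fst_add, Prod.snd_add, Prod.smul_fst, Prod.smul_snd, smul_eq_mul]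
          linarith
        · simp only [Prod.snd_add, Prod.smul_snd, smul_eq_mul]; linarith
      rw [e]
      unfold norms
      exact List.mem_append_left _ (List.mem_append_right _ (List.mem_map.mpr ⟨a, ha, rfl⟩))
  · obtain ⟨k, b, hk⟩ := inv _ h1
    obtain ⟨h, a, ha, hx⟩ := md (k * G.2.1)
    obtain ⟨h', a', ha', hx'⟩ := md (k * G.2.2)
    refine ⟨k, (b, h, h'), ?_⟩
    have e : k • G + (m : ℤ) • ((b, h, h') : V3) = ((1 : ℤ), (a : ℤ), (a' : ℤ)) := by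
      refine Prod.ext ?_ (Prod.ext ?_ ?_)
      · simp only [Prod.fst_add, Prod.smul_fst, smul_eq_mul]; linarith
      · simp only [Prod.fst_add, Prod.snd_add, Prod.smul_fst, Prod.smul_snd, smul_eq_mul]
        linarith
      · simp only [Prod.snd_add, Prod.smul_snd, smul_eq_mul]; linarith
    rw [e]
    unfold norms
    exact List.mem_append_left _ (List.mem_append_left _ (List.mem_flatMap.mpr ⟨a, ha,
      List.mem_map.mpr ⟨a', ha', rfl⟩⟩))

lemma norms_ndvd {m : ℕ} (hm : m.Prime) {G : V3} (h : G ∈ norms m) :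
    ¬ ((m : ℤ) ∣ G.1 ∧ (m : ℤ) ∣ G.2.1 ∧ (m : ℤ) ∣ G.2.2) := by
  have h1 : ¬ (m : ℤ) ∣ 1 := (Nat.prime_iff_prime_int.mp hm).not_dvd_one
  unfold norms at h
  rcases List.mem_append.mp h with h | h
  · rcases List.mem_append.mp h with h | h
    · obtain ⟨a, _, h⟩ := List.mem_flatMap.mp h
      obtain ⟨b, _, rfl⟩ := List.mem_map.mp h
      rintro ⟨h2, -, -⟩
      exact h1 h2
    · obtain ⟨a, _, rfl⟩ := List.mem_map.mp h
      rintro ⟨-, h2, -⟩
      exact h1 h2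
  · simp only [List.mem_cons, List.not_mem_nil, or_false] at h
    subst h
    rintro ⟨-, -, h2⟩
    exact h1 h2

/-- Block CLSX. -/
theorem CLSX (hb : Stmt_BUILDP) (hs : Stmt_SOUND) (hn : Stmt_NZ)
    (hM : ∀ m : ℕ, m = 2 ∨ m = 3 ∨ m = 5 → ∀ G ∈ norms m,
      ∃ c, wcheck m G [(1, 0, 0), (0, 1, 0), (0, 0, 1)]
        [(1, 1, -1), (1, 0, 0), (-1, 1, 0), (0, -1, 1)] c = true) : Stmt_CLS := by
  intro N Θ z hz p hp m hm G hG ⟨s, hs'⟩
  have hmp : m.Prime := by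
    rcases hm with rfl | rfl | rfl <;> norm_num
  obtain ⟨k, H, hkH⟩ := norm_class hmp hG
  obtain ⟨c, hc⟩ := hM m hm _ hkH
  refine hs m _ _ _ c hmp.pos hc N _ _ _
    (hb N Θ z hz p hp (hn N Θ z hz p hp) m _ hmp (norms_ndvd hmp hkH)
      ⟨k • s + cb H (z p) (z (p + 1)) (z (p + 2)), ?_⟩)
  rw [cls_cb_add, cls_cb_smul, cls_cb_smul, ← hs', smul_add, smul_comm]

/-- Block CLSX with a list of certificates. -/
theorem CLSX_list (hb : Stmt_BUILDP) (hs : Stmt_SOUND) (hn : Stmt_NZ) {l : List (ℕ × V3 × ℕ)}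
    (hl : ∀ x ∈ l, wcheck x.1 x.2.1 [(1, 0, 0), (0, 1, 0), (0, 0, 1)]
      [(1, 1, -1), (1, 0, 0), (-1, 1, 0), (0, -1, 1)] x.2.2 = true)
    (hcov : ∀ m ∈ [2, 3, 5], ∀ G ∈ norms m, ∃ x ∈ l, x.1 = m ∧ x.2.1 = G) : Stmt_CLS := by
  refine CLSX hb hs hn fun m hm G hG => ?_
  obtain ⟨x, hx, rfl, rfl⟩ := hcov m (by rcases hm with rfl | rfl | rfl <;> simp) G hG
  exact ⟨x.2.2, hl x hx⟩

end Pool.Agent.Work.MP_7453a1_an

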