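import Pool.Agent.Work.MP_7453a1_an.Tabl

set_option autoImplicit false

/-!
Growth of the denominators at the exact base `ρ` (helper21).
-/

namespace Pool.Agent.Work.MP_7453a1_an

open Pool.Agent.Work.MP_7453a1_nt_norm Pool.Agent.Work.MP_7453a1_nt_h45
open Pool.Agent.Work.MP_7453a1_nt_sym (IsFrame2)
open Pool.Agent.Work.MP_7453a1_nt_two (UG)
open Pool.Agent.Work.MP_7453a1_st (Letter lt Rel steps pts pts_KL condH dval slowC fastC flagC
  neq neq_eq slots Entry lv wr wr_append rel_drop rel_append steps_append letters)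

/-- From every state one of the letters applies. -/
def Stmt_NEXT : Prop := ∀ (N : Seminorm ℝ V) (Θ : V) (z : ℕ → Pt 2), IsFrame2 N Θ z →
  ∀ (p : ℕ) (f : Bool), condH z p (flagC f) →
    ∃ x ∈ slots f, (lt x.1).holds z p ∧ condH z (p + (lt x.1).step) (flagC x.2)

/-- The table is correct. -/
structure TabOK (ρ : ℝ) (fb : List (List ℕ)) (sts : List ASt) (rn tn td : ℤ) (B : ℕ) : Prop where
  hrn : 0 ≤ rn
  htd : 0 < td
  h1 : (rn : ℝ) ≤ td * ρ
  h2 : (td : ℝ) * ρ ≤ tn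
  bd : ∀ S ∈ sts, bdOK rn tn td S = true
  ok : ∀ S ∈ sts, StOK tn td fb sts S
  start : ∀ f, ∃ i cert, startOK sts i f cert = true
  bnd : bndOK B sts = true

lemma flag_cases (z : ℕ → Pt 2) (p : ℕ) : ∃ f, condH z p (flagC f) := by
  by_cases h : (z (p + 2)).1 < (z p).1 + (z (p + 1)).1
  · refine ⟨false, ?_⟩
    have h1 : ((z (p + 2)).1 : ℝ) < ((z p).1 : ℝ) + ((z (p + 1)).1 : ℝ) := by exact_mod_cast h
    simp only [flagC, condH, slowC, Bool.false_eq_true, if_false, if_true, dval, List.foldr_cons,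
      List.foldr_nil, Pool.Agent.Work.MP_7453a1_nt_sup.den_apply]
    push_cast
    simp only [add_zero]
    linarith
  · refine ⟨true, ?_⟩
    push Not at h
    have h1 : ((z p).1 : ℝ) + ((z (p + 1)).1 : ℝ) ≤ ((z (p + 2)).1 : ℝ) := by exact_mod_cast h
    simp only [flagC, condH, fastC, Bool.false_eq_true, if_false, if_true, dval, List.foldr_cons,
      List.foldr_nil, Pool.Agent.Work.MP_7453a1_nt_sup.den_apply]
    push_cast
    simp only [add_zero]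
    linarith

/-- All moves have length one, two or three. -/
lemma step_bnd : ∀ l, 1 ≤ (lt l).step ∧ (lt l).step ≤ 3 := by
  intro l
  by_cases hl : l < 16
  · interval_cases l <;> simp [lt, letters, Letter.step]
  · have : lt l = ⟨[], 1, []⟩ := by
      unfold lt
      rw [List.getD_eq_getElem?_getD, List.getElem?_eq_none]
      · rfl
      · simp [letters]
        omega
    rw [this]
    simp [Letter.step]

section
variable {N : Seminorm ℝ V} {Θ : V} {z : ℕ → Pt 2} {ρ : ℝ} {fb : List (List ℕ)}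
  {sts : List ASt} {rn tn td : ℤ} {B : ℕ}

/-- The growth of the potentials. -/
lemma chain (hρ : ρ ^ 3 = ρ + 1) (hρ1 : 1 ≤ ρ) (hN : Stmt_NEXT) (hfb : ∀ w ∈ fb, NoWord w)
    (hT : TabOK ρ fb sts rn tn td B) (hz : IsFrame2 N Θ z) :
    ∀ k, ∃ p, p ≤ k ∧ k ≤ p + 2 ∧ ∃ S ∈ sts, Inv z p S ∧
      ρ ^ p * ((z 0).1 : ℝ) ≤ pot ρ z p S := by
  have h0 : (0 : ℝ) < ((z 0).1 : ℝ) := by exact_mod_cast hz.pos 0
  intro k
  induction k with
  | zero =>
    obtain ⟨f, hf⟩ := flag_cases z 0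
    obtain ⟨i, cert, hc⟩ := hT.start f
    refine ⟨0, le_rfl, by omega, ?_⟩
    simp only [pow_zero, one_mul]
    exact start_sound hT.hrn hT.htd hT.h1 hT.h2 hz hT.bd hc hf
  | succ k ih =>
    obtain ⟨p, h1, h2, S, hS, hI, hv⟩ := ih
    by_cases hk : k + 1 ≤ p + 2
    · exact ⟨p, by omega, hk, S, hS, hI, hv⟩
    · obtain ⟨x, hx, hl, hf⟩ := hN N Θ z hz p S.fast hI.2
      obtain ⟨e, he⟩ := hT.ok S hS x hx
      have hp0 : 0 ≤ pot ρ z p S := le_trans (by positivity) hv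
      obtain ⟨S', hS', hI', hv'⟩ := entry_sound hρ hT.hrn hT.htd hT.h1 hT.h2 hz hfb hT.bd hS hI he
        hl hf hp0
      obtain ⟨b1, b2⟩ := step_bnd x.1
      refine ⟨p + (lt x.1).step, by omega, by omega, S', hS', hI', ?_⟩
      calc ρ ^ (p + (lt x.1).step) * ((z 0).1 : ℝ) =
          ρ ^ (lt x.1).step * (ρ ^ p * ((z 0).1 : ℝ)) := by
            rw [pow_add]; ring
        _ ≤ ρ ^ (lt x.1).step * pot ρ z p S := mul_le_mul_of_nonneg_left hv (by positivity)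
        _ ≤ _ := hv'

/-- Growth of the denominators. -/
theorem growth (hρ : ρ ^ 3 = ρ + 1) (hρ1 : 1 ≤ ρ) (hN : Stmt_NEXT) (hfb : ∀ w ∈ fb, NoWord w)
    (hT : TabOK ρ fb sts rn tn td B) (hB : 1 ≤ B) (hz : IsFrame2 N Θ z) (k : ℕ) :
    ρ ^ k * ((z 0).1 : ℝ) ≤ B * ρ ^ 4 * ((z k).1 : ℝ) := by
  have hB' : (1 : ℝ) ≤ B := by exact_mod_cast hB
  have hM0 : (0 : ℝ) < ((z 0).1 : ℝ) := by exact_mod_cast hz.pos 0
  have hmon : ∀ a b, a ≤ b → ((z a).1 : ℝ) ≤ ((z b).1 : ℝ) := by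
    intro a b hab
    rcases hab.lt_or_eq with h | rfl
    · exact_mod_cast (hz.mono a b h).le
    · exact le_rfl
  rcases Nat.lt_or_ge k 2 with hk | hk
  · have h1 : ρ ^ k ≤ ρ ^ 4 := pow_le_pow_right₀ hρ1 (by omega)
    have h2 := hmon 0 k (by omega)
    have h3 : ρ ^ k * ((z 0).1 : ℝ) ≤ ρ ^ 4 * ((z k).1 : ℝ) :=
      mul_le_mul h1 h2 hM0.le (by positivity)
    have h4 : (0 : ℝ) ≤ ρ ^ 4 * ((z k).1 : ℝ) := by
      have : (0 : ℝ) < ((z k).1 : ℝ) := by linarith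
      positivity
    nlinarith
  · obtain ⟨j, rfl⟩ : ∃ j, k = j + 2 := ⟨k - 2, by omega⟩
    obtain ⟨p, h1, h2, S, hS, hI, hv⟩ := chain hρ hρ1 hN hfb hT hz j
    have h3 := bnd_sound (p := p) hT.hrn hT.htd hT.h1 hT.h2 hz hT.bd hT.bnd hS
    have h4 := hmon (p + 2) (j + 2) (by omega)
    have h5 : ρ ^ (j + 2) ≤ ρ ^ (p + 4) := pow_le_pow_right₀ hρ1 (by omega)
    calc ρ ^ (j + 2) * ((z 0).1 : ℝ) ≤ ρ ^ (p + 4) * ((z 0).1 : ℝ) :=
          mul_le_mul_of_nonneg_right h5 hM0.le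
      _ = ρ ^ 4 * (ρ ^ p * ((z 0).1 : ℝ)) := by rw [pow_add]; ring
      _ ≤ ρ ^ 4 * (B * ((z (p + 2)).1 : ℝ)) :=
          mul_le_mul_of_nonneg_left (hv.trans h3) (by positivity)
      _ ≤ ρ ^ 4 * (B * ((z (j + 2)).1 : ℝ)) :=
          mul_le_mul_of_nonneg_left (mul_le_mul_of_nonneg_left h4 (by positivity)) (by positivity)
      _ = _ := by ring

/-- Uniform growth for every norm. -/
theorem UG_rho (hρ : ρ ^ 3 = ρ + 1) (hρ1 : 1 ≤ ρ) (hN : Stmt_NEXT) (hfb : ∀ w ∈ fb, NoWord w)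
    (hT : TabOK ρ fb sts rn tn td B) (hB : 1 ≤ B) (N : Seminorm ℝ V) :
    UG N ρ ((B : ℝ) * ρ ^ 4)⁻¹ := by
  intro Θ z hz k
  have hB' : (1 : ℝ) ≤ B := by exact_mod_cast hB
  have h1 := growth hρ hρ1 hN hfb hT hB hz k
  rw [mul_assoc, inv_mul_le_iff₀ (by positivity)]
  exact h1

end

end Pool.Agent.Work.MP_7453a1_an

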