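import Pool.Agent.Work.MP_7453a1_an.Grow

set_option autoImplicit false

/-!
A move takes place (helper9), from the two classifications.
-/

namespace Pool.Agent.Work.MP_7453a1_an

open Pool.Agent.Work.MP_7453a1_nt_norm Pool.Agent.Work.MP_7453a1_nt_h45
open Pool.Agent.Work.MP_7453a1_nt_sym (IsFrame2)
open Pool.Agent.Work.MP_7453a1_st (Letter lt condH dval slowC fastC flagC slots)

section

variable {z : ℕ → Pt 2} {p : ℕ}

lemma NEXT_dval (z : ℕ → Pt 2) (p : ℕ) (c : List (ℤ × ℕ)) :
    dval z p c = (c.map (fun a => (a.1 : ℝ) * ((z (p + a.2)).1 : ℝ))).sum := by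
  induction c with
  | nil => simp [dval]
  | cons a l ih =>
    simp only [dval, List.foldr_cons, List.map_cons, List.sum_cons] at ih ⊢
    rw [ih]
    simp only [Pool.Agent.Work.MP_7453a1_nt_sup.den_apply]

lemma NEXT_none {f : ℕ} {cs : List (Bool × List (ℤ × ℕ))} (hc : ∀ c ∈ cs, condH z p c) :
    (⟨[], f, cs⟩ : Letter).holds z p := by
  refine ⟨fun i v hv => ?_, hc⟩
  simp at hv

lemma NEXT_one {v : ℤ × ℤ × ℤ} {f : ℕ} {cs : List (Bool × List (ℤ × ℕ))} (h : Is z p 3 v)
    (hc : ∀ c ∈ cs, condH z p c) : (⟨[v], f, cs⟩ : Letter).holds z p := by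
  refine ⟨fun i v' hv => ?_, hc⟩
  cases i with
  | zero =>
    simp only [List.getElem?_cons_zero, Option.some.injEq] at hv
    subst hv
    exact h
  | succ i => simp at hv

lemma NEXT_two {v v' : ℤ × ℤ × ℤ} {f : ℕ} {cs : List (Bool × List (ℤ × ℕ))} (h : Is z p 3 v)
    (h' : Is z p 4 v') (hc : ∀ c ∈ cs, condH z p c) : (⟨[v, v'], f, cs⟩ : Letter).holds z p := by
  refine ⟨fun i v'' hv => ?_, hc⟩
  cases i with
  | zero =>
    simp only [List.getElem?_cons_zero, Option.some.injEq] at hv
    subst hv
    exact h
  | succ i =>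
    cases i with
    | zero =>
      simp only [List.getElem?_cons_succ, List.getElem?_cons_zero, Option.some.injEq] at hv
      subst hv
      exact h'
    | succ i => simp at hv

lemma NEXT_nil {P : Bool × List (ℤ × ℕ) → Prop} :
    ∀ c ∈ ([] : List (Bool × List (ℤ × ℕ))), P c := by
  intro c hc
  simp at hc

lemma NEXT_cons {P : Bool × List (ℤ × ℕ) → Prop} {a : Bool × List (ℤ × ℕ)}
    {l : List (Bool × List (ℤ × ℕ))} (h : P a) (hl : ∀ c ∈ l, P c) : ∀ c ∈ a :: l, P c := by
  intro c hc
  rcases List.mem_cons.mp hc with rfl | hc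
  · exact h
  · exact hl c hc

lemma NEXT_slow (h : Slow z p) : condH z p (flagC false) := by
  unfold Slow at h
  have h1 : ((z (p + 2)).1 : ℝ) < ((z p).1 : ℝ) + ((z (p + 1)).1 : ℝ) := by exact_mod_cast h
  simp only [flagC, condH, slowC, Bool.false_eq_true, if_false, if_true, NEXT_dval, List.map_cons,
    List.map_nil, List.sum_cons, List.sum_nil]
  push_cast
  simp only [add_zero]
  linarith

lemma NEXT_condH_slow (h : condH z p (flagC false)) : Slow z p := by
  simp only [flagC, condH, slowC, Bool.false_eq_true, if_false, if_true, NEXT_dval, List.map_cons,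
    List.map_nil, List.sum_cons, List.sum_nil, add_zero] at h
  unfold Slow
  push_cast at h
  have h1 : ((z (p + 2)).1 : ℝ) < ((z p).1 : ℝ) + ((z (p + 1)).1 : ℝ) := by linarith
  exact_mod_cast h1

/-- Denominators of a combination. -/
lemma NEXT_fst {k : ℕ} {v : V3} (h : Is z p k v) :
    (z (p + k)).1 = v.1 * (z p).1 + (v.2.1 * (z (p + 1)).1 + v.2.2 * (z (p + 2)).1) := by
  have := congrArg Prod.fst h
  simpa [cb] using this

end

/-- A move takes place. -/
theorem NEXT (h1 : Stmt_C1) (h2 : Stmt_C2) : Stmt_NEXT := by
  intro N Θ z hz p f hf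
  have m0 := hz.pos p
  have m1 := hz.mono p (p + 1) (by omega)
  have m2 := hz.mono (p + 1) (p + 2) (by omega)
  cases f with
  | true =>
    obtain ⟨f', hf'⟩ := flag_cases z (p + 1)
    have hl : (lt 15).holds z p := NEXT_none (NEXT_cons hf NEXT_nil)
    cases f' with
    | true => exact ⟨(15, true), by simp [slots], hl, hf'⟩
    | false => exact ⟨(15, false), by simp [slots], hl, hf'⟩
  | false =>
    have hs := NEXT_condH_slow hf
    have both : ∀ l : ℕ, (l, false) ∈ slots false → (l, true) ∈ slots false →
        (lt l).holds z p → ∃ x ∈ slots false, (lt x.1).holds z p ∧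
          condH z (p + (lt x.1).step) (flagC x.2) := by
      intro l h1 h2 h3
      obtain ⟨f', hf'⟩ := flag_cases z (p + (lt l).step)
      cases f' with
      | true => exact ⟨(l, true), h2, h3, hf'⟩
      | false => exact ⟨(l, false), h1, h3, hf'⟩
    have hs' : (z (p + 2)).1 < (z p).1 + (z (p + 1)).1 := hs
    by_cases ht : (z (p + 3)).1 < (z p).1 + (z (p + 1)).1 + (z (p + 2)).1
    · obtain ⟨v, hv, e⟩ := h1 N Θ z hz p hs ht
      have e1 := NEXT_fst e
      simp only [List.mem_cons, List.not_mem_nil, or_false] at hv
      rcases hv with rfl | rfl | rfl | rfl | rfl | rfl | rfl | rfl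
      · refine ⟨(0, false), by simp [slots], NEXT_one e (NEXT_cons hf NEXT_nil), NEXT_slow ?_⟩
        show (z (p + 3)).1 < (z (p + 1)).1 + (z (p + 2)).1
        simp only at e1
        linarith
      · refine ⟨(1, false), by simp [slots], NEXT_one e (NEXT_cons hf NEXT_nil), NEXT_slow ?_⟩
        show (z (p + 3)).1 < (z (p + 1)).1 + (z (p + 2)).1
        simp only at e1
        linarith
      · refine ⟨(2, false), by simp [slots], NEXT_one e (NEXT_cons hf NEXT_nil), NEXT_slow ?_⟩
        show (z (p + 3)).1 < (z (p + 1)).1 + (z (p + 2)).1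
        simp only at e1
        linarith
      · by_cases h3 : (z (p + 3)).1 < (z (p + 1)).1 + (z (p + 2)).1
        · refine ⟨(3, false), by simp [slots], NEXT_one e (NEXT_cons hf (NEXT_cons ?_ NEXT_nil)),
            NEXT_slow h3⟩
          have h4 : ((z (p + 3)).1 : ℝ) < ((z (p + 1)).1 : ℝ) + ((z (p + 2)).1 : ℝ) := by
            exact_mod_cast h3
          simp only [condH, if_true, NEXT_dval, List.map_cons, List.map_nil, List.sum_cons,
            List.sum_nil]
          push_cast
          simp only [add_zero]
          linarith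
        · refine both 12 (by simp [slots]) (by simp [slots])
            (NEXT_one e (NEXT_cons hf (NEXT_cons ?_ NEXT_nil)))
          push Not at h3
          have h4 : ((z (p + 1)).1 : ℝ) + ((z (p + 2)).1 : ℝ) ≤ ((z (p + 3)).1 : ℝ) := by
            exact_mod_cast h3
          simp only [condH, Bool.false_eq_true, if_false, NEXT_dval, List.map_cons, List.map_nil,
            List.sum_cons, List.sum_nil]
          push_cast
          simp only [add_zero]
          linarith
      · simp only at e1
        by_cases h3 : (z (p + 4)).1 < (z (p + 2)).1 + (z (p + 3)).1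
        · have hk : condH z p (true, [(1, 2), (1, 3), (-1, 4)]) := by
            have h4 : ((z (p + 4)).1 : ℝ) < ((z (p + 2)).1 : ℝ) + ((z (p + 3)).1 : ℝ) := by
              exact_mod_cast h3
            simp only [condH, if_true, NEXT_dval, List.map_cons, List.map_nil, List.sum_cons,
              List.sum_nil]
            push_cast
            simp only [add_zero]
            linarith
          have hsl : Slow z (p + 2) := h3
          obtain ⟨v, hv, e'⟩ := h2 N Θ z hz p hs e (by linarith)
          simp only [List.mem_cons, List.not_mem_nil, or_false] at hv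
          rcases hv with rfl | rfl | rfl | rfl | rfl
          · exact ⟨(4, false), by simp [slots],
              NEXT_two e e' (NEXT_cons hf (NEXT_cons hk NEXT_nil)), NEXT_slow hsl⟩
          · exact ⟨(5, false), by simp [slots],
              NEXT_two e e' (NEXT_cons hf (NEXT_cons hk NEXT_nil)), NEXT_slow hsl⟩
          · exact ⟨(6, false), by simp [slots],
              NEXT_two e e' (NEXT_cons hf (NEXT_cons hk NEXT_nil)), NEXT_slow hsl⟩
          · exact ⟨(7, false), by simp [slots],
              NEXT_two e e' (NEXT_cons hf (NEXT_cons hk NEXT_nil)), NEXT_slow hsl⟩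
          · exact ⟨(8, false), by simp [slots],
              NEXT_two e e' (NEXT_cons hf (NEXT_cons hk NEXT_nil)), NEXT_slow hsl⟩
        · refine both 14 (by simp [slots]) (by simp [slots])
            (NEXT_one e (NEXT_cons hf (NEXT_cons ?_ NEXT_nil)))
          push Not at h3
          have h4 : ((z (p + 2)).1 : ℝ) + ((z (p + 3)).1 : ℝ) ≤ ((z (p + 4)).1 : ℝ) := by
            exact_mod_cast h3
          simp only [condH, Bool.false_eq_true, if_false, NEXT_dval, List.map_cons, List.map_nil,
            List.sum_cons, List.sum_nil]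
          push_cast
          simp only [add_zero]
          linarith
      · exact both 9 (by simp [slots]) (by simp [slots]) (NEXT_one e (NEXT_cons hf NEXT_nil))
      · exact both 10 (by simp [slots]) (by simp [slots]) (NEXT_one e (NEXT_cons hf NEXT_nil))
      · exact both 11 (by simp [slots]) (by simp [slots]) (NEXT_one e (NEXT_cons hf NEXT_nil))
    · refine both 13 (by simp [slots]) (by simp [slots])
        (NEXT_none (NEXT_cons hf (NEXT_cons ?_ NEXT_nil)))
      push Not at ht
      have h4 : ((z p).1 : ℝ) + ((z (p + 1)).1 : ℝ) + ((z (p + 2)).1 : ℝ) ≤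
          ((z (p + 3)).1 : ℝ) := by
        exact_mod_cast ht
      simp only [condH, Bool.false_eq_true, if_false, NEXT_dval, List.map_cons, List.map_nil,
        List.sum_cons, List.sum_nil]
      push_cast
      simp only [add_zero]
      linarith

end Pool.Agent.Work.MP_7453a1_an
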