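import Pool.Agent.Work.MP_7453a1_nt_two.Unif
import Pool.Agent.Work.MP_7453a1_su.Lite
import Pool.Agent.Work.MP_7453a1_st.Alph

set_option autoImplicit false

/-!
Lagarias's conjecture for all norms: statements of the blocks.
-/

namespace Pool.Agent.Work.MP_7453a1_an

open Pool.Agent.Work.MP_7453a1_nt_norm Pool.Agent.Work.MP_7453a1_nt_h45
open Pool.Agent.Work.MP_7453a1_nt_sym (IsFrame2)

abbrev V : Type := Fin 2 → ℝ

/-- Integer vectors of length three (coordinates in the basis `u0, u1, u2`). -/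
abbrev V3 : Type := ℤ × ℤ × ℤ

def dot3 (a b : V3) : ℤ := a.1 * b.1 + a.2.1 * b.2.1 + a.2.2 * b.2.2

def cr (a b : V3) : V3 :=
  (a.2.1 * b.2.2 - a.2.2 * b.2.1, a.2.2 * b.1 - a.1 * b.2.2, a.1 * b.2.1 - a.2.1 * b.1)

/-- The determinant of three integer points. -/
def D3 (a b c : Pt 2) : ℤ :=
  a.1 * (b.2 0 * c.2 1 - b.2 1 * c.2 0) + b.1 * (c.2 0 * a.2 1 - c.2 1 * a.2 0) +
    c.1 * (a.2 0 * b.2 1 - a.2 1 * b.2 0)

/-- Combination of three points. -/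
def cb (v : V3) (a b c : Pt 2) : Pt 2 := v.1 • a + (v.2.1 • b + v.2.2 • c)

/-- The triple at `p` is slow. -/
def Slow (z : ℕ → Pt 2) (p : ℕ) : Prop := (z (p + 2)).1 < (z p).1 + (z (p + 1)).1

/-- Block MINK: Minkowski's convex body theorem. -/
def Stmt_MINK : Prop := ∀ (N : Seminorm ℝ V) (Θ : V) (z : ℕ → Pt 2), IsFrame2 N Θ z →
  ∀ (j : ℕ) (u v : Pt 2), er N Θ u ≤ er N Θ (z j) → er N Θ v ≤ er N Θ (z j) →
    |det (ev Θ u) (ev Θ v)| * ((z (j + 1)).1 : ℝ) ≤ 2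

/-- Block WEX: weak exclusion. -/
def Stmt_WEX : Prop := ∀ (N : Seminorm ℝ V) (Θ : V) (z : ℕ → Pt 2), IsFrame2 N Θ z →
  ∀ (k : ℕ) (w : Pt 2), w ≠ 0 → |w.1| ≤ (z (k + 1)).1 → w ≠ z (k + 1) → w ≠ -z (k + 1) →
    er N Θ (z k) ≤ er N Θ w

/-- Block PLAN: the planar inequality. -/
def Stmt_PLAN : Prop := ∀ (N : Seminorm ℝ V) (a b p : V),
  |det a b| * N p ≤ |det p b| * N a + |det a p| * N b

/-- Block DET: the determinant of three integer points. -/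
def Stmt_DET : Prop := ∀ (Θ : V) (u v w : Pt 2),
  (u.1 : ℝ) * det (ev Θ v) (ev Θ w) + (v.1 : ℝ) * det (ev Θ w) (ev Θ u) +
    (w.1 : ℝ) * det (ev Θ u) (ev Θ v) = ((D3 u v w : ℤ) : ℝ)

/-- Block CRAMER: coordinates with respect to a triple of determinant one. -/
def Stmt_CRAMER : Prop := ∀ (a b c : Pt 2), |D3 a b c| = 1 → ∀ x : Pt 2, ∃ v : V3, x = cb v a b c

/-- Block PDIV: a prime that divides the determinant gives a relation. -/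
def Stmt_PDIV : Prop := ∀ (a b c : Pt 2) (p : ℕ), p.Prime → (p : ℤ) ∣ D3 a b c →
  ∃ (v : V3) (s : Pt 2), ¬ ((p : ℤ) ∣ v.1 ∧ (p : ℤ) ∣ v.2.1 ∧ (p : ℤ) ∣ v.2.2) ∧
    (p : ℤ) • s = cb v a b c

/-- Block NZ: the points of a slow triple are independent. -/
def Stmt_NZ : Prop := ∀ (N : Seminorm ℝ V) (Θ : V) (z : ℕ → Pt 2), IsFrame2 N Θ z →
  ∀ p, Slow z p → D3 (z p) (z (p + 1)) (z (p + 2)) ≠ 0

/-- Block IDX: the index of a slow triple is at most six (from MINK, DET). -/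
def Stmt_IDX : Prop := ∀ (N : Seminorm ℝ V) (Θ : V) (z : ℕ → Pt 2), IsFrame2 N Θ z →
  ∀ p, Slow z p → |D3 (z p) (z (p + 1)) (z (p + 2))| ≤ 6

/-- Block BOX1 (from MINK, DET). -/
def Stmt_BOX1 : Prop := ∀ (N : Seminorm ℝ V) (Θ : V) (z : ℕ → Pt 2), IsFrame2 N Θ z →
  ∀ p, Slow z p → |D3 (z p) (z (p + 1)) (z (p + 2))| = 1 →
    (z (p + 3)).1 < (z p).1 + (z (p + 1)).1 + (z (p + 2)).1 →
    ∀ v : V3, z (p + 3) = cb v (z p) (z (p + 1)) (z (p + 2)) →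
      |v.1| ≤ 8 ∧ |v.2.1| ≤ 12 ∧ |v.2.2| ≤ 10

/-- Block BOX2 (from MINK, DET). -/
def Stmt_BOX2 : Prop := ∀ (N : Seminorm ℝ V) (Θ : V) (z : ℕ → Pt 2), IsFrame2 N Θ z →
  ∀ p, Slow z p → |D3 (z p) (z (p + 1)) (z (p + 2))| = 1 →
    z (p + 3) = z (p + 1) + z (p + 2) →
    (z (p + 4)).1 < (z (p + 1)).1 + 2 * (z (p + 2)).1 →
    ∀ v : V3, z (p + 4) = cb v (z p) (z (p + 1)) (z (p + 2)) →
      |v.1| ≤ 6 ∧ |v.2.1| ≤ 14 ∧ |v.2.2| ≤ 13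

/-! ### The geometric situation that the checker refutes -/

/-- A linear form at a real point. -/
def lin (v : V3) (q : ℝ × ℝ × ℝ) : ℝ := v.1 * q.1 + v.2.1 * q.2.1 + v.2.2 * q.2.2

/-- A combination of three vectors. -/
def vec (e : V × V × V) (v : V3) : V := (v.1 : ℝ) • e.1 + ((v.2.1 : ℝ) • e.2.1 + (v.2.2 : ℝ) • e.2.2)

/-- The three determinants. -/
def xi (e : V × V × V) : ℝ × ℝ × ℝ := (det e.2.1 e.2.2, det e.2.2 e.1, det e.1 e.2.1)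

/-- `P / mu` is a point of the lattice: `mu = 1`, or `mu = m` and `P` is parallel to `G` modulo
`m`. -/
def mb (m : ℕ) (G : V3) (mu : ℕ) (P : V3) : Bool :=
  mu == 1 || (mu == m && ((cr P G).1 % (m : ℤ) == 0) && ((cr P G).2.1 % (m : ℤ) == 0) &&
    ((cr P G).2.2 % (m : ℤ) == 0))

/-- The situation: `e` are the errors of the basis, `q` its denominators, `L` the errors of the
minimal points, `W` the coordinates of the first of them. -/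
structure Geo (m : ℕ) (G : V3) (W QC : List V3) (N : Seminorm ℝ V) (e : V × V × V)
    (q : ℝ × ℝ × ℝ) (L : ℕ → ℝ) : Prop where
  q0 : 0 ≤ q.1
  q1 : q.1 ≤ q.2.1
  q2 : q.2.1 ≤ q.2.2
  qs : q.2.2 ≤ q.1 + q.2.1
  qc : ∀ h ∈ QC, 0 < lin h q
  pos : ∀ j, 0 < L j
  dec : ∀ j, L (j + 1) < L j
  lev : ∀ j a, W[j]? = some a → N (vec e a) = L j
  leg : ∀ (j mu : ℕ) (b P : V3), W[j + 1]? = some b → mb m G mu P = true → P ≠ 0 →
    P ≠ (mu : ℤ) • b → P ≠ -((mu : ℤ) • b) → |lin P q| ≤ mu * lin b q →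
    mu * L j ≤ N (vec e P)
  nz : xi e ≠ 0

/-- Block BUILD: a slow triple of a frame gives the situation, `m = 1` (from WEX, DET). -/
def Stmt_BUILD1 : Prop := ∀ (N : Seminorm ℝ V) (Θ : V) (z : ℕ → Pt 2), IsFrame2 N Θ z →
  ∀ p, Slow z p → D3 (z p) (z (p + 1)) (z (p + 2)) ≠ 0 → ∀ W QC : List V3,
    (∀ j a, W[j]? = some a → z (p + j) = cb a (z p) (z (p + 1)) (z (p + 2))) →
    (∀ h ∈ QC, 0 < lin h (((z p).1 : ℝ), ((z (p + 1)).1 : ℝ), ((z (p + 2)).1 : ℝ))) →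
    Geo 1 0 W QC N (ev Θ (z p), ev Θ (z (p + 1)), ev Θ (z (p + 2)))
      (((z p).1 : ℝ), ((z (p + 1)).1 : ℝ), ((z (p + 2)).1 : ℝ)) (fun j => er N Θ (z (p + j)))

/-- Block BUILDP: the same with a class modulo a prime (from WEX, DET). -/
def Stmt_BUILDP : Prop := ∀ (N : Seminorm ℝ V) (Θ : V) (z : ℕ → Pt 2), IsFrame2 N Θ z →
  ∀ p, Slow z p → D3 (z p) (z (p + 1)) (z (p + 2)) ≠ 0 → ∀ (m : ℕ) (G : V3), m.Prime →
    ¬ ((m : ℤ) ∣ G.1 ∧ (m : ℤ) ∣ G.2.1 ∧ (m : ℤ) ∣ G.2.2) →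
    (∃ s : Pt 2, (m : ℤ) • s = cb G (z p) (z (p + 1)) (z (p + 2))) →
    Geo m G [(1, 0, 0), (0, 1, 0), (0, 0, 1)] [(1, 1, -1), (1, 0, 0), (-1, 1, 0), (0, -1, 1)] N
      (ev Θ (z p), ev Θ (z (p + 1)), ev Θ (z (p + 2)))
      (((z p).1 : ℝ), ((z (p + 1)).1 : ℝ), ((z (p + 2)).1 : ℝ)) (fun j => er N Θ (z (p + j)))

/-- Block CLS: classes modulo 2, 3, 5 do not occur (checker certificates). -/
def Stmt_CLS : Prop := ∀ (N : Seminorm ℝ V) (Θ : V) (z : ℕ → Pt 2), IsFrame2 N Θ z →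
  ∀ p, Slow z p → ∀ m : ℕ, m = 2 ∨ m = 3 ∨ m = 5 → ∀ G : V3,
    ¬ ((m : ℤ) ∣ G.1 ∧ (m : ℤ) ∣ G.2.1 ∧ (m : ℤ) ∣ G.2.2) →
    ¬ ∃ s : Pt 2, (m : ℤ) • s = cb G (z p) (z (p + 1)) (z (p + 2))

/-- Block BAS: a slow triple is a basis (from NZ, IDX, PDIV, CLS). -/
def Stmt_BAS : Prop := ∀ (N : Seminorm ℝ V) (Θ : V) (z : ℕ → Pt 2), IsFrame2 N Θ z →
  ∀ p, Slow z p → |D3 (z p) (z (p + 1)) (z (p + 2))| = 1

/-- The point `z (p + k)` is the combination `v` of the triple. -/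
def Is (z : ℕ → Pt 2) (p k : ℕ) (v : V3) : Prop := z (p + k) = cb v (z p) (z (p + 1)) (z (p + 2))

/-- The first classification (from BAS, CRAMER, BOX1, BUILD1, certificates). -/
def Stmt_C1 : Prop := ∀ (N : Seminorm ℝ V) (Θ : V) (z : ℕ → Pt 2), IsFrame2 N Θ z →
  ∀ p, Slow z p → (z (p + 3)).1 < (z p).1 + (z (p + 1)).1 + (z (p + 2)).1 →
    ∃ v ∈ ([(1, 1, 0), (-1, 1, 1), (1, 0, 1), (1, -1, 2), (0, 1, 1), (1, 2, 0), (-1, 1, 2),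
      (-1, 2, 1)] : List V3), Is z p 3 v

/-- The second classification (from BAS, CRAMER, BOX2, BUILD1, certificates). -/
def Stmt_C2 : Prop := ∀ (N : Seminorm ℝ V) (Θ : V) (z : ℕ → Pt 2), IsFrame2 N Θ z →
  ∀ p, Slow z p → Is z p 3 (0, 1, 1) → (z (p + 4)).1 < (z (p + 1)).1 + 2 * (z (p + 2)).1 →
    ∃ v ∈ ([(-1, 1, 2), (-1, 2, 1), (1, 0, 2), (1, 1, 1), (1, 2, 0)] : List V3), Is z p 4 v

/-- The word (numbers of letters of `Pool.Agent.Work.MP_7453a1_st.letters`) does not occur. -/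
def NoWord (w : List ℕ) : Prop :=
  ∀ (N : Seminorm ℝ V) (Θ : V) (z : ℕ → Pt 2), IsFrame2 N Θ z →
    ∀ s, ¬ Pool.Agent.Work.MP_7453a1_st.Rel z s (Pool.Agent.Work.MP_7453a1_st.wr w)

/-- The forbidden words, letters `P X Q R b c d e f S T V r E K o` numbered from 0. -/
def forb : List (List ℕ) :=
  [[0, 3], [0, 11], [0, 12], [1, 1], [1, 3], [1, 4], [1, 5], [1, 6], [1, 10], [1, 11], [1, 12],
    [2, 11], [3, 1], [5, 0], [5, 1], [8, 0], [8, 1], [0, 0, 5], [0, 0, 9], [0, 2, 1], [0, 2, 5],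
    [1, 0, 9], [1, 2, 0], [1, 2, 1], [2, 0, 8], [4, 2, 1], [5, 2, 1], [8, 2, 1], [0, 0, 1, 2],
    [0, 0, 2, 0], [0, 1, 0, 5], [0, 2, 2, 0], [1, 7, 0, 1], [0, 0, 1, 0, 1], [0, 1, 0, 1, 2],
    [0, 1, 0, 2, 0], [0, 1, 2, 2, 0], [4, 0, 1, 0, 1], [7, 0, 1, 0, 1], [0, 0, 1, 0, 0, 1], [0,
    1, 0, 1, 0, 1], [0, 2, 0, 1, 0, 1], [1, 0, 0, 0, 0, 1], [1, 0, 1, 0, 0, 1], [0, 0, 1, 0, 0,
    0, 1], [0, 0, 1, 0, 0, 0, 4], [1, 0, 0, 0, 1, 0, 0, 0], [1, 0, 1, 0, 1, 0, 0, 0], [0, 0, 1,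
    0, 0, 0, 0, 0, 1], [0, 0, 1, 0, 0, 0, 0, 0, 0, 1], [1, 0, 0, 0, 0, 0, 0, 1, 0, 0], [0, 0, 0,
    0, 0, 0, 0, 1, 0, 0, 0, 0, 0, 0, 0]]

end Pool.Agent.Work.MP_7453a1_an
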