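import Pool.Agent.Work.MP_7453a1_an.Check

set_option autoImplicit false

/-!
Soundness of the leaves of the checker (helper21).
-/

namespace Pool.Agent.Work.MP_7453a1_an

open Pool.Agent.Work.MP_7453a1_nt_norm Pool.Agent.Work.MP_7453a1_nt_h45

/-- The real triple lies in the cone of the cell. -/
def InC (w : Cell) (q : ℝ × ℝ × ℝ) : Prop :=
  ∃ a b d : ℝ, 0 ≤ a ∧ 0 ≤ b ∧ 0 ≤ d ∧
    q.1 = a * w.1.1 + b * w.2.1.1 + d * w.2.2.1 ∧
    q.2.1 = a * w.1.2.1 + b * w.2.1.2.1 + d * w.2.2.2.1 ∧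
    q.2.2 = a * w.1.2.2 + b * w.2.1.2.2 + d * w.2.2.2.2

lemma frc_eq {α : Type} (n : ℕ) (f : ℕ → α) : frc n f = f n := by cases n <;> rfl

lemma rd1_eq {α : Type} (c : ℕ) (f : ℕ → ℕ → α) : rd1 c f = f (rdr c) (rdv c) := by
  simp only [rd1, frc_eq]

lemma rd3_eq {α : Type} (c : ℕ) (f : ℕ → V3 → α) :
    rd3 c f = f (rdr (rdr (rdr c))) (sg (rdv c), sg (rdv (rdr c)), sg (rdv (rdr (rdr c)))) := by
  simp only [rd3, rd1_eq]

/-- Value of a coefficient list. -/
noncomputable def dL : List ℤ → (ℕ → ℝ) → ℝ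
  | [], _ => 0
  | a :: l, L => a * L 0 + dL l (fun i => L (i + 1))

lemma dL_addAt (l : List ℤ) (i : ℕ) (x : ℤ) (L : ℕ → ℝ) :
    dL (addAt l i x) L = dL l L + x * L i := by
  induction l generalizing i L with
  | nil =>
    induction i generalizing L with
    | zero => simp [addAt, dL]
    | succ i ih => simp only [addAt, dL, ih]; simp
  | cons a l ih =>
    cases i with
    | zero => simp only [addAt, dL]; push_cast; ring
    | succ i => simp only [addAt, dL, ih]; ring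

lemma negs_neg (l : List ℤ) : ∀ (s : ℤ) (b : Bool) (L : ℕ → ℝ), (∀ j, 0 < L j) →
    (∀ j, L (j + 1) < L j) → s ≤ 0 → negs l s b = true →
    (s : ℝ) * L 0 + dL l L ≤ 0 ∧ (b = false → (s : ℝ) * L 0 + dL l L < 0) := by
  induction l with
  | nil =>
    intro s b L hp hd hs h
    simp only [negs] at h
    subst h
    have h1 : (s : ℝ) ≤ 0 := by exact_mod_cast hs
    have := hp 0
    refine ⟨?_, fun h => by simp at h⟩
    simp only [dL, add_zero]
    nlinarith
  | cons a l ih =>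
    intro s b L hp hd hs h
    simp only [negs, Bool.and_eq_true, decide_eq_true_eq] at h
    obtain ⟨h1, h2⟩ := h
    obtain ⟨h3, h4⟩ := ih (s + a) _ (fun i => L (i + 1)) (fun j => hp (j + 1))
      (fun j => hd (j + 1)) h1 h2
    have h1' : ((s + a : ℤ) : ℝ) ≤ 0 := by exact_mod_cast h1
    have e : (s : ℝ) * L 0 + dL (a :: l) L = ((s + a : ℤ) : ℝ) * (L 0 - L 1) +
        (((s + a : ℤ) : ℝ) * L (0 + 1) + dL l (fun i => L (i + 1))) := by
      simp only [dL]; push_cast; ring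
    have hd0 : 0 < L 0 - L 1 := by have := hd 0; simp only [zero_add] at this; linarith
    have h5 : ((s + a : ℤ) : ℝ) * (L 0 - L 1) ≤ 0 := mul_nonpos_of_nonpos_of_nonneg h1' hd0.le
    rw [e]
    refine ⟨by linarith, fun hb => ?_⟩
    subst hb
    by_cases h6 : s + a < 0
    · have h7 : ((s + a : ℤ) : ℝ) < 0 := by exact_mod_cast h6
      have h8 : ((s + a : ℤ) : ℝ) * (L 0 - L 1) < 0 := mul_neg_of_neg_of_pos h7 hd0
      linarith
    · have h9 := h4 (by simp only [Bool.false_or, decide_eq_false_iff_not]; exact h6)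
      linarith

lemma negs_lt {l : List ℤ} {L : ℕ → ℝ} (hp : ∀ j, 0 < L j) (hd : ∀ j, L (j + 1) < L j)
    (h : negs l 0 false = true) : dL l L < 0 := by
  have := (negs_neg l 0 false L hp hd le_rfl h).2 rfl
  simpa using this

/-- The planar inequality. -/
lemma plan (N : Seminorm ℝ V) (a b p : V) :
    |det a b| * N p ≤ |det p b| * N a + |det a p| * N b := by
  have h := det_rel a p b
  have h1 : |det a b| * N p = N (det a b • p) := by
    rw [map_smul_eq_mul, Real.norm_eq_abs]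
  rw [h1, h]
  refine (map_add_le_add N _ _).trans ?_
  rw [map_smul_eq_mul, map_smul_eq_mul, Real.norm_eq_abs, Real.norm_eq_abs]

lemma det_vec (e : V × V × V) (A B : V3) : det (vec e A) (vec e B) = lin (cr A B) (xi e) := by
  simp only [det, vec, lin, cr, xi, Pi.add_apply, Pi.smul_apply, smul_eq_mul]
  push_cast
  ring

lemma vec_add (e : V × V × V) (a b : V3) : vec e (a + b) = vec e a + vec e b := by
  simp only [vec, Prod.fst_add, Prod.snd_add]
  push_cast
  module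

lemma vec_sub (e : V × V × V) (a b : V3) : vec e (a - b) = vec e a - vec e b := by
  simp only [vec, Prod.fst_sub, Prod.snd_sub]
  push_cast
  module

lemma vec_smul (e : V × V × V) (t : ℤ) (a : V3) : vec e (t • a) = (t : ℝ) • vec e a := by
  simp only [vec, Prod.smul_fst, Prod.smul_snd, smul_eq_mul]
  push_cast
  module

lemma vec_zero (e : V × V × V) : vec e 0 = 0 := by
  simp [vec]

/-- A form at a point of the cone. -/
lemma lin_cone {w : Cell} {q : ℝ × ℝ × ℝ} {a b d : ℝ}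
    (h1 : q.1 = a * w.1.1 + b * w.2.1.1 + d * w.2.2.1)
    (h2 : q.2.1 = a * w.1.2.1 + b * w.2.1.2.1 + d * w.2.2.2.1)
    (h3 : q.2.2 = a * w.1.2.2 + b * w.2.1.2.2 + d * w.2.2.2.2) (v : V3) :
    lin v q = a * (dot3 v w.1 : ℤ) + b * (dot3 v w.2.1 : ℤ) + d * (dot3 v w.2.2 : ℤ) := by
  simp only [lin, dot3, h1, h2, h3]
  push_cast
  ring

lemma natAbs_cast (n : ℤ) : ((n.natAbs : ℕ) : ℝ) = |(n : ℝ)| := by
  rw [← Int.cast_abs, Int.abs_eq_natAbs]; simp

section
variable {m : ℕ} {G : V3} {W QC : List V3} {N : Seminorm ℝ V} {e : V × V × V}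
  {q : ℝ × ℝ × ℝ} {L : ℕ → ℝ}

lemma legal_sound (hG : Geo m G W QC N e q L) {w : Cell} (hw : InC w q) {mu : ℕ} {P : V3} {j : ℕ}
    (h : legal m G W w mu P j = true) : (mu : ℝ) * L j ≤ N (vec e P) := by
  unfold legal at h
  split at h
  · next b hb =>
    simp only [Bool.and_eq_true, decide_eq_true_eq] at h
    obtain ⟨⟨⟨⟨h1, h2⟩, h3⟩, h4⟩, h5⟩ := h
    refine hG.leg j mu b P hb h1 h2 h3 h4 ?_
    obtain ⟨a, b', d, ha, hb', hd, e1, e2, e3⟩ := hw
    rw [lin_cone e1 e2 e3, lin_cone e1 e2 e3]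
    unfold dom at h5
    simp only [Bool.and_eq_true, decide_eq_true_eq] at h5
    obtain ⟨⟨g1, g2⟩, g3⟩ := h5
    have k : ∀ {x y : ℤ}, ((x.natAbs : ℕ) : ℤ) ≤ (mu : ℤ) * y → |(x : ℝ)| ≤ (mu : ℝ) * (y : ℝ) := by
      intro x y hxy
      rw [Int.natCast_natAbs] at hxy
      exact_mod_cast hxy
    have g1 := k g1
    have g2 := k g2
    have g3 := k g3
    have t1 := mul_le_mul_of_nonneg_left g1 ha
    have t2 := mul_le_mul_of_nonneg_left g2 hb'
    have t3 := mul_le_mul_of_nonneg_left g3 hd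
    calc |a * ((dot3 P w.1 : ℤ) : ℝ) + b' * ((dot3 P w.2.1 : ℤ) : ℝ) + d * ((dot3 P w.2.2 : ℤ) : ℝ)|
        ≤ |a * ((dot3 P w.1 : ℤ) : ℝ)| + |b' * ((dot3 P w.2.1 : ℤ) : ℝ)| +
          |d * ((dot3 P w.2.2 : ℤ) : ℝ)| := abs_add_three _ _ _
      _ = a * |((dot3 P w.1 : ℤ) : ℝ)| + b' * |((dot3 P w.2.1 : ℤ) : ℝ)| +
          d * |((dot3 P w.2.2 : ℤ) : ℝ)| := by
          rw [abs_mul, abs_mul, abs_mul, abs_of_nonneg ha, abs_of_nonneg hb', abs_of_nonneg hd]
      _ ≤ _ := by linarith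
  · simp at h

/-- Value of an accumulator. -/
noncomputable def Val (α β γ : ℝ) (L : ℕ → ℝ) (acc : Acc) : ℝ :=
  α * dL acc.1 L + β * dL acc.2.1 L + γ * dL acc.2.2 L

lemma planar_sound {x : Cell} {α β γ : ℝ} (hα : 0 ≤ α) (hβ : 0 ≤ β)
    (hγ : 0 ≤ γ) (e1 : (xi e).1 = α * x.1.1 + β * x.2.1.1 + γ * x.2.2.1)
    (e2 : (xi e).2.1 = α * x.1.2.1 + β * x.2.1.2.1 + γ * x.2.2.2.1)
    (e3 : (xi e).2.2 = α * x.1.2.2 + β * x.2.1.2.2 + γ * x.2.2.2.2)
    {k mu a b j : ℕ} {A B P : V3} (hLa : N (vec e A) = L a) (hLb : N (vec e B) = L b)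
    (hLaa : 0 ≤ L a) (hLbb : 0 ≤ L b)
    (hP : (mu : ℝ) * L j ≤ N (vec e P)) {acc acc' : Acc}
    (h : planar x k mu a b j A B P acc = some acc') : Val α β γ L acc ≤ Val α β γ L acc' := by
  unfold planar at h
  split_ifs at h with ho
  simp only [Option.some.injEq] at h
  subst h
  have hpl := plan N (vec e A) (vec e B) (vec e P)
  rw [hLa, hLb, det_vec, det_vec, det_vec, lin_cone e1 e2 e3, lin_cone e1 e2 e3,
    lin_cone e1 e2 e3] at hpl
  -- the left hand side
  have hs : |α * ((dot3 (cr A B) x.1 : ℤ) : ℝ) + β * ((dot3 (cr A B) x.2.1 : ℤ) : ℝ) +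
      γ * ((dot3 (cr A B) x.2.2 : ℤ) : ℝ)| =
      α * |((dot3 (cr A B) x.1 : ℤ) : ℝ)| + β * |((dot3 (cr A B) x.2.1 : ℤ) : ℝ)| +
      γ * |((dot3 (cr A B) x.2.2 : ℤ) : ℝ)| := by
    unfold osgn at ho
    simp only [Bool.or_eq_true, Bool.and_eq_true, decide_eq_true_eq] at ho
    rcases ho with ⟨⟨g1, g2⟩, g3⟩ | ⟨⟨g1, g2⟩, g3⟩
    · have g1 : ((dot3 (cr A B) x.1 : ℤ) : ℝ) ≤ 0 := by exact_mod_cast g1
      have g2 : ((dot3 (cr A B) x.2.1 : ℤ) : ℝ) ≤ 0 := by exact_mod_cast g2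
      have g3 : ((dot3 (cr A B) x.2.2 : ℤ) : ℝ) ≤ 0 := by exact_mod_cast g3
      rw [abs_of_nonpos g1, abs_of_nonpos g2, abs_of_nonpos g3, abs_of_nonpos]
      · ring
      · have t1 := mul_nonpos_of_nonneg_of_nonpos hα g1
        have t2 := mul_nonpos_of_nonneg_of_nonpos hβ g2
        have t3 := mul_nonpos_of_nonneg_of_nonpos hγ g3
        linarith
    · have g1 : 0 ≤ ((dot3 (cr A B) x.1 : ℤ) : ℝ) := by exact_mod_cast g1
      have g2 : 0 ≤ ((dot3 (cr A B) x.2.1 : ℤ) : ℝ) := by exact_mod_cast g2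
      have g3 : 0 ≤ ((dot3 (cr A B) x.2.2 : ℤ) : ℝ) := by exact_mod_cast g3
      rw [abs_of_nonneg g1, abs_of_nonneg g2, abs_of_nonneg g3, abs_of_nonneg]
      positivity
  have tri : ∀ C : V3, |α * ((dot3 C x.1 : ℤ) : ℝ) + β * ((dot3 C x.2.1 : ℤ) : ℝ) +
      γ * ((dot3 C x.2.2 : ℤ) : ℝ)| ≤
      α * |((dot3 C x.1 : ℤ) : ℝ)| + β * |((dot3 C x.2.1 : ℤ) : ℝ)| +
      γ * |((dot3 C x.2.2 : ℤ) : ℝ)| := by
    intro C
    refine (abs_add_three _ _ _).trans ?_
    rw [abs_mul, abs_mul, abs_mul, abs_of_nonneg hα, abs_of_nonneg hβ, abs_of_nonneg hγ]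
  have t1 := mul_le_mul_of_nonneg_right (tri (cr P B)) hLaa
  have t2 := mul_le_mul_of_nonneg_right (tri (cr A P)) hLbb
  have t3 : (α * |((dot3 (cr A B) x.1 : ℤ) : ℝ)| + β * |((dot3 (cr A B) x.2.1 : ℤ) : ℝ)| +
      γ * |((dot3 (cr A B) x.2.2 : ℤ) : ℝ)|) * ((mu : ℝ) * L j) ≤
      (α * |((dot3 (cr A B) x.1 : ℤ) : ℝ)| + β * |((dot3 (cr A B) x.2.1 : ℤ) : ℝ)| +
      γ * |((dot3 (cr A B) x.2.2 : ℤ) : ℝ)|) * N (vec e P) :=
    mul_le_mul_of_nonneg_left hP (by positivity)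
  rw [← hs] at t3
  rw [hs] at t3
  rw [hs] at hpl
  have hfin : 0 ≤ (α * |((dot3 (cr P B) x.1 : ℤ) : ℝ)| + β * |((dot3 (cr P B) x.2.1 : ℤ) : ℝ)| +
      γ * |((dot3 (cr P B) x.2.2 : ℤ) : ℝ)|) * L a +
      (α * |((dot3 (cr A P) x.1 : ℤ) : ℝ)| + β * |((dot3 (cr A P) x.2.1 : ℤ) : ℝ)| +
      γ * |((dot3 (cr A P) x.2.2 : ℤ) : ℝ)|) * L b -
      (α * |((dot3 (cr A B) x.1 : ℤ) : ℝ)| + β * |((dot3 (cr A B) x.2.1 : ℤ) : ℝ)| +
      γ * |((dot3 (cr A B) x.2.2 : ℤ) : ℝ)|) * ((mu : ℝ) * L j) := by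
    linarith
  have hk : (0 : ℝ) ≤ (k : ℝ) := Nat.cast_nonneg k
  have hfin2 := mul_nonneg hk hfin
  simp only [Val, cvert, dL_addAt]
  push_cast
  linarith

lemma terms_sound (hG : Geo m G W QC N e q L) {k : ℕ} (n : ℕ) :
    ∀ (c : ℕ) (s : V3) (l : List ℤ) {c' : ℕ} {s' : V3} {l' : List ℤ},
      terms W n c s l k = some (c', s', l') →
        (k : ℝ) * N (vec e (s' - s)) ≤ dL l' L - dL l L := by
  induction n with
  | zero =>
    intro c s l c' s' l' h
    simp only [terms, Option.some.injEq, Prod.mk.injEq] at h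
    obtain ⟨-, rfl, rfl⟩ := h
    simp [vec_zero]
  | succ n ih =>
    intro c s l c' s' l' h
    simp only [terms, rd1_eq] at h
    split at h
    · next a ha =>
      have h1 := ih _ _ _ h
      rw [dL_addAt] at h1
      push_cast at h1
      have h2 : N (vec e (s' - s)) ≤ N (vec e (s' - (s + sg (rdv (rdr c)) • a))) +
          |((sg (rdv (rdr c)) : ℤ) : ℝ)| * L (rdv c) := by
        have h3 : s' - s = (s' - (s + sg (rdv (rdr c)) • a)) + sg (rdv (rdr c)) • a := by abel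
        rw [h3, vec_add, vec_smul]
        refine (map_add_le_add N _ _).trans ?_
        rw [map_smul_eq_mul, Real.norm_eq_abs, hG.lev _ _ ha]
      have h5 := mul_le_mul_of_nonneg_left h2 (Nat.cast_nonneg (α := ℝ) k)
      linarith
    · simp at h

lemma rep_sound (hG : Geo m G W QC N e q L) {k g mu j : ℕ} {P : V3}
    (hP : (mu : ℝ) * L j ≤ N (vec e P)) {n c c' : ℕ} {s' : V3} {l0 l' : List ℤ}
    (h : terms W n c 0 (addAt l0 j (-((k * g * mu : ℕ) : ℤ))) k = some (c', s', l'))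
    (hs : s' = (g : ℤ) • P) : dL l0 L ≤ dL l' L := by
  have h1 := terms_sound hG n _ _ _ h
  rw [sub_zero, hs, vec_smul, map_smul_eq_mul, Real.norm_eq_abs, dL_addAt] at h1
  push_cast at h1
  rw [Nat.abs_cast] at h1
  have h2 : (0 : ℝ) ≤ (k : ℝ) * g := by positivity
  have h3 := mul_le_mul_of_nonneg_left hP h2
  linarith

/-- Soundness of a column. -/
lemma col_sound (hG : Geo m G W QC N e q L) {w x : Cell} (hw : InC w q) {α β γ : ℝ} (hα : 0 ≤ α)
    (hβ : 0 ≤ β) (hγ : 0 ≤ γ) (e1 : (xi e).1 = α * x.1.1 + β * x.2.1.1 + γ * x.2.2.1)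
    (e2 : (xi e).2.1 = α * x.1.2.1 + β * x.2.1.2.1 + γ * x.2.2.2.1)
    (e3 : (xi e).2.2 = α * x.1.2.2 + β * x.2.1.2.2 + γ * x.2.2.2.2)
    {c c' : ℕ} {acc acc' : Acc} (h : col m G W w x c acc = some (c', acc')) :
    Val α β γ L acc ≤ Val α β γ L acc' := by
  have hpos : ∀ j, 0 ≤ L j := fun j => (hG.pos j).le
  simp only [col, rd1_eq, rd3_eq] at h
  split at h
  · split at h
    · next A B hA hB =>
      split_ifs at h with hl
      all_goals
        simp only [Option.map_eq_some_iff, Prod.mk.injEq] at h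
        obtain ⟨r, hr, -, rfl⟩ := h
        exact planar_sound hα hβ hγ e1 e2 e3 (hG.lev _ _ hA) (hG.lev _ _ hB) (hpos _) (hpos _)
          (legal_sound hG hw (by assumption)) hr
    · simp at h
  · split at h
    · next A B P hA hB hP =>
      simp only [Option.map_eq_some_iff, Prod.mk.injEq] at h
      obtain ⟨r, hr, -, rfl⟩ := h
      refine planar_sound hα hβ hγ e1 e2 e3 (hG.lev _ _ hA) (hG.lev _ _ hB) (hpos _) (hpos _)
        ?_ hr
      rw [hG.lev _ _ hP]
      simp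
    · simp at h
  · next v hv =>
    generalize (if rdv (rdr (rdr (rdr c))) = 0 then 1 else m) = mu at h
    split at h
    · next hl =>
      have hP := legal_sound hG hw hl
      split at h
      · next c1 s1 l1 ht =>
        split at h
        · next hs =>
          simp only [Option.some.injEq, Prod.mk.injEq] at h
          obtain ⟨-, rfl⟩ := h
          rcases v with _ | _ | v
          · have h1 : α * dL acc.1 L ≤ α * dL l1 L :=
              mul_le_mul_of_nonneg_left (rep_sound hG hP ht hs) hα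
            simp only [Val]
            linarith
          · have h1 : β * dL acc.2.1 L ≤ β * dL l1 L :=
              mul_le_mul_of_nonneg_left (rep_sound hG hP ht hs) hβ
            simp only [Val]
            linarith
          · have h1 : γ * dL acc.2.2 L ≤ γ * dL l1 L :=
              mul_le_mul_of_nonneg_left (rep_sound hG hP ht hs) hγ
            simp only [Val]
            linarith
        · simp at h
      · simp at h
    · simp at h

/-- Soundness of the columns. -/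
lemma cols_sound (hG : Geo m G W QC N e q L) {w x : Cell} (hw : InC w q) {α β γ : ℝ} (hα : 0 ≤ α)
    (hβ : 0 ≤ β) (hγ : 0 ≤ γ) (e1 : (xi e).1 = α * x.1.1 + β * x.2.1.1 + γ * x.2.2.1)
    (e2 : (xi e).2.1 = α * x.1.2.1 + β * x.2.1.2.1 + γ * x.2.2.2.1)
    (e3 : (xi e).2.2 = α * x.1.2.2 + β * x.2.1.2.2 + γ * x.2.2.2.2) (n : ℕ) :
    ∀ (c : ℕ) (acc : Acc) {c' : ℕ}, cols m G W w x n c acc = some c' →
      0 ≤ Val α β γ L acc → False := by
  induction n with
  | zero =>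
    intro c acc c' h h0
    simp only [cols] at h
    split_ifs at h with hn
    simp only [Bool.and_eq_true] at hn
    obtain ⟨⟨n1, n2⟩, n3⟩ := hn
    have n1 := negs_lt hG.pos hG.dec n1
    have n2 := negs_lt hG.pos hG.dec n2
    have n3 := negs_lt hG.pos hG.dec n3
    have p1 := mul_nonpos_of_nonneg_of_nonpos hα n1.le
    have p2 := mul_nonpos_of_nonneg_of_nonpos hβ n2.le
    have p3 := mul_nonpos_of_nonneg_of_nonpos hγ n3.le
    unfold Val at h0
    have q1 : α * dL acc.1 L = 0 := by linarith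
    have q2 : β * dL acc.2.1 L = 0 := by linarith
    have q3 : γ * dL acc.2.2 L = 0 := by linarith
    have a0 : α = 0 := by
      rcases mul_eq_zero.mp q1 with h | h
      · exact h
      · exact absurd h n1.ne
    have b0 : β = 0 := by
      rcases mul_eq_zero.mp q2 with h | h
      · exact h
      · exact absurd h n2.ne
    have g0 : γ = 0 := by
      rcases mul_eq_zero.mp q3 with h | h
      · exact h
      · exact absurd h n3.ne
    subst a0 b0 g0
    apply hG.nz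
    refine Prod.ext ?_ (Prod.ext ?_ ?_)
    · rw [e1]; simp
    · rw [e2]; simp
    · rw [e3]; simp
  | succ n ih =>
    intro c acc c' h h0
    simp only [cols] at h
    split at h
    · next c1 acc1 h1 =>
      exact ih _ _ h (h0.trans (col_sound hG hw hα hβ hγ e1 e2 e3 h1))
    · simp at h

/-- Soundness of a leaf. -/
theorem leaf_sound (hG : Geo m G W QC N e q L) {w x : Cell} (hw : InC w q) (hx : InC x (xi e))
    {k c c' : ℕ} (h : cols m G W w x k c ([], [], []) = some c') : False := by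
  obtain ⟨α, β, γ, hα, hβ, hγ, e1, e2, e3⟩ := hx
  exact cols_sound hG hw hα hβ hγ e1 e2 e3 k c _ h (by simp [Val, dL])

end

end Pool.Agent.Work.MP_7453a1_an

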