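import Pool.Agent.Work.MP_7453a1_nt_norm.Defs

set_option autoImplicit false

/-!
Block LP: the `l^p` norms of the plane with `10/7 ≤ p ≤ 10/3` are within a factor `d`,
`d ^ 2 < 1.32`, of a Euclidean norm.
-/

namespace Pool.Agent.Work.MP_7453a1_an

open Pool.Agent.Work.MP_7453a1_nt_norm

/-- The `l^p` norm of the plane. -/
noncomputable def lpN (p : ℝ) (h : 1 ≤ p) : Seminorm ℝ (Fin 2 → ℝ) :=
  Seminorm.of (fun x => (|x 0| ^ p + |x 1| ^ p) ^ (1 / p))
    (by
      intro x y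
      have := Real.Lp_add_le (Finset.univ : Finset (Fin 2)) x y h
      simpa [Fin.sum_univ_two] using this)
    (by
      intro a x
      have hp : 0 < p := by linarith
      have h1 : |(a • x) 0| ^ p + |(a • x) 1| ^ p = |a| ^ p * (|x 0| ^ p + |x 1| ^ p) := by
        simp only [Pi.smul_apply, smul_eq_mul, abs_mul]
        rw [Real.mul_rpow (abs_nonneg _) (abs_nonneg _),
          Real.mul_rpow (abs_nonneg _) (abs_nonneg _)]
        ring
      show (|(a • x) 0| ^ p + |(a • x) 1| ^ p) ^ (1 / p) =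
        ‖a‖ * (|x 0| ^ p + |x 1| ^ p) ^ (1 / p)
      rw [h1, Real.mul_rpow (by positivity) (by positivity), ← Real.rpow_mul (abs_nonneg _),
        mul_one_div_cancel hp.ne', Real.rpow_one, Real.norm_eq_abs])

theorem lpN_apply (p : ℝ) (h : 1 ≤ p) (x : Fin 2 → ℝ) :
    lpN p h x = (|x 0| ^ p + |x 1| ^ p) ^ (1 / p) := rfl

theorem lp_two {r u v : ℝ} (hr : 1 ≤ r) (hu : 0 ≤ u) (hv : 0 ≤ v) :
    u ^ r + v ^ r ≤ (u + v) ^ r ∧ (u + v) ^ r ≤ 2 ^ (r - 1) * (u ^ r + v ^ r) := by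
  constructor
  · have := NNReal.add_rpow_le_rpow_add ⟨u, hu⟩ ⟨v, hv⟩ hr
    exact_mod_cast this
  · have := NNReal.rpow_add_le_mul_rpow_add_rpow ⟨u, hu⟩ ⟨v, hv⟩ hr
    exact_mod_cast this

theorem two_rpow_lt {e : ℝ} (he : e ≤ 2 / 5) : (2 : ℝ) ^ e < 1.32 := by
  have h1 : (2 : ℝ) ^ e ≤ (2 : ℝ) ^ ((2 : ℝ) / 5) :=
    Real.rpow_le_rpow_of_exponent_le (by norm_num) he
  refine lt_of_le_of_lt h1 ?_
  have h2 : ((2 : ℝ) ^ ((2 : ℝ) / 5)) ^ (5 : ℕ) = 4 := by
    rw [← Real.rpow_natCast, ← Real.rpow_mul (by norm_num)]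
    norm_num
  by_contra hc
  push Not at hc
  have h3 : (1.32 : ℝ) ^ 5 ≤ ((2 : ℝ) ^ ((2 : ℝ) / 5)) ^ (5 : ℕ) :=
    pow_le_pow_left₀ (by norm_num) hc 5
  rw [h2] at h3
  norm_num at h3

theorem lp_near (p : ℝ) (h1 : 10 / 7 ≤ p) (h2 : p ≤ 10 / 3) :
    ∃ N : Seminorm ℝ (Fin 2 → ℝ), (∀ x, N x = (|x 0| ^ p + |x 1| ^ p) ^ (1 / p)) ∧
      Pool.Agent.Work.MP_7453a1_nt_norm.IsNorm N ∧
      ∃ (A : (Fin 2 → ℝ) →ₗ[ℝ] (Fin 2 → ℝ)) (d : ℝ), d ^ 2 < 1.32 ∧
        ∀ x, N x ^ 2 ≤ ∑ i, A x i ^ 2 ∧ ∑ i, A x i ^ 2 ≤ d ^ 2 * N x ^ 2 := by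
  have hp1 : 1 ≤ p := by linarith
  have hp : 0 < p := by linarith
  refine ⟨lpN p hp1, fun x => rfl, ?_, ?_⟩
  · intro x hx
    rw [lpN_apply] at hx
    have h0 : 0 ≤ |x 0| ^ p := by positivity
    have h0' : 0 ≤ |x 1| ^ p := by positivity
    have hs : |x 0| ^ p + |x 1| ^ p = 0 := by
      rcases (Real.rpow_eq_zero_iff_of_nonneg (by positivity)).1 hx with ⟨h, -⟩
      exact h
    have ha : |x 0| ^ p = 0 := by linarith
    have hb : |x 1| ^ p = 0 := by linarith
    have ha' := (Real.rpow_eq_zero_iff_of_nonneg (abs_nonneg _)).1 ha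
    have hb' := (Real.rpow_eq_zero_iff_of_nonneg (abs_nonneg _)).1 hb
    funext i
    fin_cases i
    · simpa using ha'.1
    · simpa using hb'.1
  · have hN2 : ∀ x, (lpN p hp1 x) ^ 2 = (|x 0| ^ p + |x 1| ^ p) ^ (2 / p) := by
      intro x
      rw [lpN_apply, ← Real.rpow_natCast, ← Real.rpow_mul (by positivity)]
      congr 1
      push_cast
      ring
    rcases le_total p 2 with hp2 | hp2
    · -- p ≤ 2
      have hr : 1 ≤ 2 / p := by rw [le_div_iff₀ hp]; linarith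
      set c : ℝ := (2 : ℝ) ^ (2 / p - 1) with hc
      have hc0 : 0 < c := by positivity
      refine ⟨(Real.sqrt c) • LinearMap.id, Real.sqrt c, ?_, ?_⟩
      · rw [Real.sq_sqrt hc0.le]
        apply two_rpow_lt
        have : 2 / p ≤ 7 / 5 := by rw [div_le_iff₀ hp]; linarith
        linarith
      · intro x
        have hA : ∑ i, ((Real.sqrt c) • (LinearMap.id : (Fin 2 → ℝ) →ₗ[ℝ] (Fin 2 → ℝ))) x i ^ 2
            = c * (x 0 ^ 2 + x 1 ^ 2) := by
          rw [Fin.sum_univ_two]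
          simp only [LinearMap.smul_apply, LinearMap.id_coe, id_eq, Pi.smul_apply, smul_eq_mul,
            mul_pow, Real.sq_sqrt hc0.le]
          ring
        have hu : ∀ y : ℝ, (|y| ^ p) ^ (2 / p) = y ^ 2 := by
          intro y
          rw [← Real.rpow_mul (abs_nonneg _), mul_div_cancel₀ _ hp.ne', Real.rpow_two, sq_abs]
        obtain ⟨e1, e2⟩ := lp_two hr (u := |x 0| ^ p) (v := |x 1| ^ p) (by positivity)
          (by positivity)
        rw [hu, hu] at e1 e2
        rw [hA, hN2, Real.sq_sqrt hc0.le]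
        exact ⟨e2, mul_le_mul_of_nonneg_left e1 hc0.le⟩
    · -- 2 ≤ p
      have hr : 1 ≤ p / 2 := by linarith
      set c : ℝ := (2 : ℝ) ^ (1 - 2 / p) with hc
      have hc0 : 0 < c := by positivity
      refine ⟨LinearMap.id, Real.sqrt c, ?_, ?_⟩
      · rw [Real.sq_sqrt hc0.le]
        apply two_rpow_lt
        have : 3 / 5 ≤ 2 / p := by rw [le_div_iff₀ hp]; linarith
        linarith
      · intro x
        have hA : ∑ i, (LinearMap.id : (Fin 2 → ℝ) →ₗ[ℝ] (Fin 2 → ℝ)) x i ^ 2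
            = x 0 ^ 2 + x 1 ^ 2 := by
          rw [Fin.sum_univ_two]
          simp
        have hu : ∀ y : ℝ, (y ^ 2) ^ (p / 2) = |y| ^ p := by
          intro y
          rw [← sq_abs, ← Real.rpow_two, ← Real.rpow_mul (abs_nonneg _)]
          congr 1
          ring
        obtain ⟨e1, e2⟩ := lp_two hr (u := x 0 ^ 2) (v := x 1 ^ 2) (by positivity)
          (by positivity)
        rw [hu, hu] at e1 e2
        have hback : ∀ y : ℝ, 0 ≤ y → (y ^ (p / 2)) ^ (2 / p) = y := by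
          intro y hy
          rw [← Real.rpow_mul hy]
          have : p / 2 * (2 / p) = 1 := by field_simp
          rw [this, Real.rpow_one]
        have h2p : 0 ≤ 2 / p := by positivity
        rw [hA, hN2, Real.sq_sqrt hc0.le]
        constructor
        · have := Real.rpow_le_rpow (by positivity) e1 h2p
          rwa [hback _ (by positivity)] at this
        · have := Real.rpow_le_rpow (by positivity) e2 h2p
          rw [hback _ (by positivity), Real.mul_rpow (by positivity) (by positivity)] at this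
          have hcc : ((2 : ℝ) ^ (p / 2 - 1)) ^ (2 / p) = c := by
            rw [hc, ← Real.rpow_mul (by norm_num)]
            congr 1
            field_simp
          rwa [hcc] at this

end Pool.Agent.Work.MP_7453a1_an
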