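import Pool.Agent.Work.MP_7453a1_an.Interface

set_option autoImplicit false

/-!
Block MINK: Minkowski's convex body theorem for the prism over a double cone (helper21).
-/

namespace Pool.Agent.Work.MP_7453a1_an

open Pool.Agent.Work.MP_7453a1_nt_norm Pool.Agent.Work.MP_7453a1_nt_h45
open Pool.Agent.Work.MP_7453a1_nt_sym (IsFrame2)

/-- Minkowski for three linear forms, strict inequalities. -/
theorem mink_box (A : Matrix (Fin 3) (Fin 3) ℝ) (c : Fin 3 → ℝ) (hc : ∀ i, 0 < c i)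
    (h : 1 < |A.det| * (c 0 * c 1 * c 2)) :
    ∃ k : Fin 3 → ℤ, k ≠ 0 ∧ ∃ x : Fin 3 → ℝ, (∀ i, |x i| < c i) ∧
      ∀ j, (k j : ℝ) = ∑ i, x i * A i j := by
  classical
  set f : (Fin 3 → ℝ) →ₗ[ℝ] (Fin 3 → ℝ) := Matrix.toLin' A.transpose with hf
  set Q : Set (Fin 3 → ℝ) := Set.pi Set.univ fun i => Set.Ioo (-(c i)) (c i) with hQ
  set s : Set (Fin 3 → ℝ) := f '' Q with hs
  set b := Pi.basisFun ℝ (Fin 3) with hb
  have hQc : Convex ℝ Q := convex_pi fun _ _ => convex_Ioo _ _
  have hsym : ∀ x ∈ s, -x ∈ s := by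
    rintro _ ⟨x, hx, rfl⟩
    refine ⟨-x, fun i hi => ?_, by rw [map_neg]⟩
    have := hx i hi
    simp only [Set.mem_Ioo, Pi.neg_apply] at this ⊢
    constructor <;> linarith [this.1, this.2]
  have hc0 := hc 0
  have hc1 := hc 1
  have hc2 := hc 2
  have hvolQ : MeasureTheory.volume Q = ENNReal.ofReal (8 * (c 0 * c 1 * c 2)) := by
    rw [hQ, Real.volume_pi_Ioo, Fin.prod_univ_three, ← ENNReal.ofReal_mul (by linarith),
      ← ENNReal.ofReal_mul (by
        apply mul_nonneg <;> linarith)]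
    congr 1
    ring
  have hdet : LinearMap.det f = A.det := by
    rw [hf, LinearMap.det_toLin', Matrix.det_transpose]
  have hvol : MeasureTheory.volume s = ENNReal.ofReal (|A.det| * (8 * (c 0 * c 1 * c 2))) := by
    rw [hs, MeasureTheory.Measure.addHaar_image_linearMap, hdet, hvolQ,
      ← ENNReal.ofReal_mul (abs_nonneg _)]
  have hF : MeasureTheory.volume (ZSpan.fundamentalDomain b) = 1 := by
    rw [hb, ZSpan.fundamentalDomain_pi_basisFun, Real.volume_pi_Ico]
    simp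
  have hlt : MeasureTheory.volume (ZSpan.fundamentalDomain b) *
      2 ^ Module.finrank ℝ (Fin 3 → ℝ) < MeasureTheory.volume s := by
    rw [hF, one_mul, Module.finrank_fin_fun, hvol]
    have h1 : (2 : ENNReal) ^ 3 = ENNReal.ofReal 8 := by norm_num
    rw [h1]
    refine (ENNReal.ofReal_lt_ofReal_iff_of_nonneg (by positivity)).2 ?_
    nlinarith
  have : Countable (Submodule.span ℤ (Set.range b)).toAddSubgroup := by
    change Countable (Submodule.span ℤ (Set.range b))
    infer_instance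
  obtain ⟨x, hx0, hx⟩ := MeasureTheory.exists_ne_zero_mem_lattice_of_measure_mul_two_pow_lt_measure
    (L := (Submodule.span ℤ (Set.range b)).toAddSubgroup)
    (ZSpan.isAddFundamentalDomain' b MeasureTheory.volume) hsym (hQc.linear_image f) hlt
  have hxm : (x : Fin 3 → ℝ) ∈ Submodule.span ℤ (Set.range b) := x.2
  have hk : ∀ i, ∃ k : ℤ, (k : ℝ) = (x : Fin 3 → ℝ) i := by
    intro i
    have h1 := (b.mem_span_iff_repr_mem ℤ (x : Fin 3 → ℝ)).1 hxm i
    obtain ⟨k, hk⟩ := h1
    refine ⟨k, ?_⟩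
    have h2 : b.repr (x : Fin 3 → ℝ) i = (x : Fin 3 → ℝ) i :=
      Pi.basisFun_repr ℝ (Fin 3) (x : Fin 3 → ℝ) i
    rw [← h2, ← hk]
    simp
  choose k hk using hk
  obtain ⟨y, hy, hyx⟩ := hx
  refine ⟨k, ?_, y, fun i => ?_, fun j => ?_⟩
  · intro h0
    apply hx0
    apply Subtype.ext
    funext i
    rw [← hk i, h0]
    simp
  · have := hy i (Set.mem_univ i)
    rw [Set.mem_Ioo] at this
    exact abs_lt.mpr this
  · rw [hk j, ← hyx, hf, Matrix.toLin'_apply, Matrix.mulVec]
    simp only [dotProduct, Matrix.transpose_apply]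
    exact Finset.sum_congr rfl fun i _ => mul_comm _ _

theorem MINK : Stmt_MINK := by
  intro N Θ z hz j u v hu hv
  by_contra hcon
  push Not at hcon
  set a : V := ev Θ u with ha
  set b : V := ev Θ v with hb
  set M : ℝ := ((z (j + 1)).1 : ℝ) with hM
  set r : ℝ := er N Θ (z j) with hr
  have hM0 : 0 < M := by
    have := hz.pos (j + 1)
    rw [hM]
    exact_mod_cast this
  have hr0 : 0 < r := lt_of_le_of_lt (er_nonneg (z (j + 1))) (hz.anti j (j + 1) (by omega))
  have hNa : N a ≤ r := hu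
  have hNb : N b ≤ r := hv
  have hdet : (!![1, Θ 0, Θ 1; 0, -((a 0 + b 0) / 2), -((a 1 + b 1) / 2);
      0, -((a 0 - b 0) / 2), -((a 1 - b 1) / 2)] : Matrix (Fin 3) (Fin 3) ℝ).det =
      -(det a b / 2) := by
    rw [Matrix.det_fin_three]
    simp only [Matrix.of_apply, Matrix.cons_val', Matrix.cons_val_zero, Matrix.cons_val_one,
      Matrix.cons_val, det]
    ring
  obtain ⟨k, hk0, x, hx, hkx⟩ := mink_box
    (!![1, Θ 0, Θ 1; 0, -((a 0 + b 0) / 2), -((a 1 + b 1) / 2);
      0, -((a 0 - b 0) / 2), -((a 1 - b 1) / 2)]) ![M, 1, 1]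
    (by intro i; fin_cases i <;> simp [hM0]) (by
      rw [hdet, abs_neg, abs_div, abs_two]
      simp only [Matrix.cons_val_zero, Matrix.cons_val_one, Matrix.cons_val]
      linarith)
  have x0 := hx 0
  have x1 := hx 1
  have x2 := hx 2
  have k0 := hkx 0
  have k1 := hkx 1
  have k2 := hkx 2
  simp only [Fin.sum_univ_three, Matrix.of_apply, Matrix.cons_val', Matrix.cons_val_zero,
    Matrix.cons_val_one, Matrix.cons_val, mul_one, mul_zero, add_zero] at x0 x1 x2 k0 k1 k2
  set w : Pt 2 := (k 0, ![k 1, k 2]) with hw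
  have hw0 : w ≠ 0 := by
    intro h0
    apply hk0
    have h1 := congrArg Prod.fst h0
    have h2 := congrFun (congrArg Prod.snd h0) 0
    have h3 := congrFun (congrArg Prod.snd h0) 1
    simp [hw] at h1 h2 h3
    funext i
    fin_cases i
    · exact h1
    · exact h2
    · exact h3
  have hw1 : |w.1| < (z (j + 1)).1 := by
    have h1 : |((k 0 : ℤ) : ℝ)| < ((z (j + 1)).1 : ℝ) := by rw [k0]; exact x0
    exact_mod_cast h1
  have hle := hz.excl j w hw0 hw1
  have hev : ev Θ w = ((x 1 + x 2) / 2) • a + ((x 1 - x 2) / 2) • b := by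
    ext i
    have e : ev Θ w i = (w.1 : ℝ) * Θ i - w.2 i := rfl
    rw [e]
    fin_cases i
    · simp only [hw, Fin.zero_eta, Fin.isValue, Matrix.cons_val_zero, Pi.add_apply, Pi.smul_apply,
        smul_eq_mul]
      rw [k0, k1]
      ring
    · simp only [hw, Fin.mk_one, Fin.isValue, Matrix.cons_val_one, Matrix.cons_val_fin_one,
        Pi.add_apply, Pi.smul_apply, smul_eq_mul]
      rw [k0, k2]
      ring
  have hlt : er N Θ w < r := by
    have h1 : er N Θ w ≤ |(x 1 + x 2) / 2| * N a + |(x 1 - x 2) / 2| * N b := by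
      unfold er
      rw [hev]
      refine (map_add_le_add N _ _).trans ?_
      rw [map_smul_eq_mul, map_smul_eq_mul, Real.norm_eq_abs, Real.norm_eq_abs]
    have h2 : |(x 1 + x 2) / 2| * N a ≤ |(x 1 + x 2) / 2| * r :=
      mul_le_mul_of_nonneg_left hNa (abs_nonneg _)
    have h3 : |(x 1 - x 2) / 2| * N b ≤ |(x 1 - x 2) / 2| * r :=
      mul_le_mul_of_nonneg_left hNb (abs_nonneg _)
    have h4 : |(x 1 + x 2) / 2| + |(x 1 - x 2) / 2| < 1 := by
      obtain ⟨p1, p2⟩ := abs_lt.mp x1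
      obtain ⟨p3, p4⟩ := abs_lt.mp x2
      rcases abs_cases ((x 1 + x 2) / 2) with ⟨e1, _⟩ | ⟨e1, _⟩ <;>
        rcases abs_cases ((x 1 - x 2) / 2) with ⟨e2, _⟩ | ⟨e2, _⟩ <;> rw [e1, e2] <;> linarith
    nlinarith
  exact absurd hlt (not_lt.mpr hle)

end Pool.Agent.Work.MP_7453a1_an

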