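import Pool.Agent.Work.MP_7453a1_an.Interface

set_option autoImplicit false

/-!
Block NZ: the points of a slow triple are independent.
-/

namespace Pool.Agent.Work.MP_7453a1_an

open Pool.Agent.Work.MP_7453a1_nt_norm Pool.Agent.Work.MP_7453a1_nt_h45
open Pool.Agent.Work.MP_7453a1_nt_sym (IsFrame2)

namespace NZ

variable {N : Seminorm ℝ V} {Θ : V} {z : ℕ → Pt 2}

/-- First coordinate of the cross product. -/
def n0 (a b : Pt 2) : ℤ := a.2 0 * b.2 1 - a.2 1 * b.2 0
/-- Second coordinate of the cross product. -/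
def n1 (a b : Pt 2) : ℤ := a.2 1 * b.1 - a.1 * b.2 1
/-- Third coordinate of the cross product. -/
def n2 (a b : Pt 2) : ℤ := a.1 * b.2 0 - a.2 0 * b.1

lemma D3_eq (a b c : Pt 2) : D3 a b c = c.1 * n0 a b + c.2 0 * n1 a b + c.2 1 * n2 a b := by
  unfold D3 n0 n1 n2; ring

lemma D3_rot (a b c : Pt 2) : D3 b c a = D3 a b c := by
  unfold D3; ring

lemma er_pos (h : IsFrame2 N Θ z) (k : ℕ) : 0 < er N Θ (z k) :=
  lt_of_le_of_lt (er_nonneg _) (h.anti k (k + 1) (Nat.lt_succ_self k))

lemma er_zsmul (s : ℤ) (w : Pt 2) : er N Θ (s • w) = |(s : ℝ)| * er N Θ w := by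
  unfold er
  rw [map_zsmul, ← Int.cast_smul_eq_zsmul ℝ, map_smul_eq_mul, Real.norm_eq_abs]

/-- Consecutive points are not parallel. -/
lemma ne (h : IsFrame2 N Θ z) (k : ℕ) :
    n0 (z k) (z (k + 1)) ≠ 0 ∨ n1 (z k) (z (k + 1)) ≠ 0 ∨ n2 (z k) (z (k + 1)) ≠ 0 := by
  by_contra hcon
  push Not at hcon
  obtain ⟨_, h1, h2⟩ := hcon
  have e : (z (k + 1)).1 • z k = (z k).1 • z (k + 1) := by
    unfold n1 at h1
    unfold n2 at h2
    refine Prod.ext ?_ ?_
    · simp only [Prod.smul_fst, smul_eq_mul]; ring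
    · ext i
      fin_cases i
      · simp only [Prod.smul_snd, Pi.smul_apply, smul_eq_mul, Fin.zero_eta]; linarith
      · simp only [Prod.smul_snd, Pi.smul_apply, smul_eq_mul, Fin.mk_one]; linarith
  have e1 := congrArg (er N Θ) e
  rw [er_zsmul, er_zsmul] at e1
  have p0 : (0 : ℝ) < ((z k).1 : ℝ) := by exact_mod_cast h.pos k
  have p1 : ((z k).1 : ℝ) < ((z (k + 1)).1 : ℝ) := by
    exact_mod_cast h.mono k (k + 1) (Nat.lt_succ_self k)
  rw [abs_of_pos p0, abs_of_pos (p0.trans p1)] at e1
  have a1 := h.anti k (k + 1) (Nat.lt_succ_self k)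
  have a0 := er_pos h (k + 1)
  nlinarith

/-- Consecutive points are a basis of the lattice points of their plane. -/
lemma basis (h : IsFrame2 N Θ z) (k : ℕ) (w : Pt 2) (hD : D3 (z k) (z (k + 1)) w = 0) :
    ∃ p q : ℤ, w = p • z k + q • z (k + 1) := by
  set a := z k with ha
  set b := z (k + 1) with hb
  have hn := ne h k
  rw [← ha, ← hb] at hn
  rw [D3_eq] at hD
  have hs : 0 < n0 a b ^ 2 + n1 a b ^ 2 + n2 a b ^ 2 := by
    rcases hn with hn | hn | hn
    · have := pow_pos (abs_pos.mpr hn) 2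
      rw [sq_abs] at this
      nlinarith [sq_nonneg (n1 a b), sq_nonneg (n2 a b)]
    · have := pow_pos (abs_pos.mpr hn) 2
      rw [sq_abs] at this
      nlinarith [sq_nonneg (n0 a b), sq_nonneg (n2 a b)]
    · have := pow_pos (abs_pos.mpr hn) 2
      rw [sq_abs] at this
      nlinarith [sq_nonneg (n0 a b), sq_nonneg (n1 a b)]
  obtain ⟨p, q, s, hs, he⟩ : ∃ p q s : ℤ, 0 < s ∧ s • w = p • a + q • b := by
    refine ⟨n0 w b * n0 a b + n1 w b * n1 a b + n2 w b * n2 a b,
      n0 a w * n0 a b + n1 a w * n1 a b + n2 a w * n2 a b, _, hs, ?_⟩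
    refine Prod.ext ?_ ?_
    · simp only [Prod.smul_fst, Prod.fst_add, smul_eq_mul]
      have : (n0 a b ^ 2 + n1 a b ^ 2 + n2 a b ^ 2) * w.1 =
          (n0 w b * n0 a b + n1 w b * n1 a b + n2 w b * n2 a b) * a.1 +
          (n0 a w * n0 a b + n1 a w * n1 a b + n2 a w * n2 a b) * b.1 +
          n0 a b * (w.1 * n0 a b + w.2 0 * n1 a b + w.2 1 * n2 a b) := by
        unfold n0 n1 n2; ring
      rw [this, hD]; ring
    · ext i
      fin_cases i
      · simp only [Prod.smul_snd, Prod.snd_add, Pi.smul_apply, Pi.add_apply, smul_eq_mul,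
          Fin.zero_eta]
        have : (n0 a b ^ 2 + n1 a b ^ 2 + n2 a b ^ 2) * w.2 0 =
            (n0 w b * n0 a b + n1 w b * n1 a b + n2 w b * n2 a b) * a.2 0 +
            (n0 a w * n0 a b + n1 a w * n1 a b + n2 a w * n2 a b) * b.2 0 +
            n1 a b * (w.1 * n0 a b + w.2 0 * n1 a b + w.2 1 * n2 a b) := by
          unfold n0 n1 n2; ring
        rw [this, hD]; ring
      · simp only [Prod.smul_snd, Prod.snd_add, Pi.smul_apply, Pi.add_apply, smul_eq_mul,
          Fin.mk_one]
        have : (n0 a b ^ 2 + n1 a b ^ 2 + n2 a b ^ 2) * w.2 1 =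
            (n0 w b * n0 a b + n1 w b * n1 a b + n2 w b * n2 a b) * a.2 1 +
            (n0 a w * n0 a b + n1 a w * n1 a b + n2 a w * n2 a b) * b.2 1 +
            n2 a b * (w.1 * n0 a b + w.2 0 * n1 a b + w.2 1 * n2 a b) := by
          unfold n0 n1 n2; ring
        rw [this, hD]; ring
  -- nearest integers
  have near : ∀ x : ℤ, ∃ y : ℤ, 2 * |x - s * y| ≤ s := by
    intro x
    refine ⟨(2 * x + s) / (2 * s), ?_⟩
    have h1 := Int.emod_nonneg (2 * x + s) (show 2 * s ≠ 0 by omega)
    have h2 := Int.emod_lt_of_pos (2 * x + s) (show 0 < 2 * s by omega)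
    have h3 := Int.emod_add_mul_ediv (2 * x + s) (2 * s)
    set y := (2 * x + s) / (2 * s)
    rcases abs_cases (x - s * y) with ⟨h5, _⟩ | ⟨h5, _⟩ <;> rw [h5] <;> nlinarith
  obtain ⟨p', hp'⟩ := near p
  obtain ⟨q', hq'⟩ := near q
  refine ⟨p', q', ?_⟩
  by_contra hne
  set u : Pt 2 := w - (p' • a + q' • b) with hu
  have hu0 : u ≠ 0 := fun h0 => hne (sub_eq_zero.mp h0)
  have hsu : s • u = (p - s * p') • a + (q - s * q') • b := by
    rw [hu, smul_sub, he, smul_add, sub_smul, sub_smul, mul_smul, mul_smul]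
    abel
  have hsR : (0 : ℝ) < (s : ℝ) := by exact_mod_cast hs
  have hp2 : |((p - s * p' : ℤ) : ℝ)| ≤ s / 2 := by
    have : ((2 * |p - s * p'| : ℤ) : ℝ) ≤ ((s : ℤ) : ℝ) := by exact_mod_cast hp'
    push_cast at this ⊢
    linarith
  have hq2 : |((q - s * q' : ℤ) : ℝ)| ≤ s / 2 := by
    have : ((2 * |q - s * q'| : ℤ) : ℝ) ≤ ((s : ℤ) : ℝ) := by exact_mod_cast hq'
    push_cast at this ⊢
    linarith
  have hM : a.1 < b.1 := h.mono k (k + 1) (Nat.lt_succ_self k)
  have ha0 : 0 < a.1 := h.pos k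
  have hf : s * u.1 = (p - s * p') * a.1 + (q - s * q') * b.1 := by
    have := congrArg Prod.fst hsu
    simpa only [Prod.smul_fst, Prod.fst_add, smul_eq_mul] using this
  have hu1 : |u.1| < b.1 := by
    have h1 : s * |u.1| ≤ |p - s * p'| * a.1 + |q - s * q'| * b.1 := by
      have e : s * |u.1| = |s * u.1| := by rw [abs_mul, abs_of_pos hs]
      rw [e, hf]
      refine (abs_add_le _ _).trans ?_
      rw [abs_mul, abs_mul, abs_of_pos ha0, abs_of_pos (ha0.trans hM)]
    have h2 : 2 * (s * |u.1|) < 2 * (s * b.1) := by nlinarith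
    have h3 : s * |u.1| < s * b.1 := by linarith
    exact lt_of_mul_lt_mul_left h3 hs.le
  have hv2 : er N Θ u < er N Θ a := by
    have hL : er N Θ b < er N Θ a := h.anti k (k + 1) (Nat.lt_succ_self k)
    have h1 : (s : ℝ) * er N Θ u ≤ s / 2 * er N Θ a + s / 2 * er N Θ b := by
      have e : (s : ℝ) * er N Θ u = er N Θ (s • u) := by
        rw [er_zsmul, abs_of_pos hsR]
      rw [e, hsu]
      have e2 : er N Θ ((p - s * p') • a + (q - s * q') • b) ≤
          er N Θ ((p - s * p') • a) + er N Θ ((q - s * q') • b) := by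
        unfold er; rw [map_add]; exact map_add_le_add N _ _
      refine e2.trans ?_
      rw [er_zsmul, er_zsmul]
      exact add_le_add (mul_le_mul_of_nonneg_right hp2 (er_nonneg _))
        (mul_le_mul_of_nonneg_right hq2 (er_nonneg _))
    have h2 : (s : ℝ) * er N Θ u < s * er N Θ a := by nlinarith
    exact lt_of_mul_lt_mul_left h2 hsR.le
  have := h.excl k u hu0 hu1
  rw [← ha] at this
  linarith

end NZ

open NZ in
/-- The points of a slow triple are independent. -/
theorem nz : Stmt_NZ := by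
  intro N Θ z h p hsl hD
  unfold Slow at hsl
  obtain ⟨P, Q, hc⟩ := basis h p (z (p + 2)) hD
  obtain ⟨R, S, hr⟩ := basis h (p + 1) (z p) (by rw [← hD]; exact D3_rot _ _ _)
  have M1 : (z p).1 < (z (p + 1)).1 := h.mono _ _ (by omega)
  have M2 : (z (p + 1)).1 < (z (p + 2)).1 := h.mono _ _ (by omega)
  have M0 : 0 < (z p).1 := h.pos p
  -- the coefficient of the first point is a unit
  have hSP : 1 - S * P = 0 := by
    have e : (1 - S * P) • z p = (R + S * Q) • z (p + 1) := by
      have hr' : z p = R • z (p + 1) + S • (P • z p + Q • z (p + 1)) := by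
        rw [← hc]; exact hr
      rw [sub_smul, one_smul, add_smul, mul_smul, mul_smul, sub_eq_iff_eq_add]
      conv_lhs => rw [hr']
      rw [smul_add]
      abel
    have f1 : (1 - S * P) * (z p).1 = (R + S * Q) * (z (p + 1)).1 := by
      simpa only [Prod.smul_fst, smul_eq_mul] using congrArg Prod.fst e
    have f2 : (1 - S * P) * (z p).2 0 = (R + S * Q) * (z (p + 1)).2 0 := by
      simpa only [Prod.smul_snd, Pi.smul_apply, smul_eq_mul] using
        congrFun (congrArg Prod.snd e) 0
    have f3 : (1 - S * P) * (z p).2 1 = (R + S * Q) * (z (p + 1)).2 1 := by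
      simpa only [Prod.smul_snd, Pi.smul_apply, smul_eq_mul] using
        congrFun (congrArg Prod.snd e) 1
    rcases ne h p with hn | hn | hn
    · have : (1 - S * P) * n0 (z p) (z (p + 1)) = 0 := by
        unfold n0
        linear_combination (z (p + 1)).2 1 * f2 - (z (p + 1)).2 0 * f3
      exact (mul_eq_zero.mp this).resolve_right hn
    · have : (1 - S * P) * n1 (z p) (z (p + 1)) = 0 := by
        unfold n1
        linear_combination (z (p + 1)).1 * f3 - (z (p + 1)).2 1 * f1
      exact (mul_eq_zero.mp this).resolve_right hn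
    · have : (1 - S * P) * n2 (z p) (z (p + 1)) = 0 := by
        unfold n2
        linear_combination (z (p + 1)).2 0 * f1 - (z (p + 1)).1 * f2
      exact (mul_eq_zero.mp this).resolve_right hn
  have hP : P = 1 ∨ P = -1 := by
    have : IsUnit P := IsUnit.of_mul_eq_one (b := S) (by linarith)
    exact Int.isUnit_iff.mp this
  have hM : (z (p + 2)).1 = P * (z p).1 + Q * (z (p + 1)).1 := by
    simpa only [Prod.smul_fst, Prod.fst_add, smul_eq_mul] using congrArg Prod.fst hc
  rcases hP with hP | hP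
  · subst hP
    rcases lt_or_ge Q 1 with hQ | hQ
    · nlinarith
    · nlinarith
  · subst hP
    have hQ : Q = 2 := by
      have h1 : 1 < Q := by
        by_contra hcon
        push Not at hcon
        nlinarith
      have h2 : Q < 3 := by
        by_contra hcon
        push Not at hcon
        nlinarith
      omega
    subst hQ
    -- the difference of the first two points is too good
    have hw0 : z (p + 1) - z p ≠ 0 := by
      intro h0
      have := congrArg Prod.fst h0
      simp only [Prod.fst_sub, Prod.fst_zero] at this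
      omega
    have hw1 : |(z (p + 1) - z p).1| < (z (p + 1)).1 := by
      rw [Prod.fst_sub, abs_of_pos (by omega)]
      omega
    have h1 := h.excl p _ hw0 hw1
    have h2 : 2 * er N Θ (z (p + 1) - z p) ≤ er N Θ (z (p + 2)) + er N Θ (z p) := by
      have e : (2 : ℤ) • (z (p + 1) - z p) = z (p + 2) - z p := by
        rw [hc]
        module
      have e2 := er_zsmul (N := N) (Θ := Θ) 2 (z (p + 1) - z p)
      rw [e] at e2
      have e3 := er_sub_le (N := N) (Θ := Θ) (z (p + 2)) (z p)
      rw [e2] at e3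
      simpa using e3
    have h3 : er N Θ (z (p + 2)) < er N Θ (z p) := h.anti _ _ (by omega)
    linarith

end Pool.Agent.Work.MP_7453a1_an
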