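import Pool.Agent.Work.MP_7453a1_an.WDef

set_option autoImplicit false

/-!
Block NOW: a word that starts with a slow letter and passes the check does not occur.
-/

namespace Pool.Agent.Work.MP_7453a1_an

open Pool.Agent.Work.MP_7453a1_nt_norm Pool.Agent.Work.MP_7453a1_nt_h45
open Pool.Agent.Work.MP_7453a1_nt_sup (lc den den_apply)
open Pool.Agent.Work.MP_7453a1_nt_sym (IsFrame2)
open Pool.Agent.Work.MP_7453a1_st (Letter pts wr Rel KL pts_KL dval condH letters slowC lt)
open Pool.Agent.Work.MP_7453a1_su (wC wC_holds)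

namespace Now

/-- A combination of at most three terms. -/
lemma lc_short (l : List ℤ) (h : l.length ≤ 3) (g : ℕ → Pt 2) :
    lc l g = cb (toV l) (g 0) (g 1) (g 2) := by
  match l, h with
  | [], _ => simp [lc, cb, toV]
  | [a], _ => simp [lc, cb, toV]
  | [a, b], _ => simp [lc, cb, toV]
  | [a, b, c], _ => simp [lc, cb, toV]
  | a :: b :: c :: d :: l, h => exact absurd h (by simp only [List.length_cons]; omega)

lemma den_cb (v : V3) (a b c : Pt 2) :
    den (cb v a b c) = lin v ((a.1 : ℝ), (b.1 : ℝ), (c.1 : ℝ)) := by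
  rw [den_apply]
  unfold cb lin
  simp only [Prod.fst_add, Prod.smul_fst, smul_eq_mul]
  push_cast
  ring

lemma lin_zero (q : ℝ × ℝ × ℝ) : lin 0 q = 0 := by simp [lin]

lemma lin_add (u v : V3) (q : ℝ × ℝ × ℝ) : lin (u + v) q = lin u q + lin v q := by
  simp only [lin, Prod.fst_add, Prod.snd_add, Int.cast_add]
  ring

lemma lin_neg (v : V3) (q : ℝ × ℝ × ℝ) : lin (-v) q = -lin v q := by
  simp only [lin, Prod.fst_neg, Prod.snd_neg, Int.cast_neg]
  ring

lemma lin_smul (a : ℤ) (v : V3) (q : ℝ × ℝ × ℝ) : lin (a • v) q = a * lin v q := by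
  simp only [lin, Prod.smul_fst, Prod.smul_snd, smul_eq_mul, Int.cast_mul]
  ring

section
variable {z : ℕ → Pt 2} {s : ℕ}

/-- The known points of a word. -/
lemma wW_pts {w : List Letter} (hw : Rel z s w) : ∀ j v, (wW w)[j]? = some v →
    z (s + j) = cb v (z s) (z (s + 1)) (z (s + 2)) := by
  intro j v hv
  unfold wW at hv
  rw [List.getElem?_map, Option.map_eq_some_iff] at hv
  obtain ⟨c, hc, rfl⟩ := hv
  have hlen : c.length ≤ 3 := by
    simpa using List.mem_takeWhile_imp (List.mem_of_getElem? hc)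
  have hp : (pts w)[j]? = some c := by
    obtain ⟨t, ht⟩ := List.takeWhile_prefix (fun l : List ℤ => decide (l.length ≤ 3)) (l := pts w)
    obtain ⟨hj, -⟩ := List.getElem?_eq_some_iff.mp hc
    rw [← ht, List.getElem?_append_left hj]
    exact hc
  rw [pts_KL hw j c hp, lc_short c hlen]
  rfl

/-- Monotonicity. -/
lemma monoV_holds {a b c : Pt 2} (hm : ∀ k, (z k).1 < (z (k + 1)).1) {W : List V3}
    (hW : ∀ j v, W[j]? = some v → z (s + j) = cb v a b c) :
    ∀ h ∈ monoV W, 0 < lin h ((a.1 : ℝ), (b.1 : ℝ), (c.1 : ℝ)) := by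
  induction W generalizing s with
  | nil => intro h hh; simp [monoV] at hh
  | cons A W ih =>
    cases W with
    | nil => intro h hh; simp [monoV] at hh
    | cons B L =>
      have hW' : ∀ j v, (B :: L)[j]? = some v → z (s + 1 + j) = cb v a b c := by
        intro j v hv
        have := hW (j + 1) v (by simpa using hv)
        rwa [show s + 1 + j = s + (j + 1) by ring]
      intro h hh
      rw [monoV, List.mem_cons] at hh
      rcases hh with rfl | hh
      · have h1 := hW 0 A (by simp)
        have h2 := hW 1 B (by simp)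
        rw [lin_add, lin_neg, ← den_cb, ← den_cb, ← h1, ← h2, den_apply, den_apply]
        have h3 : ((z (s + 0)).1 : ℝ) < ((z (s + 1)).1 : ℝ) := by exact_mod_cast hm s
        linarith
      · exact ih hW' h hh

/-- The value of a linear form in the denominators. -/
lemma evV_val {a b c : Pt 2} {W : List V3}
    (hW : ∀ j v, W[j]? = some v → z (s + j) = cb v a b c) {ms : List (ℤ × ℕ)} {v : V3}
    (hv : evV W ms = some v) : lin v ((a.1 : ℝ), (b.1 : ℝ), (c.1 : ℝ)) = dval z s ms := by
  induction ms generalizing v with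
  | nil =>
    simp only [evV, Option.some.injEq] at hv
    subst hv
    rw [lin_zero]
    rfl
  | cons m l ih =>
    unfold evV at hv
    split at hv
    · next c' r hc hr =>
      simp only [Option.some.injEq] at hv
      subst hv
      rw [lin_add, lin_smul, ih hr, ← den_cb, ← hW _ _ hc]
      rfl
    · simp at hv

/-- The strict conditions of a word. -/
lemma wQ_holds {N : Seminorm ℝ V} {Θ : V} (hF : IsFrame2 N Θ z) (hslow : Slow z s)
    {w : List Letter} (hw : Rel z s w) : ∀ h ∈ wQ w,
    0 < lin h (((z s).1 : ℝ), ((z (s + 1)).1 : ℝ), ((z (s + 2)).1 : ℝ)) := by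
  have hm : ∀ k, (z k).1 < (z (k + 1)).1 := fun k => hF.mono k (k + 1) (Nat.lt_succ_self k)
  have hp := wW_pts hw
  intro h hh
  unfold wQ at hh
  rw [List.mem_append, List.mem_append] at hh
  rcases hh with (hh | hh) | hh
  · have p0 : (0 : ℝ) < ((z s).1 : ℝ) := by exact_mod_cast hF.pos s
    have p1 : ((z s).1 : ℝ) < ((z (s + 1)).1 : ℝ) := by exact_mod_cast hm s
    have p2 : ((z (s + 1)).1 : ℝ) < ((z (s + 2)).1 : ℝ) := by exact_mod_cast hm (s + 1)
    have p3 : ((z (s + 2)).1 : ℝ) < ((z s).1 : ℝ) + ((z (s + 1)).1 : ℝ) := by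
      exact_mod_cast hslow
    simp only [List.mem_cons, List.not_mem_nil, or_false] at hh
    rcases hh with rfl | rfl | rfl | rfl <;> simp only [lin] <;> push_cast <;> linarith
  · exact monoV_holds hm hp h hh
  · rw [List.mem_filterMap] at hh
    obtain ⟨c', hc', e⟩ := hh
    split_ifs at e with h1
    rw [evV_val hp e]
    have h2 := wC_holds (z := z) (s := s) (j := 0) hw c' hc'
    unfold condH at h2
    rwa [if_pos h1] at h2

/-- The letters other than the last one start with the condition that the triple is slow. -/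
lemma slow_mem {a : ℕ} (ha : a ≤ 14) : slowC ∈ (lt a).conds := by
  interval_cases a <;> simp [lt, letters]

/-- The triple is slow at the first letter. -/
lemma slow_of_rel {a : ℕ} {w : List ℕ} (ha : a ≤ 14) (hw : Rel z s (wr (a :: w))) : Slow z s := by
  have h1 : Rel z s (lt a :: wr w) := hw
  have h2 := h1.1.2 slowC (slow_mem ha)
  unfold condH at h2
  simp only [slowC, if_true, dval, List.foldr_cons, List.foldr_nil, den_apply, Nat.add_zero] at h2
  push_cast at h2
  have h3 : ((z (s + 2)).1 : ℝ) < ((z s).1 : ℝ) + ((z (s + 1)).1 : ℝ) := by linarith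
  unfold Slow
  exact_mod_cast h3

end

end Now

/-- Block NOW. -/
theorem now (hb : Stmt_BUILD1) (hs : Stmt_SOUND) (hn : Stmt_NZ) : Stmt_NOW := by
  intro w c hc hsl N Θ z hF s hw
  have hslow := hsl N Θ z hF s hw
  exact hs 1 0 _ _ c one_pos hc N _ _ _ (hb N Θ z hF s hslow (hn N Θ z hF s hslow) (wW (wr w))
    (wQ (wr w)) (Now.wW_pts hw) (Now.wQ_holds hF hslow hw))

/-- A word that starts with one of the slow letters and passes the check does not occur. -/
theorem noWord_of_wchk (hb : Stmt_BUILD1) (hs : Stmt_SOUND) (hn : Stmt_NZ) {a : ℕ} (ha : a ≤ 14)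
    (w : List ℕ) (c : ℕ) (hc : wchk (a :: w) c = true) : NoWord (a :: w) :=
  now hb hs hn (a :: w) c hc fun _ _ _ _ _ hw => Now.slow_of_rel ha hw

end Pool.Agent.Work.MP_7453a1_an
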