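import Pool.Agent.Work.MP_7453a1_an.Interface

set_option autoImplicit false

/-!
Blocks WEX, PLAN, DET, CRAMER, PDIV (helper45).
-/

namespace Pool.Agent.Work.MP_7453a1_an

open Pool.Agent.Work.MP_7453a1_nt_norm Pool.Agent.Work.MP_7453a1_nt_h45
open Pool.Agent.Work.MP_7453a1_nt_sym (IsFrame2)

theorem WEX : Stmt_WEX := by
  intro N Θ z hz k w hw0 hle hne hne'
  rcases lt_or_eq_of_le hle with h | h
  · exact hz.excl k w hw0 h
  · -- the case of equality
    have key : ∀ w' : Pt 2, w'.1 = (z (k + 1)).1 → w' ≠ z (k + 1) →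
        er N Θ (z k) ≤ er N Θ w' := by
      intro w' h1 h2
      have h3 := hz.zero (w' - z (k + 1)) (sub_ne_zero.2 h2) (by
        rw [Prod.fst_sub, h1, sub_self])
      have h4 := er_sub_le (N := N) (Θ := Θ) w' (z (k + 1))
      have h5 := hz.anti k (k + 1) (by omega)
      have h6 : er N Θ (z k) ≤ er N Θ (z 0) := by
        rcases Nat.eq_zero_or_pos k with hk | hk
        · rw [hk]
        · exact (hz.anti 0 k hk).le
      linarith
    rcases abs_choice w.1 with h1 | h1
    · exact key w (by rw [← h1, h]) hne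
    · have h2 := key (-w) (by rw [Prod.fst_neg, ← h1, h]) (fun h3 => hne' (by rw [← h3, neg_neg]))
      rwa [er_neg] at h2

theorem PLAN : Stmt_PLAN := by
  intro N a b p
  have h1 := det_rel a p b
  have h2 : |det a b| * N p = N (det a b • p) := by
    rw [map_smul_eq_mul, Real.norm_eq_abs]
  rw [h2, h1]
  refine (map_add_le_add N _ _).trans ?_
  rw [map_smul_eq_mul, map_smul_eq_mul, Real.norm_eq_abs, Real.norm_eq_abs]

theorem ev_apply' (Θ : V) (u : Pt 2) (i : Fin 2) : ev Θ u i = (u.1 : ℝ) * Θ i - (u.2 i : ℝ) := rfl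

theorem DET : Stmt_DET := by
  intro Θ u v w
  simp only [det, D3, ev_apply']
  push_cast
  ring

theorem CRAMER : Stmt_CRAMER := by
  intro a b c h x
  have hD : D3 a b c * D3 a b c = 1 := by
    rcases abs_choice (D3 a b c) with h1 | h1
    · rw [h1] at h
      rw [h]
      norm_num
    · rw [h1] at h
      have h2 : D3 a b c = -1 := by linarith
      rw [h2]
      norm_num
  refine ⟨(D3 a b c * D3 x b c, D3 a b c * D3 a x c, D3 a b c * D3 a b x), ?_⟩
  have e0 : D3 x b c * a.1 + D3 a x c * b.1 + D3 a b x * c.1 = D3 a b c * x.1 := by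
    simp only [D3]
    ring
  have e1 : ∀ i : Fin 2, D3 x b c * a.2 i + D3 a x c * b.2 i + D3 a b x * c.2 i =
      D3 a b c * x.2 i := by
    intro i
    fin_cases i
    · simp only [D3, Fin.zero_eta, Fin.isValue]
      ring
    · simp only [D3, Fin.mk_one, Fin.isValue]
      ring
  refine Prod.ext ?_ (funext fun i => ?_)
  · simp only [cb, Prod.fst_add, Prod.smul_fst, smul_eq_mul]
    linear_combination (-(x.1)) * hD - D3 a b c * e0
  · simp only [cb, Prod.snd_add, Prod.smul_snd, Pi.add_apply, Pi.smul_apply, smul_eq_mul]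
    linear_combination (-(x.2 i)) * hD - D3 a b c * e1 i

theorem PDIV : Stmt_PDIV := by
  intro a b c p hp hdvd
  have : Fact p.Prime := ⟨hp⟩
  set M : Matrix (Fin 3) (Fin 3) (ZMod p) :=
    !![(a.1 : ZMod p), (a.2 0 : ZMod p), (a.2 1 : ZMod p);
      (b.1 : ZMod p), (b.2 0 : ZMod p), (b.2 1 : ZMod p);
      (c.1 : ZMod p), (c.2 0 : ZMod p), (c.2 1 : ZMod p)] with hM
  have hdet : M.det = 0 := by
    have h1 : ((D3 a b c : ℤ) : ZMod p) = 0 := (ZMod.intCast_zmod_eq_zero_iff_dvd _ _).2 hdvd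
    rw [← h1, hM, Matrix.det_fin_three]
    simp only [Matrix.of_apply, Matrix.cons_val', Matrix.cons_val_zero, Matrix.cons_val_one,
      Matrix.cons_val, D3]
    push_cast
    ring
  obtain ⟨v, hv0, hv⟩ := Matrix.exists_vecMul_eq_zero_iff.2 hdet
  choose g hg using fun i => ZMod.intCast_surjective (v i)
  have hcol : ∀ j, v 0 * M 0 j + v 1 * M 1 j + v 2 * M 2 j = 0 := by
    intro j
    have h1 := congrFun hv j
    rw [Matrix.vecMul, dotProduct, Fin.sum_univ_three] at h1
    exact h1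
  have key : ∀ x y w : ℤ, v 0 * (x : ZMod p) + v 1 * (y : ZMod p) + v 2 * (w : ZMod p) = 0 →
      (p : ℤ) ∣ g 0 * x + (g 1 * y + g 2 * w) := by
    intro x y w h
    rw [← ZMod.intCast_zmod_eq_zero_iff_dvd]
    push_cast
    rw [hg, hg, hg, ← h]
    ring
  obtain ⟨s0, hs0⟩ := key a.1 b.1 c.1 (by simpa [hM] using hcol 0)
  obtain ⟨s1, hs1⟩ := key (a.2 0) (b.2 0) (c.2 0) (by simpa [hM] using hcol 1)
  obtain ⟨s2, hs2⟩ := key (a.2 1) (b.2 1) (c.2 1) (by simpa [hM] using hcol 2)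
  refine ⟨(g 0, g 1, g 2), (s0, ![s1, s2]), ?_, ?_⟩
  · rintro ⟨h0, h1, h2⟩
    apply hv0
    funext i
    simp only at h0 h1 h2
    fin_cases i
    · have := (ZMod.intCast_zmod_eq_zero_iff_dvd (g 0) p).2 h0
      rw [hg] at this
      exact this
    · have := (ZMod.intCast_zmod_eq_zero_iff_dvd (g 1) p).2 h1
      rw [hg] at this
      exact this
    · have := (ZMod.intCast_zmod_eq_zero_iff_dvd (g 2) p).2 h2
      rw [hg] at this
      exact this
  · refine Prod.ext ?_ (funext fun i => ?_)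
    · simp only [cb, Prod.fst_add, Prod.smul_fst, smul_eq_mul]
      exact hs0.symm
    · fin_cases i
      · simp only [cb, Prod.snd_add, Prod.smul_snd, Pi.add_apply, Pi.smul_apply, smul_eq_mul,
          Fin.zero_eta, Fin.isValue, Matrix.cons_val_zero]
        exact hs1.symm
      · simp only [cb, Prod.snd_add, Prod.smul_snd, Pi.add_apply, Pi.smul_apply, smul_eq_mul,
          Fin.mk_one, Fin.isValue, Matrix.cons_val_one, Matrix.cons_val_fin_one]
        exact hs2.symm

/-- Block BAS: a slow triple is a basis. -/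
theorem BAS (hNZ : Stmt_NZ) (hIDX : Stmt_IDX) (hCLS : Stmt_CLS) : Stmt_BAS := by
  intro N Θ z hz p hp
  have h0 := hNZ N Θ z hz p hp
  have h6 := hIDX N Θ z hz p hp
  obtain ⟨D, hD⟩ : ∃ D : ℤ, D = D3 (z p) (z (p + 1)) (z (p + 2)) := ⟨_, rfl⟩
  rw [← hD] at h0 h6 ⊢
  have no : ∀ m : ℕ, m.Prime → (m = 2 ∨ m = 3 ∨ m = 5) → ¬ ((m : ℤ) ∣ D) := by
    intro m hm hm' hdvd
    obtain ⟨v, s, hv, hs⟩ := PDIV (z p) (z (p + 1)) (z (p + 2)) m hm (by rw [← hD]; exact hdvd)
    exact hCLS N Θ z hz p hp m hm' v hv ⟨s, hs⟩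
  have n2 := no 2 Nat.prime_two (Or.inl rfl)
  have n3 := no 3 Nat.prime_three (Or.inr (Or.inl rfl))
  have n5 := no 5 Nat.prime_five (Or.inr (Or.inr rfl))
  push_cast at n2 n3 n5
  obtain ⟨h1, h2⟩ := abs_le.1 h6
  have h3 : D = 1 ∨ D = -1 := by
    clear hD h6
    interval_cases D <;> omega
  rcases h3 with h3 | h3 <;> rw [h3] <;> norm_num

end Pool.Agent.Work.MP_7453a1_an
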