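import Pool.Agent.Work.MP_7453a1_an.Tab1
import Pool.Agent.Work.MP_7453a1_an.Tab2
import Pool.Agent.Work.MP_7453a1_an.Tab3
import Pool.Agent.Work.MP_7453a1_an.Tab4
import Pool.Agent.Work.MP_7453a1_an.Grow

set_option autoImplicit false
set_option maxRecDepth 100000

/-! The complete table. -/

namespace Pool.Agent.Work.MP_7453a1_an

open Pool.Agent.Work.MP_7453a1_st (Entry)

lemma sts_eq : sts = tab1.map Prod.fst ++ (tab2.map Prod.fst ++ (tab3.map Prod.fst ++ (tab4.map Prod.fst))) := by rfl

/-- All states are correct. -/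
theorem sts_ok : ∀ S ∈ sts, StOK 132472 100000 forb sts S := by
  intro S hS
  rw [sts_eq] at hS
  simp only [List.mem_append] at hS
  rcases hS with hS | hS | hS | hS
  · exact chkTab_sound tab1_chk S hS
  · exact chkTab_sound tab2_chk S hS
  · exact chkTab_sound tab3_chk S hS
  · exact chkTab_sound tab4_chk S hS

theorem start_slow : startOK sts 0 false [(0, 25), (1, 222406), (2, 470495), (4, 1)] = true := by decide +kernel

theorem start_fast : startOK sts 1 true [(1, 222406), (2, 50), (3, 167814), (4, 1)] = true := by decide +kernel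

theorem sts_bnd : bndOK 940964 sts = true := by decide +kernel

theorem sts_bd : (sts.all fun S => bdOK 132471 132472 100000 S) = true := by decide +kernel

/-- The table is correct. -/
theorem tabOK {ρ : ℝ} (hρ : ρ ^ 3 = ρ + 1) : TabOK ρ forb sts 132471 132472 100000 940964 where
  hrn := by norm_num
  htd := by norm_num
  h1 := by
    by_contra hcon
    push Not at hcon
    push_cast at hcon
    have h1 : ρ < 1.32471 := by linarith
    have h2 : 0 < ρ ^ 2 + ρ * 1.32471 + 1.32471 ^ 2 - 1 := by
      nlinarith [sq_nonneg (ρ + 1.32471 / 2)]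
    nlinarith [mul_pos (sub_pos.mpr h1) h2]
  h2 := by
    by_contra hcon
    push Not at hcon
    push_cast at hcon
    have h1 : 1.32472 < ρ := by linarith
    have h2 : 0 < ρ ^ 2 + ρ * 1.32472 + 1.32472 ^ 2 - 1 := by
      nlinarith [sq_nonneg (ρ + 1.32472 / 2)]
    nlinarith [mul_pos (sub_pos.mpr h1) h2]
  bd := fun S hS => List.all_eq_true.mp sts_bd S hS
  ok := sts_ok
  start := fun f => by
    cases f
    · exact ⟨_, _, start_slow⟩
    · exact ⟨_, _, start_fast⟩
  bnd := sts_bnd

end Pool.Agent.Work.MP_7453a1_an
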