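import Pool.Agent.Work.MP_7453a1_an.MINK
import Pool.Agent.Work.MP_7453a1_an.Box
import Pool.Agent.Work.MP_7453a1_an.SMALL
import Pool.Agent.Work.MP_7453a1_an.NZ
import Pool.Agent.Work.MP_7453a1_an.Build
import Pool.Agent.Work.MP_7453a1_an.Sound
import Pool.Agent.Work.MP_7453a1_an.Now
import Pool.Agent.Work.MP_7453a1_an.Cases
import Pool.Agent.Work.MP_7453a1_an.Cls
import Pool.Agent.Work.MP_7453a1_an.GrowA
import Pool.Agent.Work.MP_7453a1_an.Grow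
import Pool.Agent.Work.MP_7453a1_an.CertAAll
import Pool.Agent.Work.MP_7453a1_an.CertBAll
import Pool.Agent.Work.MP_7453a1_an.CertM
import Pool.Agent.Work.MP_7453a1_an.CertWAll
import Pool.Agent.Work.MP_7453a1_an.TabAll
import Pool.Agent.Work.MP_7453a1_nt_two.Low12

set_option autoImplicit false

/-!
All norms, `m + n = 3`: the lower bound.
-/

namespace Pool.Agent.Work.MP_7453a1_an

open Pool.Agent.Work.MP_7453a1_nt_norm
open Pool.Agent.Work.MP_7453a1_nt_two (UG)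
open scoped ENNReal

theorem build1 : Stmt_BUILD1 := BUILD1 WEX DET

theorem buildp : Stmt_BUILDP := BUILDP WEX DET

theorem cls : Stmt_CLS :=
  CLSX_list buildp sound nz (l := clsL) (fun x hx => List.all_eq_true.mp clsL_chk x hx)
    (by decide)

theorem bas : Stmt_BAS := BAS nz (IDX MINK DET) cls

theorem c1 : Stmt_C1 := C1 bas CRAMER (BOX1 MINK DET) build1 sound slices1

theorem c2 : Stmt_C2 := C2 bas CRAMER (BOX2 MINK DET) build1 sound slices2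

theorem next : Stmt_NEXT := NEXT c1 c2

theorem forb_no : ∀ w ∈ forb, NoWord w := by
  intro w hw
  obtain ⟨c, hc⟩ := words_chk w hw
  have h1 : ∃ a u, w = a :: u ∧ a ≤ 14 := by
    have h2 : (forb.all fun w => match w with
      | [] => false
      | a :: _ => Nat.ble a 14) = true := by decide
    have h3 := List.all_eq_true.mp h2 w hw
    cases w with
    | nil => simp at h3
    | cons a u => exact ⟨a, u, rfl, Nat.le_of_ble_eq_true h3⟩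
  obtain ⟨a, u, rfl, ha⟩ := h1
  exact noWord_of_wchk build1 sound nz ha u c hc

/-- The constant. -/
noncomputable def kap (ρ : ℝ) : ℝ := ((940964 : ℕ) * ρ ^ 4)⁻¹

/-- Uniform growth for all norms. -/
theorem UG_norms {ρ : ℝ} (hρ : ρ ^ 3 = ρ + 1) (hρ1 : 1 ≤ ρ) (N : Seminorm ℝ V) :
    UG N ρ (kap ρ) :=
  UG_rho hρ hρ1 next forb_no (tabOK hρ) (by norm_num) N

variable {N : Seminorm ℝ V} {N₁ : Seminorm ℝ (Fin 1 → ℝ)} {ρ : ℝ}

lemma kap_pos (hρ1 : 1 ≤ ρ) : 0 < kap ρ := by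
  unfold kap
  positivity

/-- `m = 1`, `n = 2`. -/
theorem low_one (hρ : ρ ^ 3 = ρ + 1) (hρ1 : 1 ≤ ρ) (hN : IsNorm N) (hN₁ : IsNorm N₁)
    {Θ : Matrix (Fin 2) (Fin 1) ℝ} (hΘ : Pool.Agent.Work.MP_7453a1_nt_two.Admissible Θ) :
    (∃ c' : ℝ, 0 < c' ∧ ∀ ν, 1 ≤ ν →
      c' * ρ ^ ν ≤ Pool.Agent.Work.MP_7453a1_nt_two.M N₁ N Θ ν) ∧
      ENNReal.ofReal ρ ≤ Pool.Agent.Work.MP_7453a1_nt_two.G N₁ N Θ :=
  Pool.Agent.Work.MP_7453a1_nt_two.low12 hN hN₁ hΘ hρ1 (kap_pos hρ1) (UG_norms hρ hρ1 N)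

/-- `m = 2`, `n = 1`. -/
theorem low_two (hρ : ρ ^ 3 = ρ + 1) (hρ1 : 1 ≤ ρ) (hN : IsNorm N) (hN₁ : IsNorm N₁)
    {Θ : Matrix (Fin 1) (Fin 2) ℝ} (hΘ : Pool.Agent.Work.MP_7453a1_nt_two.Admissible Θ) :
    (∃ c' : ℝ, 0 < c' ∧ ∀ ν, 1 ≤ ν →
      c' * (Real.sqrt ρ) ^ ν ≤ Pool.Agent.Work.MP_7453a1_nt_two.M N N₁ Θ ν) ∧
      ENNReal.ofReal (Real.sqrt ρ) ≤ Pool.Agent.Work.MP_7453a1_nt_two.G N N₁ Θ :=
  Pool.Agent.Work.MP_7453a1_nt_two.low hN hN₁ hΘ hρ1 (kap_pos hρ1)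
    (fun _ _ => UG_norms hρ hρ1 _)

end Pool.Agent.Work.MP_7453a1_an
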