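import Pool.Agent.Work.MP_7453a1_an.Leaf

set_option autoImplicit false

/-!
The octants of the determinants, up to a reflection of the plane (helper21).
-/

namespace Pool.Agent.Work.MP_7453a1_an

open Pool.Agent.Work.MP_7453a1_nt_norm Pool.Agent.Work.MP_7453a1_nt_h45

/-- The reflection of the plane. -/
noncomputable def rfl2 : V →ₗ[ℝ] V := LinearMap.funLeft ℝ ℝ (Equiv.swap (0 : Fin 2) 1)

lemma rfl2_0 (y : V) : rfl2 y 0 = y 1 := by simp [rfl2, LinearMap.funLeft_apply]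

lemma rfl2_1 (y : V) : rfl2 y 1 = y 0 := by simp [rfl2, LinearMap.funLeft_apply]

lemma rfl2_rfl2 (y : V) : rfl2 (rfl2 y) = y := by
  ext i
  fin_cases i
  · simp only [Fin.zero_eta, Fin.isValue, rfl2_0, rfl2_1]
  · simp only [Fin.mk_one, Fin.isValue, rfl2_0, rfl2_1]

section
variable {m : ℕ} {G : V3} {W QC : List V3} {N : Seminorm ℝ V} {e : V × V × V}
  {q : ℝ × ℝ × ℝ} {L : ℕ → ℝ}

lemma vec_rfl2 (e : V × V × V) (P : V3) :
    vec (rfl2 e.1, rfl2 e.2.1, rfl2 e.2.2) P = rfl2 (vec e P) := by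
  simp only [vec, map_add, map_smul]

lemma xi_rfl2 (e : V × V × V) : xi (rfl2 e.1, rfl2 e.2.1, rfl2 e.2.2) = -xi e := by
  simp only [xi, det, rfl2_0, rfl2_1]
  refine Prod.ext ?_ (Prod.ext ?_ ?_)
  · simp only [Prod.fst_neg]; ring
  · simp only [Prod.fst_neg, Prod.snd_neg]; ring
  · simp only [Prod.snd_neg]; ring

lemma Geo.reflect (hG : Geo m G W QC N e q L) :
    Geo m G W QC (N.comp rfl2) (rfl2 e.1, rfl2 e.2.1, rfl2 e.2.2) q L := by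
  have key : ∀ P, (N.comp rfl2) (vec (rfl2 e.1, rfl2 e.2.1, rfl2 e.2.2) P) = N (vec e P) := by
    intro P
    rw [vec_rfl2, Seminorm.comp_apply, rfl2_rfl2]
  refine ⟨hG.q0, hG.q1, hG.q2, hG.qs, hG.qc, hG.pos, hG.dec, fun j a ha => ?_,
    fun j mu b P h1 h2 h3 h4 h5 h6 => ?_, ?_⟩
  · rw [key]; exact hG.lev j a ha
  · rw [key]; exact hG.leg j mu b P h1 h2 h3 h4 h5 h6
  · rw [xi_rfl2, neg_ne_zero]; exact hG.nz

lemma oct_pos {y : ℝ × ℝ × ℝ}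
    (h : (0 ≤ y.1 ∧ 0 ≤ y.2.1 ∧ 0 ≤ y.2.2) ∨ (0 ≤ y.1 ∧ 0 ≤ y.2.1 ∧ y.2.2 ≤ 0) ∨
      (0 ≤ y.1 ∧ y.2.1 ≤ 0 ∧ 0 ≤ y.2.2) ∨ (y.1 ≤ 0 ∧ 0 ≤ y.2.1 ∧ 0 ≤ y.2.2)) :
    ∃ x ∈ octs, InC x y := by
  unfold octs
  rcases h with ⟨h1, h2, h3⟩ | ⟨h1, h2, h3⟩ | ⟨h1, h2, h3⟩ | ⟨h1, h2, h3⟩
  · exact ⟨_, List.mem_cons_self, y.1, y.2.1, y.2.2, h1, h2, h3, by simp, by simp, by simp⟩
  · exact ⟨_, List.mem_cons_of_mem _ List.mem_cons_self, y.1, y.2.1, -y.2.2, h1, h2,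
      by linarith, by simp, by simp, by simp⟩
  · exact ⟨_, List.mem_cons_of_mem _ (List.mem_cons_of_mem _ List.mem_cons_self), y.1, -y.2.1,
      y.2.2, h1, by linarith, h3, by simp, by simp, by simp⟩
  · exact ⟨_, List.mem_cons_of_mem _ (List.mem_cons_of_mem _ (List.mem_cons_of_mem _
      List.mem_cons_self)), -y.1, y.2.1, y.2.2, by linarith, h2, h3, by simp, by simp, by simp⟩

/-- The determinants lie in one of the four root cells, up to a reflection of the plane. -/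
theorem exists_oct (hG : Geo m G W QC N e q L) : ∃ (N' : Seminorm ℝ V) (e' : V × V × V),
    Geo m G W QC N' e' q L ∧ ∃ x ∈ octs, InC x (xi e') := by
  have h2 := hG.reflect
  by_cases hc : (0 ≤ (xi e).1 ∧ 0 ≤ (xi e).2.1 ∧ 0 ≤ (xi e).2.2) ∨
      (0 ≤ (xi e).1 ∧ 0 ≤ (xi e).2.1 ∧ (xi e).2.2 ≤ 0) ∨
      (0 ≤ (xi e).1 ∧ (xi e).2.1 ≤ 0 ∧ 0 ≤ (xi e).2.2) ∨
      ((xi e).1 ≤ 0 ∧ 0 ≤ (xi e).2.1 ∧ 0 ≤ (xi e).2.2)
  · exact ⟨N, e, hG, oct_pos hc⟩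
  · refine ⟨_, _, h2, oct_pos ?_⟩
    rw [xi_rfl2]
    simp only [Prod.fst_neg, Prod.snd_neg]
    rcases le_total 0 (xi e).1 with g1 | g1 <;> rcases le_total 0 (xi e).2.1 with g2 | g2 <;>
      rcases le_total 0 (xi e).2.2 with g3 | g3
    · exact absurd (Or.inl ⟨g1, g2, g3⟩) hc
    · exact absurd (Or.inr (Or.inl ⟨g1, g2, g3⟩)) hc
    · exact absurd (Or.inr (Or.inr (Or.inl ⟨g1, g2, g3⟩))) hc
    · exact Or.inr (Or.inr (Or.inr ⟨by linarith, by linarith, by linarith⟩))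
    · exact absurd (Or.inr (Or.inr (Or.inr ⟨g1, g2, g3⟩))) hc
    · exact Or.inr (Or.inr (Or.inl ⟨by linarith, by linarith, by linarith⟩))
    · exact Or.inr (Or.inl ⟨by linarith, by linarith, by linarith⟩)
    · exact Or.inl ⟨by linarith, by linarith, by linarith⟩

end

end Pool.Agent.Work.MP_7453a1_an

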