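import Pool.Agent.Work.MP_7453a1_an.Slice

set_option autoImplicit false

/-!
Certificates for short segments of a list of candidates.
-/

namespace Pool.Agent.Work.MP_7453a1_an

lemma slice_get {f g : V3 → List V3} {T : List V3} : ∀ {ys : List V3} {l : List ℕ},
    slice f g T ys l = true →
      ∀ y ∈ ys, skip T (g y) y = true ∨ ∃ c, wcheck 1 0 (f y) (g y) c = true
  | [], _, _, y, hy => by simp at hy
  | x :: ys, l, h, y, hy => by
    unfold slice at h
    split at h
    · next hs =>
      rcases List.mem_cons.1 hy with rfl | hy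
      · exact Or.inl hs
      · exact slice_get h y hy
    · next hs =>
      split at h
      · exact absurd h (by simp)
      · next c l' =>
        rw [Bool.and_eq_true] at h
        rcases List.mem_cons.1 hy with rfl | hy
        · exact Or.inr ⟨c, h.1⟩
        · exact slice_get h.2 y hy

lemma exists_slice {f g : V3 → List V3} {T : List V3} : ∀ {ys : List V3},
    (∀ y ∈ ys, skip T (g y) y = true ∨ ∃ c, wcheck 1 0 (f y) (g y) c = true) →
      ∃ l, slice f g T ys l = true
  | [], _ => ⟨[], rfl⟩
  | y :: ys, h => by
    obtain ⟨l, hl⟩ := exists_slice (ys := ys) fun x hx => h x (List.mem_cons_of_mem _ hx)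
    by_cases hs : skip T (g y) y = true
    · exact ⟨l, by unfold slice; rw [if_pos hs]; exact hl⟩
    · rcases h y List.mem_cons_self with h1 | ⟨c, hc⟩
      · exact absurd h1 hs
      · refine ⟨c :: l, ?_⟩
        unfold slice
        rw [if_neg hs]
        simp only [Bool.and_eq_true]
        exact ⟨hc, hl⟩

/-- A segment of a list. -/
def seg (ys : List V3) (K i : ℕ) : List V3 := (ys.drop (i * K)).take K

lemma slice_pieces {f g : V3 → List V3} {T ys : List V3} {K n : ℕ} (hK : ys.length ≤ n * K)
    (h : ∀ i < n, ∃ l, slice f g T (seg ys K i) l = true) : ∃ l, slice f g T ys l = true := by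
  apply exists_slice
  intro y hy
  obtain ⟨j, hj, rfl⟩ := List.getElem_of_mem hy
  have hK0 : 0 < K := by
    rcases Nat.eq_zero_or_pos K with rfl | h0
    · omega
    · exact h0
  have hi : j / K < n := by
    rw [Nat.div_lt_iff_lt_mul hK0]
    omega
  obtain ⟨l, hl⟩ := h (j / K) hi
  refine slice_get hl _ ?_
  have h1 := Nat.div_add_mod j K
  have h2 := Nat.mod_lt j hK0
  rw [seg, List.mem_iff_getElem]
  refine ⟨j % K, ?_, ?_⟩
  · rw [List.length_take, List.length_drop]
    have : j / K * K = K * (j / K) := Nat.mul_comm _ _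
    omega
  · rw [List.getElem_take, List.getElem_drop]
    congr 1
    rw [Nat.mul_comm]
    exact h1

/-- First classification, segment `i` of the vectors with first coordinate `a`. -/
def P1 (a : ℤ) (i : ℕ) (l : List ℕ) : Bool := slice f1 g1 T1 (seg (row a 12 10) 75 i) l

/-- Second classification, segment `i` of the vectors with first coordinate `a`. -/
def P2 (a : ℤ) (i : ℕ) (l : List ℕ) : Bool := slice f2 g2 T2 (seg (row a 14 13) 112 i) l

lemma of_P1 {a : ℤ} (h : ∀ i < 7, ∃ l, P1 a i l = true) : ∃ l, S1 a l = true :=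
  slice_pieces (K := 75) (n := 7) (by simp [row]) h

lemma of_P2 {a : ℤ} (h : ∀ i < 7, ∃ l, P2 a i l = true) : ∃ l, S2 a l = true :=
  slice_pieces (K := 112) (n := 7) (by simp [row]) h

end Pool.Agent.Work.MP_7453a1_an
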