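import Pool.Agent.Work.MP_7453a1_an.Check

set_option autoImplicit false

/-!
Enumeration of the candidates of the two classifications.
-/

namespace Pool.Agent.Work.MP_7453a1_an

/-- The candidate is excluded at once: a target, a multiple, or against a linear condition. -/
def skip (T Q : List V3) (y : V3) : Bool :=
  T.contains y || !(Nat.beq (Nat.gcd y.1.natAbs (Nat.gcd y.2.1.natAbs y.2.2.natAbs)) 1) ||
    Q.any fun h => npos h root

/-- The vectors with given first coordinate. -/
def row (a : ℤ) (b c : ℕ) : List V3 :=
  (List.range (2 * b + 1)).flatMap fun i => (List.range (2 * c + 1)).map fun j =>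
    (a, (i : ℤ) - b, (j : ℤ) - c)

/-- Certificates for the candidates that are not excluded at once. -/
def slice (f g : V3 → List V3) (T : List V3) : List V3 → List ℕ → Bool
  | [], _ => true
  | y :: ys, l =>
    if skip T (g y) y = true then slice f g T ys l
    else match l with
      | [] => false
      | c :: l => wcheck 1 0 (f y) (g y) c && slice f g T ys l

/-- First classification: the vectors. -/
def f1 (y : V3) : List V3 := [(1, 0, 0), (0, 1, 0), (0, 0, 1), y]

/-- First classification: the conditions. -/
def g1 (y : V3) : List V3 :=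
  [(1, 1, -1), (1, 0, 0), (-1, 1, 0), (0, -1, 1), y + (0, 0, -1), (1, 1, 1) + -y]

/-- First classification: the targets. -/
def T1 : List V3 := [(1, 1, 0), (-1, 1, 1), (1, 0, 1), (1, -1, 2), (0, 1, 1), (1, 2, 0),
  (-1, 1, 2), (-1, 2, 1)]

/-- Second classification: the vectors. -/
def f2 (y : V3) : List V3 := [(1, 0, 0), (0, 1, 0), (0, 0, 1), (0, 1, 1), y]

/-- Second classification: the conditions. -/
def g2 (y : V3) : List V3 :=
  [(1, 1, -1), (1, 0, 0), (-1, 1, 0), (0, -1, 1), y + (0, -1, -1), (0, 1, 2) + -y]

/-- Second classification: the targets. -/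
def T2 : List V3 := [(-1, 1, 2), (-1, 2, 1), (1, 0, 2), (1, 1, 1), (1, 2, 0)]

/-- First classification, first coordinate `a`. -/
def S1 (a : ℤ) (l : List ℕ) : Bool := slice f1 g1 T1 (row a 12 10) l

/-- Second classification, first coordinate `a`. -/
def S2 (a : ℤ) (l : List ℕ) : Bool := slice f2 g2 T2 (row a 14 13) l

end Pool.Agent.Work.MP_7453a1_an
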