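import Pool.Agent.Work.MP_7453a1_an.Interface
import Pool.Agent.Work.MP_7453a1_st.Tab

set_option autoImplicit false

/-!
Tables of potentials at the exact base `ρ` (helper21).
-/

namespace Pool.Agent.Work.MP_7453a1_an

open Pool.Agent.Work.MP_7453a1_nt_norm Pool.Agent.Work.MP_7453a1_nt_h45
open Pool.Agent.Work.MP_7453a1_nt_sym (IsFrame2)
open Pool.Agent.Work.MP_7453a1_st (Letter lt Rel steps pts pts_KL condH dval slowC fastC flagC
  neq neq_eq slots Entry lv wr wr_append rel_drop rel_append steps_append)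
open Pool.Agent.Work.MP_7453a1_su (lfarkas lbase wC wC_holds sh condH_sh lite_refute)

/-- A state: the word of the last moves, the type of the present triple, and the potential: the
linear form `lo` if `K = 0`, and `K (M₀ + ρ² M₁ + ρ M₂)`, between `lo` and `up`, if `K > 0`. -/
structure ASt where
  w : List ℕ
  fast : Bool
  K : ℕ
  lo : V3
  up : V3

/-- The negation of the inequality between the potentials. -/
def potC (tn td : ℤ) (k : ℕ) (v v' : V3) (pa pb : ℕ) : Bool × List (ℤ × ℕ) :=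
  (true, [(tn ^ k * v.1, pa), (tn ^ k * v.2.1, pa + 1), (tn ^ k * v.2.2, pa + 2),
    (-(td ^ k * v'.1), pb), (-(td ^ k * v'.2.1), pb + 1), (-(td ^ k * v'.2.2), pb + 2)])

/-- Check of one entry. -/
def entryOK (tn td : ℤ) (fb : List (List ℕ)) (sts : List ASt) (S : ASt) (l : ℕ) (tf : Bool)
    (e : Entry) : Bool :=
  if e.forb then
    match fb[e.tgt]? with
    | some u => neq u ((S.w ++ [l]).drop e.k)
    | none => false
  else
    match sts[e.tgt]? with
    | some S' => neq S'.w ((S.w ++ [l]).drop e.k) && ((S'.fast == tf) &&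
        ((Nat.beq l 0 && (Nat.ble 1 S.K && Nat.beq S.K S'.K)) ||
        lfarkas (lbase (pts (wr (S.w ++ [l]))) (wC (wr (S.w ++ [l])) 0 ++
          [sh (steps (wr (S.w ++ [l]))) (flagC tf),
          potC tn td (lt l).step S.up S'.lo (steps (wr S.w)) (steps (wr (S.w ++ [l])))]))
          e.cert))
    | none => false

/-- Check of the entries of a state. -/
def chkSlots (tn td : ℤ) (fb : List (List ℕ)) (sts : List ASt) (S : ASt) :
    List (ℕ × Bool) → List Entry → Bool
  | [], _ => true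
  | _ :: _, [] => false
  | s :: ss, e :: es => entryOK tn td fb sts S s.1 s.2 e && chkSlots tn td fb sts S ss es

/-- Check of a table. -/
def chkTab (tn td : ℤ) (fb : List (List ℕ)) (sts : List ASt) : List (ASt × List Entry) → Bool
  | [] => true
  | a :: l => chkSlots tn td fb sts a.1 (slots a.1.fast) a.2 && chkTab tn td fb sts l

/-- The state is correct. -/
def StOK (tn td : ℤ) (fb : List (List ℕ)) (sts : List ASt) (S : ASt) : Prop :=
  ∀ x ∈ slots S.fast, ∃ e, entryOK tn td fb sts S x.1 x.2 e = true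

lemma chkSlots_sound {tn td : ℤ} {fb : List (List ℕ)} {sts : List ASt} {S : ASt}
    {ss : List (ℕ × Bool)} {es : List Entry} (h : chkSlots tn td fb sts S ss es = true) :
    ∀ x ∈ ss, ∃ e, entryOK tn td fb sts S x.1 x.2 e = true := by
  induction ss generalizing es with
  | nil => intro x hx; simp at hx
  | cons s ss ih =>
    cases es with
    | nil => simp [chkSlots] at h
    | cons e es =>
      simp only [chkSlots, Bool.and_eq_true] at h
      intro x hx
      rcases List.mem_cons.mp hx with rfl | hx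
      · exact ⟨e, h.1⟩
      · exact ih h.2 x hx

lemma chkTab_sound {tn td : ℤ} {fb : List (List ℕ)} {sts : List ASt}
    {T : List (ASt × List Entry)} (h : chkTab tn td fb sts T = true) :
    ∀ S ∈ T.map Prod.fst, StOK tn td fb sts S := by
  induction T with
  | nil => intro S hS; simp at hS
  | cons a T ih =>
    simp only [chkTab, Bool.and_eq_true] at h
    intro S hS
    rw [List.map_cons, List.mem_cons] at hS
    rcases hS with rfl | hS
    · exact chkSlots_sound h.1
    · exact ih h.2 S hS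

/-- The bounds of the exact potentials, for `rn ≤ td ρ ≤ tn`. -/
def bdOK (rn tn td : ℤ) (S : ASt) : Bool :=
  if S.K = 0 then decide (S.lo = S.up) else
    decide (S.lo.1 ≤ S.K) && decide ((S.K : ℤ) ≤ S.up.1) &&
      decide (td ^ 2 * S.lo.2.1 ≤ S.K * rn ^ 2) && decide (S.K * tn ^ 2 ≤ td ^ 2 * S.up.2.1) &&
      decide (td * S.lo.2.2 ≤ S.K * rn) && decide (S.K * tn ≤ td * S.up.2.2)

/-- Check of an initial state. -/
def startOK (sts : List ASt) (i : ℕ) (f : Bool) (cert : List (ℕ × ℕ)) : Bool :=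
  match sts[i]? with
  | some S => neq S.w [] && ((S.fast == f) &&
      lfarkas (lbase (pts (wr [])) [sh 0 (flagC f),
        (true, [(1, 0), (-S.lo.1, 0), (-S.lo.2.1, 1), (-S.lo.2.2, 2)])]) cert)
  | none => false

/-- Bound for the coefficients. -/
def bndOK (B : ℕ) (sts : List ASt) : Bool :=
  sts.all fun S => Nat.ble (S.up.1.natAbs + (S.up.2.1.natAbs + S.up.2.2.natAbs)) B

variable {N : Seminorm ℝ V} {Θ : V} {z : ℕ → Pt 2} {p s : ℕ}

/-- The history and the type of the triple at `p` are those of the state. -/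
def Inv (z : ℕ → Pt 2) (p : ℕ) (S : ASt) : Prop :=
  (∃ s, s + steps (wr S.w) = p ∧ Rel z s (wr S.w)) ∧ condH z p (flagC S.fast)

/-- The value of the potential. -/
noncomputable def pot (ρ : ℝ) (z : ℕ → Pt 2) (p : ℕ) (S : ASt) : ℝ :=
  if S.K = 0 then lv z p S.lo else
    S.K * (((z p).1 : ℝ) + ρ ^ 2 * ((z (p + 1)).1 : ℝ) + ρ * ((z (p + 2)).1 : ℝ))

lemma lv_mono {v v' : V3} (h0 : 0 ≤ (z p).1) (h1 : 0 ≤ (z (p + 1)).1) (h2 : 0 ≤ (z (p + 2)).1)
    {a b c : ℝ} (ha : (v.1 : ℝ) ≤ a) (hb : (v.2.1 : ℝ) ≤ b) (hc : (v.2.2 : ℝ) ≤ c)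
    (ha' : a ≤ v'.1) (hb' : b ≤ v'.2.1) (hc' : c ≤ v'.2.2) :
    lv z p v ≤ a * ((z p).1 : ℝ) + b * ((z (p + 1)).1 : ℝ) + c * ((z (p + 2)).1 : ℝ) ∧
    a * ((z p).1 : ℝ) + b * ((z (p + 1)).1 : ℝ) + c * ((z (p + 2)).1 : ℝ) ≤ lv z p v' := by
  have h0 : (0 : ℝ) ≤ ((z p).1 : ℝ) := by exact_mod_cast h0
  have h1 : (0 : ℝ) ≤ ((z (p + 1)).1 : ℝ) := by exact_mod_cast h1
  have h2 : (0 : ℝ) ≤ ((z (p + 2)).1 : ℝ) := by exact_mod_cast h2
  have t1 := mul_le_mul_of_nonneg_right ha h0
  have t2 := mul_le_mul_of_nonneg_right hb h1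
  have t3 := mul_le_mul_of_nonneg_right hc h2
  have s1 := mul_le_mul_of_nonneg_right ha' h0
  have s2 := mul_le_mul_of_nonneg_right hb' h1
  have s3 := mul_le_mul_of_nonneg_right hc' h2
  unfold lv
  constructor <;> linarith

lemma pot_bd {ρ : ℝ} {rn tn td : ℤ} (hrn : 0 ≤ rn) (htd : 0 < td) (h1 : (rn : ℝ) ≤ td * ρ)
    (h2 : (td : ℝ) * ρ ≤ tn) (hpos : ∀ k, 0 < (z k).1) {S : ASt} (hS : bdOK rn tn td S = true) :
    lv z p S.lo ≤ pot ρ z p S ∧ pot ρ z p S ≤ lv z p S.up := by
  unfold bdOK at hS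
  unfold pot
  have hrn' : (0 : ℝ) ≤ (rn : ℝ) := by exact_mod_cast hrn
  have htd' : (0 : ℝ) < (td : ℝ) := by exact_mod_cast htd
  split_ifs at hS ⊢ with hK
  · rw [decide_eq_true_eq] at hS
    rw [← hS]
    exact ⟨le_rfl, le_rfl⟩
  · simp only [Bool.and_eq_true, decide_eq_true_eq] at hS
    obtain ⟨⟨⟨⟨⟨g1, g2⟩, g3⟩, g4⟩, g5⟩, g6⟩ := hS
    have hK0 : (0 : ℝ) ≤ (S.K : ℝ) := Nat.cast_nonneg _
    have g1 : (S.lo.1 : ℝ) ≤ (S.K : ℝ) := by exact_mod_cast g1
    have g2 : (S.K : ℝ) ≤ (S.up.1 : ℝ) := by exact_mod_cast g2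
    have g3 : (td : ℝ) ^ 2 * (S.lo.2.1 : ℝ) ≤ S.K * (rn : ℝ) ^ 2 := by exact_mod_cast g3
    have g4 : S.K * (tn : ℝ) ^ 2 ≤ (td : ℝ) ^ 2 * (S.up.2.1 : ℝ) := by exact_mod_cast g4
    have g5 : (td : ℝ) * (S.lo.2.2 : ℝ) ≤ S.K * (rn : ℝ) := by exact_mod_cast g5
    have g6 : S.K * (tn : ℝ) ≤ (td : ℝ) * (S.up.2.2 : ℝ) := by exact_mod_cast g6
    have q1 : (rn : ℝ) ^ 2 ≤ (td * ρ) ^ 2 := pow_le_pow_left₀ hrn' h1 2
    have q2 : ((td : ℝ) * ρ) ^ 2 ≤ (tn : ℝ) ^ 2 := pow_le_pow_left₀ (hrn'.trans h1) h2 2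
    have e3 : (S.lo.2.1 : ℝ) ≤ S.K * ρ ^ 2 := by
      have : (td : ℝ) ^ 2 * (S.lo.2.1 : ℝ) ≤ (td : ℝ) ^ 2 * (S.K * ρ ^ 2) := by
        refine g3.trans ?_
        have := mul_le_mul_of_nonneg_left q1 hK0
        calc _ ≤ (S.K : ℝ) * (td * ρ) ^ 2 := this
          _ = _ := by ring
      exact le_of_mul_le_mul_left this (by positivity)
    have e4 : S.K * ρ ^ 2 ≤ (S.up.2.1 : ℝ) := by
      have : (td : ℝ) ^ 2 * (S.K * ρ ^ 2) ≤ (td : ℝ) ^ 2 * (S.up.2.1 : ℝ) := by
        refine le_trans ?_ g4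
        have := mul_le_mul_of_nonneg_left q2 hK0
        calc _ = (S.K : ℝ) * (td * ρ) ^ 2 := by ring
          _ ≤ _ := this
      exact le_of_mul_le_mul_left this (by positivity)
    have e5 : (S.lo.2.2 : ℝ) ≤ S.K * ρ := by
      have : (td : ℝ) * (S.lo.2.2 : ℝ) ≤ (td : ℝ) * (S.K * ρ) := by
        refine g5.trans ?_
        have := mul_le_mul_of_nonneg_left h1 hK0
        calc _ ≤ (S.K : ℝ) * (td * ρ) := this
          _ = _ := by ring
      exact le_of_mul_le_mul_left this htd'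
    have e6 : S.K * ρ ≤ (S.up.2.2 : ℝ) := by
      have : (td : ℝ) * (S.K * ρ) ≤ (td : ℝ) * (S.up.2.2 : ℝ) := by
        refine le_trans ?_ g6
        have := mul_le_mul_of_nonneg_left h2 hK0
        calc _ = (S.K : ℝ) * (td * ρ) := by ring
          _ ≤ _ := this
      exact le_of_mul_le_mul_left this htd'
    have h3 := lv_mono (z := z) (p := p) (hpos p).le (hpos (p + 1)).le (hpos (p + 2)).le
      g1 e3 e5 g2 e4 e6
    have e : (S.K : ℝ) * (((z p).1 : ℝ) + ρ ^ 2 * ((z (p + 1)).1 : ℝ) + ρ * ((z (p + 2)).1 : ℝ)) =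
        S.K * ((z p).1 : ℝ) + S.K * ρ ^ 2 * ((z (p + 1)).1 : ℝ) +
          S.K * ρ * ((z (p + 2)).1 : ℝ) := by ring
    rw [e]
    exact h3

lemma lt_zero_step : (lt 0).step = 1 := rfl

lemma lt_zero_holds (h : (lt 0).holds z p) :
    ((z (p + 3)).1 : ℝ) = ((z p).1 : ℝ) + ((z (p + 1)).1 : ℝ) := by
  have h1 := h.1 0 (1, 1, 0) rfl
  have h2 := congrArg Prod.fst h1
  simp only [one_smul, zero_smul, add_zero, Prod.fst_add] at h2
  exact_mod_cast h2

/-- Soundness of an entry. -/
theorem entry_sound {ρ : ℝ} (hρ : ρ ^ 3 = ρ + 1) {rn tn td : ℤ} (hrn : 0 ≤ rn) (htd : 0 < td)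
    (h1 : (rn : ℝ) ≤ td * ρ) (h2 : (td : ℝ) * ρ ≤ tn) (hz : IsFrame2 N Θ z)
    {fb : List (List ℕ)} (hfb : ∀ w ∈ fb, NoWord w) {sts : List ASt}
    (hb : ∀ S ∈ sts, bdOK rn tn td S = true) {S : ASt} (hSs : S ∈ sts) (hS : Inv z p S) {l : ℕ}
    {tf : Bool} {e : Entry} (he : entryOK tn td fb sts S l tf e = true) (hl : (lt l).holds z p)
    (hf : condH z (p + (lt l).step) (flagC tf)) (hpot : 0 ≤ pot ρ z p S) :
    ∃ S' ∈ sts, Inv z (p + (lt l).step) S' ∧
      ρ ^ (lt l).step * pot ρ z p S ≤ pot ρ z (p + (lt l).step) S' := by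
  obtain ⟨⟨s, hs, hrel⟩, -⟩ := hS
  have hst : steps (wr (S.w ++ [l])) = steps (wr S.w) + (lt l).step := by
    rw [wr_append, steps_append]
    simp [wr, steps]
  have hW : Rel z s (wr (S.w ++ [l])) := by
    rw [wr_append, rel_append, hs]
    exact ⟨hrel, hl, trivial⟩
  have htd' : (0 : ℝ) < (td : ℝ) := by exact_mod_cast htd
  have hrn' : (0 : ℝ) ≤ (rn : ℝ) := by exact_mod_cast hrn
  unfold entryOK at he
  split at he
  · exfalso
    split at he
    · next u hu =>
      have h1 := neq_eq he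
      have h2 := rel_drop e.k hW
      rw [← h1] at h2
      exact hfb u (List.mem_of_getElem? hu) N Θ z hz _ h2
    · simp at he
  · split at he
    · next S' hS' =>
      simp only [Bool.and_eq_true, Bool.or_eq_true, beq_iff_eq] at he
      obtain ⟨k1, k2, k3⟩ := he
      have k1 := neq_eq k1
      have hS's := List.mem_of_getElem? hS'
      refine ⟨S', hS's, ⟨⟨s + steps (wr ((S.w ++ [l]).take e.k)), ?_, ?_⟩, ?_⟩, ?_⟩
      · have h4 : steps (wr (S.w ++ [l])) = steps (wr ((S.w ++ [l]).take e.k)) +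
            steps (wr ((S.w ++ [l]).drop e.k)) := by
          rw [← steps_append, ← wr_append, List.take_append_drop]
        rw [k1]
        omega
      · rw [k1]
        exact rel_drop e.k hW
      · rw [k2]; exact hf
      · rcases k3 with ⟨l0, l1, l2⟩ | k3
        · have l0 := Nat.eq_of_beq_eq_true l0
          have l1 := Nat.le_of_ble_eq_true l1
          have l2 := Nat.eq_of_beq_eq_true l2
          subst l0
          rw [lt_zero_step]
          have h3 := lt_zero_holds hl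
          unfold pot
          rw [if_neg (by omega), if_neg (by omega), ← l2, Nat.add_assoc, Nat.add_assoc]
          simp only [Nat.reduceAdd]
          rw [h3]
          apply le_of_eq
          linear_combination (S.K : ℝ) * ((z (p + 1)).1 : ℝ) * hρ
        · by_contra hcon
          push Not at hcon
          have b1 := (pot_bd (p := p) hrn htd h1 h2 hz.pos (hb S hSs)).2
          have b2 := (pot_bd (p := p + (lt l).step) hrn htd h1 h2 hz.pos (hb S' hS's)).1
          have b3 : ((td : ℝ) * ρ) ^ (lt l).step ≤ (tn : ℝ) ^ (lt l).step :=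
            pow_le_pow_left₀ (hrn'.trans h1) h2 _
          have b4 : (td : ℝ) ^ (lt l).step * lv z (p + (lt l).step) S'.lo <
              (tn : ℝ) ^ (lt l).step * lv z p S.up := by
            calc (td : ℝ) ^ (lt l).step * lv z (p + (lt l).step) S'.lo
                ≤ (td : ℝ) ^ (lt l).step * pot ρ z (p + (lt l).step) S' :=
                  mul_le_mul_of_nonneg_left b2 (by positivity)
              _ < (td : ℝ) ^ (lt l).step * (ρ ^ (lt l).step * pot ρ z p S) :=
                  mul_lt_mul_of_pos_left hcon (by positivity)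
              _ = ((td : ℝ) * ρ) ^ (lt l).step * pot ρ z p S := by rw [mul_pow]; ring
              _ ≤ (tn : ℝ) ^ (lt l).step * pot ρ z p S := mul_le_mul_of_nonneg_right b3 hpot
              _ ≤ _ := mul_le_mul_of_nonneg_left b1
                  (le_trans (pow_nonneg (hrn'.trans h1) _) b3)
          refine lite_refute hz.pos (fun k => hz.mono k (k + 1) (by omega)) (pts_KL hW)
            (fun c hc => ?_) k3
          rcases List.mem_append.mp hc with hc | hc
          · exact wC_holds (j := 0) hW c hc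
          · simp only [List.mem_cons, List.not_mem_nil, or_false] at hc
            rcases hc with rfl | rfl
            · apply condH_sh
              rw [hst, ← Nat.add_assoc, hs]
              exact hf
            · rw [hst]
              simp only [potC, condH, if_true, dval, List.foldr_cons, List.foldr_nil,
                Pool.Agent.Work.MP_7453a1_nt_sup.den_apply]
              unfold lv at b4
              have e1 : s + steps (wr S.w) = p := hs
              have e2 : s + (steps (wr S.w) + 1) = p + 1 := by omega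
              have e3 : s + (steps (wr S.w) + 2) = p + 2 := by omega
              have e4 : s + (steps (wr S.w) + (lt l).step) = p + (lt l).step := by omega
              have e5 : s + (steps (wr S.w) + (lt l).step + 1) = p + (lt l).step + 1 := by omega
              have e6 : s + (steps (wr S.w) + (lt l).step + 2) = p + (lt l).step + 2 := by omega
              rw [e1, e2, e3, e4, e5, e6]
              push_cast
              linarith
    · simp at he

/-- Soundness of an initial state. -/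
theorem start_sound {ρ : ℝ} {rn tn td : ℤ} (hrn : 0 ≤ rn) (htd : 0 < td)
    (h1 : (rn : ℝ) ≤ td * ρ) (h2 : (td : ℝ) * ρ ≤ tn) (hz : IsFrame2 N Θ z) {sts : List ASt}
    (hb : ∀ S ∈ sts, bdOK rn tn td S = true) {i : ℕ} {f : Bool} {cert : List (ℕ × ℕ)}
    (h : startOK sts i f cert = true) (hf : condH z 0 (flagC f)) :
    ∃ S ∈ sts, Inv z 0 S ∧ ((z 0).1 : ℝ) ≤ pot ρ z 0 S := by
  unfold startOK at h
  split at h
  · next S hS =>
    simp only [Bool.and_eq_true, beq_iff_eq] at h
    obtain ⟨k1, k2, k3⟩ := h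
    have k1 := neq_eq k1
    have hSs := List.mem_of_getElem? hS
    refine ⟨S, hSs, ⟨⟨0, by rw [k1]; rfl, by rw [k1]; trivial⟩, by rw [k2]; exact hf⟩, ?_⟩
    refine le_trans ?_ (pot_bd (p := 0) hrn htd h1 h2 hz.pos (hb S hSs)).1
    by_contra hcon
    push Not at hcon
    have hW : Rel z 0 (wr []) := trivial
    refine lite_refute (s := 0) hz.pos (fun k => hz.mono k (k + 1) (by omega)) (pts_KL hW)
      (fun c hc => ?_) k3
    simp only [List.mem_cons, List.not_mem_nil, or_false] at hc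
    rcases hc with rfl | rfl
    · exact condH_sh (j := 0) hf
    · simp only [condH, if_true, dval, List.foldr_cons, List.foldr_nil,
        Pool.Agent.Work.MP_7453a1_nt_sup.den_apply, Nat.zero_add]
      unfold lv at hcon
      simp only [Nat.zero_add] at hcon
      push_cast
      linarith
  · simp at h

lemma bnd_sound {ρ : ℝ} {rn tn td : ℤ} (hrn : 0 ≤ rn) (htd : 0 < td)
    (h1 : (rn : ℝ) ≤ td * ρ) (h2 : (td : ℝ) * ρ ≤ tn) (hz : IsFrame2 N Θ z) {sts : List ASt}
    (hb : ∀ S ∈ sts, bdOK rn tn td S = true) {B : ℕ} (h : bndOK B sts = true) {S : ASt}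
    (hS : S ∈ sts) : pot ρ z p S ≤ (B : ℝ) * ((z (p + 2)).1 : ℝ) := by
  refine (pot_bd (p := p) hrn htd h1 h2 hz.pos (hb S hS)).2.trans ?_
  have h3 := List.all_eq_true.mp h S hS
  have h4 : S.up.1.natAbs + (S.up.2.1.natAbs + S.up.2.2.natAbs) ≤ B := Nat.le_of_ble_eq_true h3
  have h5 : |(S.up.1 : ℝ)| + (|(S.up.2.1 : ℝ)| + |(S.up.2.2 : ℝ)|) ≤ (B : ℝ) := by
    have e : ∀ a : ℤ, |(a : ℝ)| = ((a.natAbs : ℕ) : ℝ) := fun a => by
      rw [← Int.cast_abs, Int.abs_eq_natAbs]; simp
    rw [e, e, e]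
    exact_mod_cast h4
  have g0 : (0 : ℝ) < ((z p).1 : ℝ) := by exact_mod_cast hz.pos p
  have g1 : ((z p).1 : ℝ) < ((z (p + 1)).1 : ℝ) := by exact_mod_cast hz.mono p (p + 1) (by omega)
  have g2 : ((z (p + 1)).1 : ℝ) < ((z (p + 2)).1 : ℝ) := by
    exact_mod_cast hz.mono (p + 1) (p + 2) (by omega)
  have k : ∀ a b : ℝ, 0 ≤ b → b ≤ ((z (p + 2)).1 : ℝ) → a * b ≤ |a| * ((z (p + 2)).1 : ℝ) := by
    intro a b hb hb'
    have := mul_le_mul_of_nonneg_right (le_abs_self a) hb
    have := mul_le_mul_of_nonneg_left hb' (abs_nonneg a)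
    linarith
  have k1 := k S.up.1 _ g0.le (by linarith)
  have k2 := k S.up.2.1 _ (by linarith : (0 : ℝ) ≤ ((z (p + 1)).1 : ℝ)) (by linarith)
  have k3 := k S.up.2.2 _ (by linarith : (0 : ℝ) ≤ ((z (p + 2)).1 : ℝ)) le_rfl
  have k4 := mul_le_mul_of_nonneg_right h5 (by linarith : (0 : ℝ) ≤ ((z (p + 2)).1 : ℝ))
  unfold lv
  linarith

end Pool.Agent.Work.MP_7453a1_an
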