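import Pool.Agent.Work.MP_7453a1_an.Slice

set_option autoImplicit false

/-!
The words: vectors and conditions for the checker.
-/

namespace Pool.Agent.Work.MP_7453a1_an

open Pool.Agent.Work.MP_7453a1_nt_norm Pool.Agent.Work.MP_7453a1_nt_h45
open Pool.Agent.Work.MP_7453a1_nt_sym (IsFrame2)
open Pool.Agent.Work.MP_7453a1_st (Letter pts wr Rel)
open Pool.Agent.Work.MP_7453a1_su (wC)

/-- Coordinates as a triple. -/
def toV (l : List ℤ) : V3 := (l.getD 0 0, l.getD 1 0, l.getD 2 0)

/-- The known points of a word. -/
def wW (w : List Letter) : List V3 :=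
  ((pts w).takeWhile fun l => decide (l.length ≤ 3)).map toV

/-- Monotonicity. -/
def monoV : List V3 → List V3
  | a :: b :: l => (b + -a) :: monoV (b :: l)
  | _ => []

/-- A linear form in the denominators. -/
def evV (W : List V3) : List (ℤ × ℕ) → Option V3
  | [] => some 0
  | a :: l =>
    match W[a.2]?, evV W l with
    | some c, some r => some (a.1 • c + r)
    | _, _ => none

/-- The strict conditions of a word. -/
def wQ (w : List Letter) : List V3 :=
  [(1, 1, -1), (1, 0, 0), (-1, 1, 0), (0, -1, 1)] ++ monoV (wW w) ++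
    (wC w 0).filterMap fun c => if c.1 = true then evV (wW w) c.2 else none

/-- The check of a word. -/
def wchk (w : List ℕ) (c : ℕ) : Bool := wcheck 1 0 (wW (wr w)) (wQ (wr w)) c

/-- Block NOW (from BUILD1, SOUND, NZ): a word that starts with a slow letter (so that `slowC` is
one of its conditions) and passes the check does not occur. -/
def Stmt_NOW : Prop := ∀ (w : List ℕ) (c : ℕ), wchk w c = true →
  (∀ (N : Seminorm ℝ V) (Θ : V) (z : ℕ → Pt 2), IsFrame2 N Θ z → ∀ s, Rel z s (wr w) → Slow z s) →
    NoWord w

end Pool.Agent.Work.MP_7453a1_an
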