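import Pool.Agent.Work.MP_7453a1_an.Check

set_option autoImplicit false

/-!
Forbidden words from certificates.
-/

namespace Pool.Agent.Work.MP_7453a1_an

open Pool.Agent.Work.MP_7453a1_nt_norm Pool.Agent.Work.MP_7453a1_nt_sup
open Pool.Agent.Work.MP_7453a1_st (Rel wr pts pts_KL KL condH dval)
open Pool.Agent.Work.MP_7453a1_su (ev2 ev2_val wC wC_holds)
open Pool.Agent.Work.MP_7453a1_nt_sym (IsFrame2)

/-- Coordinates with respect to the triple. -/
def cv : List ℤ → Option V3
  | [] => some (0, 0, 0)
  | [a] => some (a, 0, 0)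
  | [a, b] => some (a, b, 0)
  | [a, b, c] => some (a, b, c)
  | _ => none

/-- The vectors are the coordinates of the first points. -/
def preOK : List V3 → List (List ℤ) → Bool
  | [], _ => true
  | a :: W, c :: P => decide (cv c = some a) && preOK W P
  | _ :: _, [] => false

/-- Differences of consecutive vectors. -/
def mo : List V3 → List V3
  | a :: b :: l => (b - a) :: mo (b :: l)
  | _ => []

/-- The strict conditions in coordinates. -/
def cstr (P : List (List ℤ)) : List (Bool × List (ℤ × ℕ)) → List V3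
  | [] => []
  | (true, ms) :: l =>
    match ev2 P ms with
    | some c =>
      match cv c with
      | some v => v :: cstr P l
      | none => cstr P l
    | none => cstr P l
  | (false, _) :: l => cstr P l

/-- The strict inequalities along a word, in coordinates. -/
def wq (w : List ℕ) (W : List V3) : List V3 :=
  ((1, 0, 0) : V3) :: (mo W ++ cstr (pts (wr w)) (wC (wr w) 0))

/-- The data of a word are correct. -/
def wOK (w : List ℕ) (W QC : List V3) : Bool :=
  preOK W (pts (wr w)) && decide ((true, [((1 : ℤ), 0), (1, 1), (-1, 2)]) ∈ wC (wr w) 0) &&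
    QC.all fun h => decide (h ∈ wq w W)

theorem lc_cv {c : List ℤ} {v : V3} (h : cv c = some v) (g : ℕ → Pt 2) :
    lc c g = cb v (g 0) (g 1) (g 2) := by
  unfold cv at h
  split at h
  · simp only [Option.some.injEq] at h
    subst h
    simp [lc, cb]
  · simp only [Option.some.injEq] at h
    subst h
    simp [lc, cb]
  · simp only [Option.some.injEq] at h
    subst h
    simp [lc, cb]
  · simp only [Option.some.injEq] at h
    subst h
    simp [lc, cb]
  · exact absurd h (by simp)

theorem dot_cv {c : List ℤ} {v : V3} (h : cv c = some v) (f : ℕ → ℝ) :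
    dot c f = lin v (f 0, f 1, f 2) := by
  unfold cv at h
  split at h
  · simp only [Option.some.injEq] at h
    subst h
    simp [dot, lin]
  · simp only [Option.some.injEq] at h
    subst h
    simp [dot, lin]
  · simp only [Option.some.injEq] at h
    subst h
    simp [dot, lin]
  · simp only [Option.some.injEq] at h
    subst h
    simp [dot, lin, add_assoc]
  · exact absurd h (by simp)

theorem preOK_get : ∀ {W : List V3} {P : List (List ℤ)}, preOK W P = true →
    ∀ (j : ℕ) (a : V3), W[j]? = some a → ∃ c, P[j]? = some c ∧ cv c = some a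
  | [], _, _, j, a, ha => by simp at ha
  | b :: W, [], h, j, a, ha => by simp [preOK] at h
  | b :: W, c :: P, h, j, a, ha => by
    simp only [preOK, Bool.and_eq_true, decide_eq_true_eq] at h
    cases j with
    | zero =>
      simp only [List.getElem?_cons_zero, Option.some.injEq] at ha
      subst ha
      exact ⟨c, by simp, h.1⟩
    | succ j =>
      simp only [List.getElem?_cons_succ] at ha
      obtain ⟨d, hd, hd'⟩ := preOK_get h.2 j a ha
      exact ⟨d, by simpa using hd, hd'⟩

theorem mo_mem : ∀ {W : List V3} {h : V3}, h ∈ mo W →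
    ∃ (j : ℕ) (a b : V3), W[j]? = some a ∧ W[j + 1]? = some b ∧ h = b - a
  | [], h, hh => by simp [mo] at hh
  | [a], h, hh => by simp [mo] at hh
  | a :: b :: l, h, hh => by
    rw [mo, List.mem_cons] at hh
    rcases hh with rfl | hh
    · exact ⟨0, a, b, by simp, by simp, rfl⟩
    · obtain ⟨j, c, d, h1, h2, h3⟩ := mo_mem hh
      exact ⟨j + 1, c, d, by simpa using h1, by simpa using h2, h3⟩

theorem cstr_mem {P : List (List ℤ)} : ∀ {l : List (Bool × List (ℤ × ℕ))} {h : V3},
    h ∈ cstr P l → ∃ (ms : List (ℤ × ℕ)) (c : List ℤ), (true, ms) ∈ l ∧ ev2 P ms = some c ∧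
      cv c = some h
  | [], h, hh => by simp [cstr] at hh
  | (true, ms) :: l, h, hh => by
    have key : h ∈ cstr P l → ∃ (ms' : List (ℤ × ℕ)) (c : List ℤ),
        (true, ms') ∈ (true, ms) :: l ∧ ev2 P ms' = some c ∧ cv c = some h := by
      intro h1
      obtain ⟨ms', c, k1, k2, k3⟩ := cstr_mem h1
      exact ⟨ms', c, List.mem_cons_of_mem _ k1, k2, k3⟩
    rw [cstr] at hh
    split at hh
    · rename_i c hc
      split at hh
      · rename_i v hv
        rcases List.mem_cons.1 hh with rfl | hh
        · exact ⟨ms, c, by simp, hc, hv⟩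
        · exact key hh
      · exact key hh
    · exact key hh
  | (false, ms) :: l, h, hh => by
    rw [cstr] at hh
    obtain ⟨ms', c, k1, k2, k3⟩ := cstr_mem hh
    exact ⟨ms', c, List.mem_cons_of_mem _ k1, k2, k3⟩

theorem cb_fst (v : V3) (a b c : Pt 2) :
    (((cb v a b c).1 : ℤ) : ℝ) = lin v ((a.1 : ℝ), (b.1 : ℝ), (c.1 : ℝ)) := by
  unfold cb lin
  simp only [Prod.fst_add, Prod.smul_fst, smul_eq_mul]
  push_cast
  ring

theorem lin_sub (a b : V3) (q : ℝ × ℝ × ℝ) : lin (b - a) q = lin b q - lin a q := by
  unfold lin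
  simp only [Prod.fst_sub, Prod.snd_sub]
  push_cast
  ring

/-- A forbidden word from a certificate. -/
theorem no_of_check (hN : Stmt_NZ) (hB : Stmt_BUILD1) (hS : Stmt_SOUND) {w : List ℕ}
    {W QC : List V3} {code : ℕ} (h1 : wOK w W QC = true) (h2 : wcheck 1 0 W QC code = true) :
    NoWord w := by
  intro N Θ z hz s hw
  simp only [wOK, Bool.and_eq_true, decide_eq_true_eq, List.all_eq_true] at h1
  obtain ⟨⟨h3, h4⟩, h5⟩ := h1
  have hP := pts_KL hw
  have hC : ∀ c ∈ wC (wr w) 0, condH z s c := wC_holds (j := 0) hw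
  have hsl : Slow z s := by
    have h6 := hC _ h4
    unfold condH dval at h6
    simp only [if_true, List.foldr_cons, List.foldr_nil, den_apply, add_zero] at h6
    push_cast at h6
    have h7 : ((z (s + 2)).1 : ℝ) < (z s).1 + (z (s + 1)).1 := by linarith
    unfold Slow
    exact_mod_cast h7
  have hW : ∀ j a, W[j]? = some a → z (s + j) = cb a (z s) (z (s + 1)) (z (s + 2)) := by
    intro j a ha
    obtain ⟨c, hc, hc'⟩ := preOK_get h3 j a ha
    rw [hP j c hc, lc_cv hc']
    rfl
  have hQ : ∀ h ∈ QC, 0 < lin h (((z s).1 : ℝ), ((z (s + 1)).1 : ℝ), ((z (s + 2)).1 : ℝ)) := by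
    intro h hh
    have h6 := h5 h hh
    rw [wq, List.mem_cons, List.mem_append] at h6
    rcases h6 with rfl | h6 | h6
    · have := hz.pos s
      simp only [lin]
      push_cast
      have h7 : (0 : ℝ) < ((z s).1 : ℝ) := by exact_mod_cast this
      linarith
    · obtain ⟨j, a, b, ha, hb, rfl⟩ := mo_mem h6
      rw [lin_sub, ← cb_fst, ← cb_fst, ← hW j a ha, ← hW (j + 1) b hb, sub_pos]
      exact_mod_cast hz.mono (s + j) (s + (j + 1)) (by omega)
    · obtain ⟨ms, c, k1, k2, k3⟩ := cstr_mem h6
      have h7 := hC _ k1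
      unfold condH at h7
      simp only [if_true] at h7
      rw [← ev2_val hP k2, dot_cv k3] at h7
      exact h7
  exact hS 1 0 W QC code one_pos h2 _ _ _ _
    (hB N Θ z hz s hsl (hN N Θ z hz s hsl) W QC hW hQ)

end Pool.Agent.Work.MP_7453a1_an
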